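import Mathlib

namespace Pool.Agent.H195

/-- effect of one more zero on the exponent (plus one half) -/
noncomputable def stepF (p W : ℝ) : ℝ :=
  if W ≤ (4 * p + 1) / (2 * (4 * p - 1)) then ((4 * p - 1) / (4 * p + 1)) ^ 2 * W
  else ((8 * p - 2) * W - 1) / (4 * W + 8 * p + 2)

/-- the recursively defined exponents (plus one half) -/
noncomputable def Vrec (p : ℝ) : ℕ → ℝ
  | 0 => 2 * p - 1 / 2
  | m + 1 => max (2 * p - (m + 1) - 1 / 2) (stepF p (Vrec p m))

/-- `stepF` above the threshold, written with `A = W + 1/2` -/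
theorem stepF_hi {p D : ℝ} {k : ℕ} (hp : 1 ≤ p) (hD : 0 < D)
    (h : 4 * p < D * (4 * p - 1 - 2 * k)) :
    stepF p (2 * p * D / (2 * p + k * D) - 1 / 2) =
      2 * p * D / (2 * p + ((k + 1 : ℕ) : ℝ) * D) - 1 / 2 := by
  have hk : (0:ℝ) ≤ k := Nat.cast_nonneg k
  have hB : 0 < 2 * p + k * D := by positivity
  have hB' : 0 < 2 * p + ((k + 1 : ℕ) : ℝ) * D := by positivity
  have h1 : (4 * p + 1) / (2 * (4 * p - 1)) < 2 * p * D / (2 * p + k * D) - 1 / 2 := by
    rw [div_sub' hB.ne', div_lt_div_iff₀ (by linarith) (by positivity)]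
    nlinarith
  unfold stepF
  rw [if_neg (not_le.2 h1)]
  push_cast at hB' ⊢
  have h2 : 0 < 4 * (2 * p * D / (2 * p + k * D) - 1 / 2) + 8 * p + 2 := by
    have : 0 < 2 * p * D / (2 * p + k * D) := by positivity
    linarith
  rw [div_eq_iff h2.ne']
  field_simp
  ring

theorem stepF_lo {p D : ℝ} {k : ℕ} (hp : 1 ≤ p) (hD : 0 < D)
    (h : D * (4 * p - 1 - 2 * k) ≤ 4 * p) (r : ℝ) (hr0 : 0 ≤ r) (hr1 : r ≤ 1)
    (hW : 0 ≤ 2 * p * D / (2 * p + k * D) - 1 / 2) :
    stepF p (r * (2 * p * D / (2 * p + k * D) - 1 / 2)) =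
      ((4 * p - 1) / (4 * p + 1)) ^ 2 * (r * (2 * p * D / (2 * p + k * D) - 1 / 2)) := by
  have hk : (0:ℝ) ≤ k := Nat.cast_nonneg k
  have hB : 0 < 2 * p + k * D := by positivity
  have h1 : 2 * p * D / (2 * p + k * D) - 1 / 2 ≤ (4 * p + 1) / (2 * (4 * p - 1)) := by
    rw [div_sub' hB.ne', div_le_div_iff₀ (by positivity) (by linarith)]
    nlinarith
  unfold stepF
  rw [if_pos]
  calc r * (2 * p * D / (2 * p + k * D) - 1 / 2) ≤ 1 * (2 * p * D / (2 * p + k * D) - 1 / 2) :=
        mul_le_mul_of_nonneg_right hr1 hW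
    _ ≤ _ := by linarith

/-- `D - k ≤ A_k` -/
theorem D_sub_le {p D : ℝ} {k N : ℕ} (hpN : 2 * p = D + N) (hp : 1 ≤ p) (hD : 1 ≤ D)
    (hk : 1 ≤ k) (h : (D - 1) ^ 2 ≤ N + 1) : D - k ≤ 2 * p * D / (2 * p + k * D) := by
  have hkR : (1:ℝ) ≤ k := by exact_mod_cast hk
  have hB : 0 < 2 * p + k * D := by positivity
  rw [le_div_iff₀ hB, hpN]
  have h1 : D ^ 2 - ((k:ℝ) + 1) * D ≤ N := by nlinarith
  nlinarith [mul_le_mul_of_nonneg_left h1 (by linarith : (0:ℝ) ≤ k)]

theorem Vrec_struct (p : ℝ) (hp : 1 ≤ p) (m : ℕ) (hm : 1 ≤ m) : ∃ (E k N : ℕ) (D : ℝ),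
    1 ≤ N ∧ m = E + k + N ∧ 2 * p = D + N ∧ 1 ≤ D ∧ (N:ℝ) ≤ D ^ 2 ∧
    (1 ≤ E + k → (D - 1) ^ 2 ≤ N + 1) ∧ (1 ≤ k → 4 * p ≤ D * (4 * p + 1 - 2 * k)) ∧
    (1 ≤ E → D * (4 * p - 1 - 2 * k) ≤ 4 * p) ∧
    1 / 2 < 2 * p * D / (2 * p + k * D) ∧
    Vrec p m = ((4 * p - 1) / (4 * p + 1)) ^ (2 * E) * (2 * p * D / (2 * p + k * D) - 1 / 2) := by
  have h4p : 0 < 4 * p - 1 := by linarith
  have hρ0 : 0 < (4 * p - 1) / (4 * p + 1) := div_pos h4p (by linarith)
  have hρ1 : (4 * p - 1) / (4 * p + 1) ≤ 1 := by rw [div_le_one (by linarith)]; linarith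
  -- lower bound for A
  have hA : ∀ (k : ℕ) (D : ℝ), 1 ≤ D → (1 ≤ k → 4 * p ≤ D * (4 * p + 1 - 2 * k)) →
      1 / 2 < 2 * p * D / (2 * p + k * D) := by
    intro k D hD hk
    have hkR : (0:ℝ) ≤ k := Nat.cast_nonneg k
    have hB : 0 < 2 * p + k * D := by positivity
    rw [div_lt_div_iff₀ (by norm_num) hB]
    rcases Nat.eq_zero_or_pos k with h0 | h0
    · subst h0
      push_cast
      nlinarith
    · have h1 := hk h0
      have h2 : (1:ℝ) ≤ k := by exact_mod_cast h0
      nlinarith [mul_nonneg (sub_nonneg.2 h2) (by linarith : (0:ℝ) ≤ D)]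
  induction m, hm using Nat.le_induction with
  | base =>
    refine ⟨0, 0, 1, 2 * p - 1, le_rfl, rfl, by push_cast; ring, by linarith, ?_, by omega,
      by omega, by omega, ?_, ?_⟩
    · push_cast; nlinarith
    · apply hA 0 (2 * p - 1) (by linarith) (by omega)
    · have e0 : Vrec p 0 = 2 * p * (2 * p) / (2 * p + ((0:ℕ):ℝ) * (2 * p)) - 1 / 2 := by
        simp only [Vrec]
        push_cast
        field_simp
        ring
      have h1 := stepF_hi (p := p) (D := 2 * p) (k := 0) hp (by linarith) (by push_cast; nlinarith)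
      show max (2 * p - ((0:ℕ) + 1) - 1 / 2) (stepF p (Vrec p 0)) = _
      rw [e0, h1, max_eq_left]
      · push_cast
        field_simp
        ring
      · push_cast
        have h2 : 2 * p * (2 * p) / (2 * p + 1 * (2 * p)) = p := by
          field_simp; ring
        rw [h2]
        linarith
  | succ m hm ih =>
    obtain ⟨E, k, N, D, hN1, hmE, hpN, hD1, hND, hw, hk, hE, hA0, hV⟩ := ih
    have hNR : (1:ℝ) ≤ N := by exact_mod_cast hN1
    have hD0 : 0 < D := by linarith
    have hkR : (0:ℝ) ≤ k := Nat.cast_nonneg k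
    have hER : (0:ℝ) ≤ E := Nat.cast_nonneg E
    have hB : 0 < 2 * p + k * D := by positivity
    set A : ℝ := 2 * p * D / (2 * p + k * D) with hAdef
    have hmR : (m:ℝ) = E + k + N := by rw [hmE]; push_cast; ring
    have hVs : Vrec p (m + 1) = max (2 * p - (m + 1) - 1 / 2) (stepF p (Vrec p m)) := rfl
    have hfirst : 2 * p - ((m:ℝ) + 1) - 1 / 2 = D - k - E - 1 - 1 / 2 := by
      rw [hmR, hpN]; ring
    by_cases hlo : D * (4 * p - 1 - 2 * k) ≤ 4 * p
    · -- early point
      have hAle : A ≤ 4 / 3 := by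
        rw [hAdef, div_le_iff₀ hB]
        nlinarith
      have hDk : D - k ≤ A := by
        rcases Nat.eq_zero_or_pos k with h0 | h0
        · rw [hAdef]
          subst h0
          push_cast
          have : 2 * p * D / (2 * p + 0 * D) = D := by field_simp; ring
          rw [this]; linarith
        · exact D_sub_le hpN hp hD1 h0 (hw (by omega))
      have hwin : (D - 1) ^ 2 ≤ N + 1 := by
        rcases Nat.eq_zero_or_pos (E + k) with h0 | h0
        · have hk0 : k = 0 := by omega
          have hDle : D ≤ 4 / 3 := by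
            subst hk0
            push_cast at hlo
            nlinarith
          nlinarith
        · exact hw h0
      have hpow1 : ((4 * p - 1) / (4 * p + 1)) ^ (2 * E) ≤ 1 := pow_le_one₀ hρ0.le hρ1
      have hpow0 : 0 < ((4 * p - 1) / (4 * p + 1)) ^ (2 * E) := pow_pos hρ0 _
      refine ⟨E + 1, k, N, D, hN1, by omega, hpN, hD1, hND, fun _ => hwin, hk, fun _ => hlo, hA0, ?_⟩
      rw [hVs, hV, stepF_lo hp hD0 hlo _ hpow0.le hpow1 (by linarith), max_eq_right]
      · rw [← mul_assoc, ← pow_add]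
        congr 2
        ring
      · rw [hfirst]
        have h1 : 0 ≤ ((4 * p - 1) / (4 * p + 1)) ^ 2 *
            (((4 * p - 1) / (4 * p + 1)) ^ (2 * E) * (A - 1 / 2)) :=
          mul_nonneg (by positivity) (mul_nonneg hpow0.le (by linarith))
        linarith
    · push Not at hlo
      have hE0 : E = 0 := by
        by_contra h
        have := hE (by omega)
        linarith
      subst hE0
      simp only [Nat.cast_zero, mul_zero, pow_zero, one_mul] at hV hfirst
      have hF := stepF_hi hp hD0 hlo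
      rw [← hAdef] at hF
      by_cases hc : k = 0 ∧ N + 1 < (D - 1) ^ 2
      · -- enlarge the cluster
        obtain ⟨hk0, hc2⟩ := hc
        subst hk0
        refine ⟨0, 0, N + 1, D - 1, by omega, by omega, by push_cast; linarith, ?_, ?_, by omega,
          by omega, by omega, ?_, ?_⟩
        · nlinarith
        · push_cast; linarith
        · apply hA 0 (D - 1) _ (by omega)
          nlinarith
        · rw [hVs, hV, hF, hfirst, max_eq_left]
          · push_cast
            field_simp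
            ring
          · push_cast
            have hB1 : 0 < 2 * p + (0 + 1) * D := by positivity
            have : 2 * p * D / (2 * p + (0 + 1) * D) ≤ D - 1 := by
              rw [div_le_iff₀ hB1, hpN]
              nlinarith
            linarith
      · -- binding point
        have hwin : (D - 1) ^ 2 ≤ N + 1 := by
          rcases Nat.eq_zero_or_pos k with h0 | h0
          · by_contra hcon
            push Not at hcon
            exact hc ⟨h0, hcon⟩
          · exact hw (by omega)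
        have hk' : 1 ≤ k + 1 → 4 * p ≤ D * (4 * p + 1 - 2 * ((k + 1 : ℕ) : ℝ)) := by
          intro _
          push_cast
          linarith
        refine ⟨0, k + 1, N, D, hN1, by omega, hpN, hD1, hND, fun _ => hwin, hk', by omega,
          hA (k + 1) D hD1 hk', ?_⟩
        rw [hVs, hV, hF, max_eq_right]
        · simp
        · rw [hfirst]
          have h1 := D_sub_le (k := k + 1) hpN hp hD1 (by omega) hwin
          push_cast at h1 ⊢
          linarith

end Pool.Agent.H195
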