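import Mathlib
import Pool.Agent.H195.ML.Rec

namespace Pool.Agent.H195

theorem Vrec_small (p : ℝ) (hp : 1 ≤ p) (m : ℕ) (h0 : (m:ℝ) ≤ 2 * p)
    (h : (m:ℝ) ≤ (2 * p - m) ^ 2) : Vrec p m = 2 * p - m - 1 / 2 := by
  induction m with
  | zero => simp [Vrec]
  | succ m ih =>
    push_cast at h0 h
    have hmR : (0:ℝ) ≤ m := Nat.cast_nonneg m
    set D : ℝ := 2 * p - (m + 1) with hD
    have hD0 : 0 ≤ D := by linarith
    have hD1 : 1 ≤ D := by nlinarith
    have h1 : (m:ℝ) ≤ (2 * p - m) ^ 2 := by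
      have : 2 * p - m = D + 1 := by rw [hD]; ring
      rw [this]; nlinarith
    rw [show Vrec p (m + 1) = max (2 * p - (m + 1) - 1 / 2) (stepF p (Vrec p m)) from rfl,
      ih (by linarith) h1]
    have e0 : 2 * p - (m:ℝ) - 1 / 2 = 2 * p * (D + 1) / (2 * p + ((0:ℕ):ℝ) * (D + 1)) - 1 / 2 := by
      have : 2 * p * (D + 1) / (2 * p + ((0:ℕ):ℝ) * (D + 1)) = D + 1 := by
        push_cast
        have : 0 < p := by linarith
        field_simp
        ring
      rw [this, hD]; ring
    rw [e0, stepF_hi hp (by linarith) (by push_cast; nlinarith)]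
    push_cast
    rw [← hD, max_eq_left]
    have hB : 0 < 2 * p + (0 + 1) * (D + 1) := by positivity
    have h2 : 2 * p * (D + 1) / (2 * p + (0 + 1) * (D + 1)) ≤ D := by
      rw [div_le_iff₀ hB]
      have h3 : 2 * p = D + (m + 1) := by rw [hD]; ring
      rw [h3]
      nlinarith
    linarith

/-- number of binding points -/
noncomputable def kst (p D : ℝ) : ℕ := ⌈2 * p - 1 / 2 - 2 * p / D⌉₊

theorem Vrec_large (p : ℝ) (hp : 1 ≤ p) (N : ℕ) (D : ℝ) (hpN : 2 * p = D + N)
    (hD1 : 1 ≤ D) (h1 : (N:ℝ) ≤ D ^ 2) (h2 : (D - 1) ^ 2 ≤ N + 1) (j : ℕ) :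
    Vrec p (N + j) = ((4 * p - 1) / (4 * p + 1)) ^ (2 * (j - min j (kst p D))) *
      (2 * p * D / (2 * p + ((min j (kst p D) : ℕ) : ℝ) * D) - 1 / 2) := by
  have hD0 : 0 < D := by linarith
  have hNR : (0:ℝ) ≤ N := Nat.cast_nonneg N
  have h4p : 0 < 4 * p - 1 := by linarith
  have hρ0 : 0 < (4 * p - 1) / (4 * p + 1) := div_pos h4p (by linarith)
  have hρ1 : (4 * p - 1) / (4 * p + 1) ≤ 1 := by rw [div_le_one (by linarith)]; linarith
  have hlt : ∀ j : ℕ, j < kst p D → 4 * p < D * (4 * p - 1 - 2 * j) := by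
    intro j hj
    have h3 : (j:ℝ) < 2 * p - 1 / 2 - 2 * p / D := Nat.lt_ceil.1 hj
    have h4 : D * (2 * p / D) = 2 * p := by field_simp
    nlinarith
  have hge : D * (4 * p - 1 - 2 * (kst p D : ℕ)) ≤ 4 * p := by
    have h3 : 2 * p - 1 / 2 - 2 * p / D ≤ (kst p D : ℕ) := Nat.le_ceil _
    have h4 : D * (2 * p / D) = 2 * p := by field_simp
    nlinarith
  have hA : ∀ k : ℕ, k ≤ kst p D → 1 / 2 < 2 * p * D / (2 * p + (k:ℝ) * D) := by
    intro k hk
    have hkR : (0:ℝ) ≤ k := Nat.cast_nonneg k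
    have hB : 0 < 2 * p + (k:ℝ) * D := by positivity
    rw [div_lt_div_iff₀ (by norm_num) hB]
    rcases Nat.eq_zero_or_pos k with h0 | h0
    · subst h0
      push_cast
      nlinarith
    · have h3 := hlt (k - 1) (by omega)
      have h4 : (1:ℝ) ≤ k := by exact_mod_cast h0
      rw [Nat.cast_sub h0] at h3
      push_cast at h3
      nlinarith [mul_nonneg (sub_nonneg.2 h4) hD0.le]
  induction j with
  | zero =>
    rw [Nat.add_zero, Vrec_small p hp N (by linarith) (by rw [hpN]; simpa using h1)]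
    simp only [Nat.zero_le, inf_of_le_left, Nat.cast_zero, zero_mul, add_zero, tsub_self,
      mul_zero, pow_zero, one_mul]
    have : 2 * p * D / (2 * p) = D := by
      have : 0 < p := by linarith
      field_simp
    rw [this, hpN]; ring
  | succ j ih =>
    rw [show N + (j + 1) = (N + j) + 1 from rfl,
      show Vrec p ((N + j) + 1) = max (2 * p - (((N + j : ℕ) : ℝ) + 1) - 1 / 2)
        (stepF p (Vrec p (N + j))) from rfl, ih]
    have hfirst : 2 * p - (((N + j : ℕ) : ℝ) + 1) - 1 / 2 = D - (j + 1) - 1 / 2 := by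
      push_cast; rw [hpN]; ring
    rw [hfirst]
    rcases Nat.lt_or_ge j (kst p D) with hj | hj
    · have e1 : min j (kst p D) = j := min_eq_left hj.le
      have e2 : min (j + 1) (kst p D) = j + 1 := min_eq_left hj
      rw [e1, e2, Nat.sub_self, Nat.sub_self, mul_zero, pow_zero, one_mul, one_mul,
        stepF_hi hp hD0 (hlt j hj), max_eq_right]
      have h3 := D_sub_le (k := j + 1) hpN hp hD1 (by omega) h2
      push_cast at h3 ⊢
      linarith
    · have e1 : min j (kst p D) = kst p D := min_eq_right hj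
      have e2 : min (j + 1) (kst p D) = kst p D := min_eq_right (by omega)
      set k := kst p D with hk
      have hA0 := hA k le_rfl
      have hpow1 : ((4 * p - 1) / (4 * p + 1)) ^ (2 * (j - k)) ≤ 1 := pow_le_one₀ hρ0.le hρ1
      have hpow0 : 0 < ((4 * p - 1) / (4 * p + 1)) ^ (2 * (j - k)) := pow_pos hρ0 _
      rw [e1, e2, stepF_lo hp hD0 hge _ hpow0.le hpow1 (by linarith), max_eq_right]
      · rw [← mul_assoc, ← pow_add]
        congr 2
        omega
      · have hB : 0 < 2 * p + (k:ℝ) * D := by positivity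
        have hAle : 2 * p * D / (2 * p + (k:ℝ) * D) ≤ 4 / 3 := by
          rw [div_le_iff₀ hB]
          nlinarith
        have hDk : D - k ≤ 2 * p * D / (2 * p + (k:ℝ) * D) := by
          rcases Nat.eq_zero_or_pos k with h0 | h0
          · rw [h0]
            push_cast
            have : 2 * p * D / (2 * p + 0 * D) = D := by
              have : 0 < p := by linarith
              field_simp; ring
            rw [this]; linarith
          · exact D_sub_le hpN hp hD1 h0 h2
        have hkj : (k:ℝ) ≤ j := by exact_mod_cast hj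
        have h5 : 0 ≤ ((4 * p - 1) / (4 * p + 1)) ^ 2 *
            (((4 * p - 1) / (4 * p + 1)) ^ (2 * (j - k)) *
              (2 * p * D / (2 * p + (k:ℝ) * D) - 1 / 2)) :=
          mul_nonneg (by positivity) (mul_nonneg hpow0.le (by linarith))
        linarith

end Pool.Agent.H195
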