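import Mathlib
import Pool.Graph.R_seed8.Helper772.MV.EvParams

open MeasureTheory Metric Set
open scoped ENNReal Real

namespace Pool.Agent.H195.ML

open MeanVal

theorem ev_one (κ a L₀ N : ℕ) (hκ : 1 ≤ κ) (hN : 1 ≤ N) (T K kE H V C₀ Cosc ω r εc : ℝ)
    (hT0 : 0 < T) (hT1 : T < 1) (hK : 0 < K) (hkE : 0 < kE)
    (hV : V < H - ((κ:ℝ) - 1 / 2) * T) (hC₀ : 0 < C₀) (hCosc : 0 < Cosc)
    (hω : 0 < ω) (hr : 0 < r) (hr1 : r < 1) (hεc : 0 < εc) :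
    ∀ᶠ n : ℕ in Filter.atTop,
      L₀ ≤ ⌈K * (n:ℝ) ^ T⌉₊ ∧ (2 * a + 2) * ⌈K * (n:ℝ) ^ T⌉₊ ≤ n ∧
      Cosc * ((2 ^ κ * (C₀ * (n:ℝ) ^ (-1 / 2 + V)) * (⌈K * (n:ℝ) ^ T⌉₊ : ℝ) ^ κ) /
        (kE * (n:ℝ) ^ H)) ≤ ω / N ∧
      Cosc * ((2 ^ κ * (C₀ * (n:ℝ) ^ (-1 / 2 + V)) * (⌈K * (n:ℝ) ^ T⌉₊ : ℝ) ^ κ) ^ 2 * n /
        (⌈K * (n:ℝ) ^ T⌉₊ * (kE * (n:ℝ) ^ H) ^ 2)) ≤ ω / N ^ 2 ∧
      (a + 1) * (2 ^ κ * (C₀ * (n:ℝ) ^ (-1 / 2 + V)) * (⌈K * (n:ℝ) ^ T⌉₊ : ℝ) ^ κ) * r ^ (n / 2) ≤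
        εc / N := by
  have hNR : (0:ℝ) < N := by exact_mod_cast hN
  have hκR : (1:ℝ) ≤ κ := by exact_mod_cast hκ
  have e1 : ∀ᶠ n : ℕ in Filter.atTop, (L₀ : ℝ) / K ≤ (n:ℝ) ^ T :=
    ((tendsto_rpow_atTop hT0).comp tendsto_natCast_atTop_atTop).eventually_ge_atTop _
  have e2 := EvParams.ep_small ((2 * a + 2) * (K + 1)) (T - 1) 1 (by linarith) one_pos
  have e3 := EvParams.ep_small (Cosc * (2 ^ κ * C₀ * (K + 1) ^ κ) / kE)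
    (-1 / 2 + V + κ * T - H) (ω / N) (by linarith) (by positivity)
  have e4 := EvParams.ep_small (Cosc * ((2 ^ κ * C₀) ^ 2 * (K + 1) ^ (2 * κ - 1)) / kE ^ 2)
    (2 * V + (2 * κ - 1) * T - 2 * H) (ω / N ^ 2) (by linarith) (by positivity)
  have e5 := EvParams.ep_geo (-1 / 2 + V + κ * T) ((a + 1) * (2 ^ κ * C₀ * (K + 1) ^ κ)) r (εc / N)
    (by positivity) hr hr1 (by positivity)
  filter_upwards [e1, e2, e3, e4, e5, Filter.eventually_ge_atTop 1] with n h1 h2 h3 h4 h5 hn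
  have hn0 : (0:ℝ) < n := by exact_mod_cast hn
  have hc := EvParams.ep_ceil K T hK hT0 n hn
  have hnT : 0 < (n:ℝ) ^ T := Real.rpow_pos_of_pos hn0 _
  have hnV : 0 < (n:ℝ) ^ (-1 / 2 + V) := Real.rpow_pos_of_pos hn0 _
  have hnH : 0 < (n:ℝ) ^ H := Real.rpow_pos_of_pos hn0 _
  have hLpos : 0 < (⌈K * (n:ℝ) ^ T⌉₊ : ℝ) := lt_of_lt_of_le (by positivity) (Nat.le_ceil _)
  set L : ℝ := (⌈K * (n:ℝ) ^ T⌉₊ : ℝ) with hLdef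
  have hLk : L ^ κ ≤ (K + 1) ^ κ * (n:ℝ) ^ (κ * T) := by
    have h6 : L ^ κ ≤ ((K + 1) * (n:ℝ) ^ T) ^ κ := pow_le_pow_left₀ hLpos.le hc κ
    rw [mul_pow, ← Real.rpow_natCast ((n:ℝ) ^ T) κ, ← Real.rpow_mul hn0.le, mul_comm T] at h6
    exact h6
  refine ⟨?_, ?_, ?_, ?_, ?_⟩
  · have : (L₀ : ℝ) ≤ L := by
      refine le_trans ?_ (Nat.le_ceil _)
      rw [div_le_iff₀ hK] at h1
      linarith
    rw [hLdef] at this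
    exact_mod_cast this
  · have : (((2 * a + 2) * ⌈K * (n:ℝ) ^ T⌉₊ : ℕ) : ℝ) ≤ n := by
      push_cast
      rw [← hLdef]
      have h6 : (n:ℝ) ^ T = (n:ℝ) ^ (T - 1) * n := by
        rw [Real.rpow_sub_one hn0.ne', div_mul_cancel₀ _ hn0.ne']
      calc (2 * (a:ℝ) + 2) * L ≤ (2 * a + 2) * ((K + 1) * (n:ℝ) ^ T) := by gcongr
        _ = (2 * a + 2) * (K + 1) * (n:ℝ) ^ (T - 1) * n := by rw [h6]; ring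
        _ ≤ 1 * n := by gcongr
        _ = n := one_mul _
    exact_mod_cast this
  · refine le_trans ?_ h3
    have h6 : (n:ℝ) ^ (-1 / 2 + V + κ * T - H) =
        (n:ℝ) ^ (-1 / 2 + V) * (n:ℝ) ^ (κ * T) / (n:ℝ) ^ H := by
      rw [Real.rpow_sub hn0, Real.rpow_add hn0 (-1 / 2 + V) (κ * T)]
    rw [h6]
    calc Cosc * ((2 ^ κ * (C₀ * (n:ℝ) ^ (-1 / 2 + V)) * L ^ κ) / (kE * (n:ℝ) ^ H))
        ≤ Cosc * ((2 ^ κ * (C₀ * (n:ℝ) ^ (-1 / 2 + V)) * ((K + 1) ^ κ * (n:ℝ) ^ (κ * T))) /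
          (kE * (n:ℝ) ^ H)) := by gcongr
      _ = _ := by field_simp
  · refine le_trans ?_ h4
    have h6 : (n:ℝ) ^ (2 * V + (2 * κ - 1) * T - 2 * H) =
        ((n:ℝ) ^ (-1 / 2 + V)) ^ 2 * n * (n:ℝ) ^ ((2 * κ - 1) * T) / ((n:ℝ) ^ H) ^ 2 := by
      have h7 : ((n:ℝ) ^ (-1 / 2 + V)) ^ 2 * n = (n:ℝ) ^ (2 * V) := by
        rw [← Real.rpow_natCast, ← Real.rpow_mul hn0.le]
        nth_rewrite 2 [← Real.rpow_one (n:ℝ)]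
        rw [← Real.rpow_add hn0]
        congr 1
        push_cast
        ring
      rw [h7, ← Real.rpow_add hn0, ← Real.rpow_natCast ((n:ℝ) ^ H),
        ← Real.rpow_mul hn0.le, ← Real.rpow_sub hn0]
      congr 1
      push_cast
      ring
    have hLk2 : L ^ (2 * κ - 1) ≤ (K + 1) ^ (2 * κ - 1) * (n:ℝ) ^ ((2 * (κ:ℝ) - 1) * T) := by
      have h6 : L ^ (2 * κ - 1) ≤ ((K + 1) * (n:ℝ) ^ T) ^ (2 * κ - 1) :=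
        pow_le_pow_left₀ hLpos.le hc _
      rw [mul_pow, ← Real.rpow_natCast ((n:ℝ) ^ T) (2 * κ - 1), ← Real.rpow_mul hn0.le] at h6
      have h7 : T * ((2 * κ - 1 : ℕ) : ℝ) = (2 * (κ:ℝ) - 1) * T := by
        rw [Nat.cast_sub (by omega)]
        push_cast
        ring
      rw [h7] at h6
      exact h6
    have h8 : (L ^ κ) ^ 2 = L ^ (2 * κ - 1) * L := by
      rw [← pow_mul, ← pow_succ]
      congr 1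
      omega
    rw [h6]
    calc Cosc * ((2 ^ κ * (C₀ * (n:ℝ) ^ (-1 / 2 + V)) * L ^ κ) ^ 2 * n /
          (L * (kE * (n:ℝ) ^ H) ^ 2))
        = Cosc * ((2 ^ κ * C₀ * (n:ℝ) ^ (-1 / 2 + V)) ^ 2 * ((L ^ κ) ^ 2 / L) * n /
          ((kE * (n:ℝ) ^ H) ^ 2)) := by field_simp
      _ = Cosc * ((2 ^ κ * C₀ * (n:ℝ) ^ (-1 / 2 + V)) ^ 2 * L ^ (2 * κ - 1) * n /
          ((kE * (n:ℝ) ^ H) ^ 2)) := by
          rw [h8, mul_div_cancel_right₀ _ hLpos.ne']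
      _ ≤ Cosc * ((2 ^ κ * C₀ * (n:ℝ) ^ (-1 / 2 + V)) ^ 2 *
          ((K + 1) ^ (2 * κ - 1) * (n:ℝ) ^ ((2 * (κ:ℝ) - 1) * T)) * n /
          ((kE * (n:ℝ) ^ H) ^ 2)) := by gcongr
      _ = _ := by field_simp
  · refine le_trans ?_ h5
    have h6 : (n:ℝ) ^ (-1 / 2 + V + κ * T) = (n:ℝ) ^ (-1 / 2 + V) * (n:ℝ) ^ (κ * T) :=
      Real.rpow_add hn0 _ _
    rw [h6]
    calc (a + 1) * (2 ^ κ * (C₀ * (n:ℝ) ^ (-1 / 2 + V)) * L ^ κ) * r ^ (n / 2)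
        ≤ (a + 1) * (2 ^ κ * (C₀ * (n:ℝ) ^ (-1 / 2 + V)) *
          ((K + 1) ^ κ * (n:ℝ) ^ (κ * T))) * r ^ (n / 2) := by
          gcongr
      _ = _ := by ring

theorem eventual_paramsA (P a L₀ N : ℕ) (κ : ℕ → ℕ) (T K kE Hl : ℕ → ℝ)
    (V ε' Cosc A ω c r εc K₀ T₀ D C₀ c₁ : ℝ) (hκ : ∀ l ≤ P, 1 ≤ κ l) (hN : 1 ≤ N)
    (hT : ∀ l ≤ P, 0 < T l ∧ T l < 1) (hK : ∀ l ≤ P, 0 < K l) (hkE : ∀ l ≤ P, 0 < kE l)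
    (hV : ∀ l ≤ P, V < Hl l - ((κ l : ℝ) - 1 / 2) * T l) (hε' : 0 < ε') (hCosc : 0 < Cosc)
    (hω : 0 < ω) (hc : 0 < c) (hr : 0 < r) (hr1 : r < 1) (hεc : 0 < εc) (hK₀ : 0 < K₀)
    (hT₀ : T₀ < 1) (hC₀ : 0 < C₀) (hc₁ : 0 < c₁) :
    ∀ᶠ n : ℕ in Filter.atTop, (∀ l ≤ P,
      L₀ ≤ ⌈K l * (n:ℝ) ^ (T l)⌉₊ ∧ (2 * a + 2) * ⌈K l * (n:ℝ) ^ (T l)⌉₊ ≤ n ∧
      Cosc * ((2 ^ (κ l) * (C₀ * (n:ℝ) ^ (-1 / 2 + V)) * (⌈K l * (n:ℝ) ^ (T l)⌉₊ : ℝ) ^ (κ l)) /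
        (kE l * (n:ℝ) ^ (Hl l))) ≤ ω / N ∧
      Cosc * ((2 ^ (κ l) * (C₀ * (n:ℝ) ^ (-1 / 2 + V)) *
        (⌈K l * (n:ℝ) ^ (T l)⌉₊ : ℝ) ^ (κ l)) ^ 2 * n /
        (⌈K l * (n:ℝ) ^ (T l)⌉₊ * (kE l * (n:ℝ) ^ (Hl l)) ^ 2)) ≤ ω / N ^ 2 ∧
      (a + 1) * (2 ^ (κ l) * (C₀ * (n:ℝ) ^ (-1 / 2 + V)) *
        (⌈K l * (n:ℝ) ^ (T l)⌉₊ : ℝ) ^ (κ l)) * r ^ (n / 2) ≤ εc / N) ∧
      (n:ℝ) ^ (-ε') ≤ c ∧
      A * ((8 * (K₀ * (n:ℝ) ^ T₀)) ^ D) ^ (P + 1) *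
        Real.exp (-(n * (1 / (K₀ * (n:ℝ) ^ T₀)) / 4)) ≤ c₁ * (C₀ * (n:ℝ) ^ (-1 / 2 + V)) := by
  refine Filter.Eventually.and ?_ (Filter.Eventually.and ?_ ?_)
  · have key : ∀ l ∈ Finset.range (P + 1), ∀ᶠ n : ℕ in Filter.atTop,
      L₀ ≤ ⌈K l * (n:ℝ) ^ (T l)⌉₊ ∧ (2 * a + 2) * ⌈K l * (n:ℝ) ^ (T l)⌉₊ ≤ n ∧
      Cosc * ((2 ^ (κ l) * (C₀ * (n:ℝ) ^ (-1 / 2 + V)) * (⌈K l * (n:ℝ) ^ (T l)⌉₊ : ℝ) ^ (κ l)) /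
        (kE l * (n:ℝ) ^ (Hl l))) ≤ ω / N ∧
      Cosc * ((2 ^ (κ l) * (C₀ * (n:ℝ) ^ (-1 / 2 + V)) *
        (⌈K l * (n:ℝ) ^ (T l)⌉₊ : ℝ) ^ (κ l)) ^ 2 * n /
        (⌈K l * (n:ℝ) ^ (T l)⌉₊ * (kE l * (n:ℝ) ^ (Hl l)) ^ 2)) ≤ ω / N ^ 2 ∧
      (a + 1) * (2 ^ (κ l) * (C₀ * (n:ℝ) ^ (-1 / 2 + V)) *
        (⌈K l * (n:ℝ) ^ (T l)⌉₊ : ℝ) ^ (κ l)) * r ^ (n / 2) ≤ εc / N := by
      intro l hl
      have hl' : l ≤ P := by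
        have := Finset.mem_range.1 hl
        omega
      exact ev_one (κ l) a L₀ N (hκ l hl') hN (T l) (K l) (kE l) (Hl l) V C₀ Cosc ω r εc
        (hT l hl').1 (hT l hl').2 (hK l hl') (hkE l hl') (hV l hl') hC₀ hCosc hω hr hr1 hεc
    have := (Filter.eventually_all_finset (Finset.range (P + 1))).2 key
    filter_upwards [this] with n hn l hl
    exact hn l (Finset.mem_range.2 (by omega))
  · have := EvParams.ep_small 1 (-ε') c (by linarith) hc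
    filter_upwards [this] with n hn
    simpa using hn
  · have hs : 0 < 1 - T₀ := by linarith
    set s := 1 - T₀ with hsdef
    set b : ℝ := (T₀ * (D * (P + 1)) + (1 / 2 - V)) / s with hb
    have h1 := tendsto_rpow_mul_exp_neg_mul_atTop_nhds_zero b (1 / (4 * K₀)) (by positivity)
    have h2 := (h1.comp ((tendsto_rpow_atTop hs).comp
      (tendsto_natCast_atTop_atTop (R := ℝ)))).const_mul (A * (8 * K₀) ^ (D * (P + 1)))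
    rw [mul_zero] at h2
    have h3 := h2.eventually (gt_mem_nhds (show (0:ℝ) < c₁ * C₀ by positivity))
    filter_upwards [h3, Filter.eventually_ge_atTop 1] with n h4 hn
    have hn0 : (0:ℝ) < n := by exact_mod_cast hn
    have h5 : A * (8 * K₀) ^ (D * (P + 1)) * (((n:ℝ) ^ s) ^ b *
        Real.exp (-(1 / (4 * K₀)) * (n:ℝ) ^ s)) < c₁ * C₀ := h4
    have h6 : ((n:ℝ) ^ s) ^ b = (n:ℝ) ^ (T₀ * (D * (P + 1))) * (n:ℝ) ^ (1 / 2 - V) := by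
      rw [← Real.rpow_mul hn0.le, hb, mul_div_cancel₀ _ hs.ne', Real.rpow_add hn0]
    have h7 : (n * (1 / (K₀ * (n:ℝ) ^ T₀)) / 4) = 1 / (4 * K₀) * (n:ℝ) ^ s := by
      rw [hsdef, Real.rpow_sub hn0, Real.rpow_one]
      field_simp
    have h8 : ((8 * (K₀ * (n:ℝ) ^ T₀)) ^ D) ^ (P + 1) =
        (8 * K₀) ^ (D * (P + 1)) * (n:ℝ) ^ (T₀ * (D * (P + 1))) := by
      rw [← Real.rpow_natCast, ← Real.rpow_mul (by positivity), ← mul_assoc,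
        Real.mul_rpow (by positivity) (by positivity), ← Real.rpow_mul hn0.le]
      push_cast
      rfl
    rw [h8, h7]
    have h9 : (n:ℝ) ^ (-1 / 2 + V) * (n:ℝ) ^ (1 / 2 - V) = 1 := by
      rw [← Real.rpow_add hn0]
      have : (-1 / 2 + V + (1 / 2 - V)) = 0 := by ring
      rw [this, Real.rpow_zero]
    rw [h6] at h5
    have hp : 0 < (n:ℝ) ^ (-1 / 2 + V) := by positivity
    have h10 := mul_le_mul_of_nonneg_left h5.le hp.le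
    calc A * ((8 * K₀) ^ (D * (P + 1)) * (n:ℝ) ^ (T₀ * (D * (P + 1)))) *
          Real.exp (-(1 / (4 * K₀) * (n:ℝ) ^ s))
        = ((n:ℝ) ^ (-1 / 2 + V) * (n:ℝ) ^ (1 / 2 - V)) * (A * ((8 * K₀) ^ (D * (P + 1)) *
            (n:ℝ) ^ (T₀ * (D * (P + 1)))) * Real.exp (-(1 / (4 * K₀)) * (n:ℝ) ^ s)) := by
          rw [h9, one_mul, neg_mul]
      _ = (n:ℝ) ^ (-1 / 2 + V) * (A * (8 * K₀) ^ (D * (P + 1)) * ((n:ℝ) ^ (T₀ * (D * (P + 1))) *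
            (n:ℝ) ^ (1 / 2 - V) * Real.exp (-(1 / (4 * K₀)) * (n:ℝ) ^ s))) := by ring
      _ ≤ (n:ℝ) ^ (-1 / 2 + V) * (c₁ * C₀) := h10
      _ = c₁ * (C₀ * (n:ℝ) ^ (-1 / 2 + V)) := by ring

end Pool.Agent.H195.ML
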