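import Mathlib
import Pool.Graph.R_seed8.Helper772.MV.Defs

open Polynomial

namespace Pool.Agent.H195.ML

/-- all power sums `∑ c_i i^r μ^i`, `r < k`, vanish iff `(X - μ)^k` divides the polynomial -/
theorem dvd_of_moments (m k : ℕ) (c : ℕ → ℂ) (μ : ℂ) (hμ : μ ≠ 0)
    (h : ∀ r < k, ∑ i ∈ Finset.range (m + 1), c i * (i:ℂ) ^ r * μ ^ i = 0) :
    (X - C μ) ^ k ∣ ∑ i ∈ Finset.range (m + 1), monomial i (c i) := by
  have h1 : ∀ P : ℂ[X], P.natDegree < k →
      ∑ i ∈ Finset.range (m + 1), c i * P.eval (i:ℂ) * μ ^ i = 0 := by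
    intro P hP
    have e1 : ∀ i ∈ Finset.range (m + 1), c i * P.eval (i:ℂ) * μ ^ i =
        ∑ t ∈ Finset.range k, P.coeff t * (c i * (i:ℂ) ^ t * μ ^ i) := by
      intro i _
      rw [eval_eq_sum_range' hP, Finset.mul_sum, Finset.sum_mul]
      apply Finset.sum_congr rfl
      intro t _
      ring
    rw [Finset.sum_congr rfl e1, Finset.sum_comm]
    apply Finset.sum_eq_zero
    intro t ht
    rw [← Finset.mul_sum, h t (Finset.mem_range.1 ht), mul_zero]
  have h2 : ∀ r < k, ∑ i ∈ Finset.range (m + 1), c i * (i.choose r : ℂ) * μ ^ i = 0 := by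
    intro r hr
    have h3 := h1 (descPochhammer ℂ r) (by rw [descPochhammer_natDegree]; exact hr)
    have hf : (r.factorial : ℂ) ≠ 0 := by exact_mod_cast r.factorial_ne_zero
    have h4 : (r.factorial : ℂ) * ∑ i ∈ Finset.range (m + 1), c i * (i.choose r : ℂ) * μ ^ i = 0 := by
      rw [← h3, Finset.mul_sum]
      apply Finset.sum_congr rfl
      intro i _
      rw [descPochhammer_eval_eq_descFactorial, Nat.descFactorial_eq_factorial_mul_choose]
      push_cast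
      ring
    exact (mul_eq_zero.1 h4).resolve_left hf
  rw [X_sub_C_pow_dvd_iff, X_pow_dvd_iff]
  intro d hd
  have h5 : (∑ i ∈ Finset.range (m + 1), monomial i (c i)).comp (X + C μ) =
      taylor μ (∑ i ∈ Finset.range (m + 1), monomial i (c i)) := rfl
  rw [h5, taylor_coeff, map_sum, eval_finsetSum]
  have h6 : μ ^ d * ∑ i ∈ Finset.range (m + 1), eval μ (hasseDeriv d (monomial i (c i))) = 0 := by
    rw [← h2 d hd, Finset.mul_sum]
    apply Finset.sum_congr rfl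
    intro i _
    rw [hasseDeriv_monomial, eval_monomial]
    rcases Nat.lt_or_ge i d with h7 | h7
    · rw [Nat.choose_eq_zero_of_lt h7]
      simp
    · have h8 : μ ^ i = μ ^ d * μ ^ (i - d) := by rw [← pow_add]; congr 1; omega
      rw [h8]
      ring
  exact (mul_eq_zero.1 h6).resolve_left (pow_ne_zero _ hμ)

/-- injectivity of the confluent moment map -/
theorem moments_inj (P m : ℕ) (κ : ℕ → ℕ)
    (hκm : ∑ l ∈ Finset.range (P + 1), κ l = m + 1) (μ : ℕ → ℂ) (hμ0 : ∀ l ≤ P, μ l ≠ 0)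
    (hμ : ∀ l ≤ P, ∀ l' ≤ P, l ≠ l' → μ l ≠ μ l') (c : ℕ → ℂ)
    (h : ∀ l ≤ P, ∀ r < κ l, ∑ i ∈ Finset.range (m + 1), c i * (i:ℂ) ^ r * μ l ^ i = 0) :
    ∀ i ≤ m, c i = 0 := by
  set p : ℂ[X] := ∑ i ∈ Finset.range (m + 1), monomial i (c i) with hp
  have hdvd : ∏ l ∈ Finset.range (P + 1), (X - C (μ l)) ^ κ l ∣ p := by
    apply Finset.prod_dvd_of_coprime
    · intro l hl l' hl' hne
      have hl1 : l ≤ P := by have := Finset.mem_range.1 (Finset.mem_coe.1 hl); omega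
      have hl2 : l' ≤ P := by have := Finset.mem_range.1 (Finset.mem_coe.1 hl'); omega
      apply IsCoprime.pow
      exact isCoprime_X_sub_C_of_isUnit_sub (sub_ne_zero.2 (hμ l hl1 l' hl2 hne)).isUnit
    · intro l hl
      have hl1 : l ≤ P := by have := Finset.mem_range.1 hl; omega
      exact dvd_of_moments m (κ l) c (μ l) (hμ0 l hl1) (h l hl1)
  have hdeg : (∏ l ∈ Finset.range (P + 1), (X - C (μ l)) ^ κ l).natDegree = m + 1 := by
    rw [natDegree_prod _ _ (fun l _ => pow_ne_zero _ (X_sub_C_ne_zero _)), ← hκm]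
    apply Finset.sum_congr rfl
    intro l _
    rw [natDegree_pow, natDegree_X_sub_C, mul_one]
  have hpdeg : p.degree < ((m + 1 : ℕ) : WithBot ℕ) := by
    rw [degree_lt_iff_coeff_zero]
    intro n hn
    rw [hp, finsetSum_coeff]
    apply Finset.sum_eq_zero
    intro i hi
    have := Finset.mem_range.1 hi
    rw [coeff_monomial, if_neg (by omega)]
  have hp0 : p = 0 := by
    by_contra hne
    have h1 := natDegree_le_of_dvd hdvd hne
    rw [hdeg] at h1
    have h2 : p.natDegree < m + 1 := (natDegree_lt_iff_degree_lt hne).2 hpdeg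
    omega
  intro i hi
  have h1 : p.coeff i = c i := by
    rw [hp, finsetSum_coeff, Finset.sum_eq_single i]
    · rw [coeff_monomial, if_pos rfl]
    · intro j _ hj
      rw [coeff_monomial, if_neg hj]
    · intro hni
      exact absurd (Finset.mem_range.2 (by omega)) hni
  rw [← h1, hp0, coeff_zero]

/-- an enumeration of the pairs `(l, r)`, `l ≤ P`, `r < κ l` -/
theorem exists_enum (P m : ℕ) (κ : ℕ → ℕ) (hκm : ∑ l ∈ Finset.range (P + 1), κ l = m + 1) :
    ∃ (lk rk : Fin (m + 1) → ℕ) (idx : ℕ → ℕ → Fin (m + 1)),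
      (∀ k, lk k ≤ P ∧ rk k < κ (lk k) ∧ idx (lk k) (rk k) = k) ∧
      (∀ l ≤ P, ∀ r < κ l, lk (idx l r) = l ∧ rk (idx l r) = r) ∧
      ∀ F : ℕ → ℕ → ℂ, ∑ k, F (lk k) (rk k) =
        ∑ l ∈ Finset.range (P + 1), ∑ r ∈ Finset.range (κ l), F l r := by
  classical
  have hcard : Fintype.card (Σ l : Fin (P + 1), Fin (κ l)) = m + 1 := by
    rw [Fintype.card_sigma]
    simp only [Fintype.card_fin]
    rw [← hκm, Finset.sum_range]
  set e : (Σ l : Fin (P + 1), Fin (κ l)) ≃ Fin (m + 1) := Fintype.equivFinOfCardEq hcard with he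
  refine ⟨fun k => ((e.symm k).1 : ℕ), fun k => ((e.symm k).2 : ℕ),
    fun l r => if h : l < P + 1 then (if h' : r < κ l then e ⟨⟨l, h⟩, ⟨r, h'⟩⟩ else 0) else 0,
    ?_, ?_, ?_⟩
  · intro k
    have h0 : (((e.symm k).1 : Fin (P + 1)) : ℕ) < P + 1 := (e.symm k).1.2
    refine ⟨Nat.lt_succ_iff.1 h0, (e.symm k).2.2, ?_⟩
    dsimp only
    rw [dif_pos (e.symm k).1.2, dif_pos (e.symm k).2.2]
    exact e.apply_symm_apply k
  · intro l hl r hr
    have hl' : l < P + 1 := by omega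
    dsimp only
    rw [dif_pos hl', dif_pos hr, Equiv.symm_apply_apply]
    exact ⟨rfl, rfl⟩
  · intro F
    have e1 : ∑ k, F ((e.symm k).1 : ℕ) ((e.symm k).2 : ℕ) =
        ∑ q : (Σ l : Fin (P + 1), Fin (κ l)), F (q.1 : ℕ) (q.2 : ℕ) :=
      Equiv.sum_comp e.symm (fun q : (Σ l : Fin (P + 1), Fin (κ l)) => F (q.1 : ℕ) (q.2 : ℕ))
    rw [e1, ← Finset.univ_sigma_univ, Finset.sum_sigma, Finset.sum_range]
    apply Finset.sum_congr rfl
    intro l _
    rw [Finset.sum_range]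

/-- lower bound for Hankel forms of confluent exponential sums, with a perturbation -/
theorem hankel_cluster (P m : ℕ) (κ : ℕ → ℕ)
    (hκm : ∑ l ∈ Finset.range (P + 1), κ l = m + 1) (μ : ℕ → ℂ) (hμ0 : ∀ l ≤ P, μ l ≠ 0)
    (hμ : ∀ l ≤ P, ∀ l' ≤ P, l ≠ l' → μ l ≠ μ l') :
    ∃ c₀ : ℝ, 0 < c₀ ∧ ∀ (a : ℕ → ℂ) (Y : ℝ) (x : ℕ → ℂ), 0 < Y → (∀ l ≤ P, Y ≤ ‖x l‖) →
      (∀ s ≤ 2 * m, ‖a s - ∑ l ∈ Finset.range (P + 1), x l * (s:ℂ) ^ (κ l - 1) * μ l ^ s‖ ≤
        c₀ * Y) → (∀ l ≤ P, 1 ≤ κ l) →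
      ∀ (c : ℕ → ℂ) (B : ℝ), (∃ i ≤ m, B ≤ ‖c i‖) →
        ∃ j ≤ m, c₀ * Y * B ≤ ‖∑ i ∈ Finset.range (m + 1), c i * a (j + i)‖ := by
  classical
  obtain ⟨lk, rk, idx, hk1, hk2, hk3⟩ := exists_enum P m κ hκm
  set A : Matrix (Fin (m + 1)) (Fin (m + 1)) ℂ := fun j k =>
    ((j : ℕ) : ℂ) ^ (rk k) * μ (lk k) ^ (j : ℕ) with hA
  -- `vecMul` injective
  have hv : Function.Injective (fun v : Fin (m + 1) → ℂ => Matrix.vecMul v A) := by
    have hlin : (fun v : Fin (m + 1) → ℂ => Matrix.vecMul v A) = Matrix.vecMulLinear A := rfl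
    rw [hlin, ← LinearMap.ker_eq_bot, LinearMap.ker_eq_bot']
    intro v hv
    have hv' : ∀ k, ∑ j, v j * A j k = 0 := by
      intro k
      have := congrFun hv k
      simpa [Matrix.vecMul, dotProduct] using this
    set c : ℕ → ℂ := fun i => if h : i < m + 1 then v ⟨i, h⟩ else 0 with hc
    have h1 : ∀ l ≤ P, ∀ r < κ l, ∑ i ∈ Finset.range (m + 1), c i * (i:ℂ) ^ r * μ l ^ i = 0 := by
      intro l hl r hr
      obtain ⟨hl1, hl2⟩ := hk2 l hl r hr
      have h2 := hv' (idx l r)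
      rw [Finset.sum_range]
      rw [← h2]
      apply Finset.sum_congr rfl
      intro j _
      simp only [hA, hl1, hl2, hc, Fin.is_lt, dif_pos]
      ring
    have h3 := moments_inj P m κ hκm μ hμ0 hμ c h1
    funext j
    have h4 := h3 j (by have := j.2; omega)
    simp only [hc, Fin.is_lt, dif_pos] at h4
    exact h4
  have hunit : IsUnit A := Matrix.vecMul_injective_iff_isUnit.1 hv
  have hmv : Function.Injective A.mulVec := Matrix.mulVec_injective_iff_isUnit.2 hunit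
  obtain ⟨K1, hK1, hK1'⟩ := LinearMap.exists_antilipschitzWith (Matrix.vecMulLinear A)
    (LinearMap.ker_eq_bot.2 hv)
  obtain ⟨K2, hK2, hK2'⟩ := LinearMap.exists_antilipschitzWith (Matrix.mulVecLin A)
    (LinearMap.ker_eq_bot.2 hmv)
  have hb1 : ∀ v : Fin (m + 1) → ℂ, ‖v‖ ≤ K1 * ‖Matrix.vecMul v A‖ := by
    intro v
    have := hK1'.le_mul_dist v 0
    simpa [dist_zero_right] using this
  have hb2 : ∀ v : Fin (m + 1) → ℂ, ‖v‖ ≤ K2 * ‖A.mulVec v‖ := by
    intro v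
    have := hK2'.le_mul_dist v 0
    simpa [dist_zero_right] using this
  have hK1p : (0:ℝ) < K1 := hK1
  have hK2p : (0:ℝ) < K2 := hK2
  refine ⟨1 / ((K1 * K2) * (m + 2)), by positivity, ?_⟩
  intro a Y x hY hx hax hκ1 c B ⟨i0, hi0, hB⟩
  set c₀ : ℝ := 1 / ((K1 * K2) * (m + 2)) with hc₀
  have hc₀p : 0 < c₀ := by positivity
  set v : Fin (m + 1) → ℂ := fun i => c i with hvdef
  have hBv : B ≤ ‖v‖ := hB.trans (norm_le_pi_norm v ⟨i0, by omega⟩)
  have hv0 : 0 ≤ ‖v‖ := norm_nonneg _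
  -- the coefficient vector
  set rev : Fin (m + 1) → Fin (m + 1) := fun k => idx (lk k) (κ (lk k) - 1 - rk k) with hrev
  have hrev1 : ∀ k, lk (rev k) = lk k ∧ rk (rev k) = κ (lk k) - 1 - rk k := by
    intro k
    obtain ⟨h1, h2, _⟩ := hk1 k
    exact hk2 (lk k) h1 (κ (lk k) - 1 - rk k) (by omega)
  have hrr : ∀ k, rev (rev k) = k := by
    intro k
    obtain ⟨h1, h2, h3⟩ := hk1 k
    obtain ⟨h4, h5⟩ := hrev1 k
    have h6 : rev (rev k) = idx (lk (rev k)) (κ (lk (rev k)) - 1 - rk (rev k)) := rfl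
    rw [h6, h4, h5]
    have h7 : κ (lk k) - 1 - (κ (lk k) - 1 - rk k) = rk k := by omega
    rw [h7, h3]
  set y : Fin (m + 1) → ℂ := fun k => x (lk k) * ((κ (lk k) - 1).choose (rk k) : ℂ) *
    Matrix.vecMul v A (rev k) with hy
  have hyb : Y * ‖Matrix.vecMul v A‖ ≤ ‖y‖ := by
    rw [← le_div_iff₀' hY]
    rw [pi_norm_le_iff_of_nonneg (by positivity)]
    intro k
    rw [le_div_iff₀' hY]
    have h1 : ‖y (rev k)‖ ≤ ‖y‖ := norm_le_pi_norm y (rev k)
    refine le_trans ?_ h1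
    simp only [hy]
    rw [hrr, norm_mul, norm_mul]
    obtain ⟨h6, h7⟩ := hrev1 k
    obtain ⟨h8, h9, _⟩ := hk1 k
    rw [h6, h7]
    have h2 : Y ≤ ‖x (lk k)‖ := hx _ h8
    have h3 : (1:ℝ) ≤ ‖((κ (lk k) - 1).choose (κ (lk k) - 1 - rk k) : ℂ)‖ := by
      rw [Complex.norm_natCast]
      have h4 : 0 < (κ (lk k) - 1).choose (κ (lk k) - 1 - rk k) := by
        apply Nat.choose_pos
        omega
      exact_mod_cast h4
    have h4 := norm_nonneg (Matrix.vecMul v A k)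
    calc Y * ‖Matrix.vecMul v A k‖ = Y * 1 * ‖Matrix.vecMul v A k‖ := by ring
      _ ≤ _ := by
        apply mul_le_mul_of_nonneg_right _ h4
        exact mul_le_mul h2 h3 zero_le_one (hY.le.trans h2)
  -- identity
  have hT : ∀ j : Fin (m + 1), A.mulVec y j = ∑ i ∈ Finset.range (m + 1), c i *
      ∑ l ∈ Finset.range (P + 1), x l * ((((j:ℕ) + i : ℕ)) : ℂ) ^ (κ l - 1) *
        μ l ^ ((j : ℕ) + i) := by
    intro j
    set F : ℕ → ℕ → ℂ := fun l r => ((j:ℕ):ℂ) ^ r * μ l ^ (j:ℕ) * (x l *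
      ((κ l - 1).choose r : ℂ) *
        ∑ i ∈ Finset.range (m + 1), c i * ((i:ℂ) ^ (κ l - 1 - r) * μ l ^ i)) with hF
    have e1 : A.mulVec y j = ∑ k, F (lk k) (rk k) := by
      rw [Matrix.mulVec, dotProduct]
      apply Finset.sum_congr rfl
      intro k _
      obtain ⟨h6, h7⟩ := hrev1 k
      simp only [hA, hy, hF, Matrix.vecMul, dotProduct, h6, h7, hvdef]
      rw [Finset.sum_range]
    rw [e1, hk3 F]
    simp only [Finset.mul_sum]
    rw [Finset.sum_comm]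
    apply Finset.sum_congr rfl
    intro l hl
    have hlP : l ≤ P := by have := Finset.mem_range.1 hl; omega
    simp only [hF, Finset.mul_sum]
    rw [Finset.sum_comm]
    apply Finset.sum_congr rfl
    intro i _
    have e3 : ∑ r ∈ Finset.range (κ l), (((j:ℕ):ℂ) ^ r * (i:ℂ) ^ (κ l - 1 - r) *
        ((κ l - 1).choose r : ℂ)) = ((((j:ℕ) + i : ℕ)) : ℂ) ^ (κ l - 1) := by
      have h1 := hκ1 l hlP
      push_cast
      rw [add_pow, Nat.sub_add_cancel h1]
    rw [← e3, Finset.mul_sum, Finset.sum_mul, Finset.mul_sum]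
    apply Finset.sum_congr rfl
    intro r _
    rw [pow_add]
    ring
  obtain ⟨j, hj⟩ : ∃ j : Fin (m + 1), ‖A.mulVec y‖ ≤ ‖A.mulVec y j‖ := by
    obtain ⟨j, _, hj⟩ := Finset.exists_max_image Finset.univ (fun j => ‖A.mulVec y j‖)
      Finset.univ_nonempty
    refine ⟨j, ?_⟩
    rw [pi_norm_le_iff_of_nonneg (norm_nonneg _)]
    intro i
    exact hj i (Finset.mem_univ _)
  refine ⟨j, by have := j.2; omega, ?_⟩
  have h1 : Y * ‖v‖ ≤ K1 * K2 * ‖A.mulVec y j‖ := by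
    calc Y * ‖v‖ ≤ Y * (K1 * ‖Matrix.vecMul v A‖) := mul_le_mul_of_nonneg_left (hb1 v) hY.le
      _ = K1 * (Y * ‖Matrix.vecMul v A‖) := by ring
      _ ≤ K1 * ‖y‖ := mul_le_mul_of_nonneg_left hyb hK1p.le
      _ ≤ K1 * (K2 * ‖A.mulVec y‖) := mul_le_mul_of_nonneg_left (hb2 y) hK1p.le
      _ ≤ K1 * (K2 * ‖A.mulVec y j‖) :=
          mul_le_mul_of_nonneg_left (mul_le_mul_of_nonneg_left hj hK2p.le) hK1p.le
      _ = _ := by ring
  have h2 : ‖∑ i ∈ Finset.range (m + 1), c i * a (j + i) - A.mulVec y j‖ ≤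
      (m + 1) * (‖v‖ * (c₀ * Y)) := by
    rw [hT j, ← Finset.sum_sub_distrib]
    calc _ ≤ ∑ i ∈ Finset.range (m + 1), ‖c i * a (j + i) - c i *
      ∑ l ∈ Finset.range (P + 1), x l * ((((j:ℕ) + i : ℕ)) : ℂ) ^ (κ l - 1) *
        μ l ^ ((j : ℕ) + i)‖ := norm_sum_le _ _
      _ ≤ ∑ i ∈ Finset.range (m + 1), ‖v‖ * (c₀ * Y) := by
          apply Finset.sum_le_sum
          intro i hi
          have hi' := Finset.mem_range.1 hi
          rw [← mul_sub, norm_mul]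
          apply mul_le_mul (norm_le_pi_norm v ⟨i, hi'⟩)
            (hax (j + i) (by have := j.2; omega)) (norm_nonneg _) hv0
      _ = _ := by
          rw [Finset.sum_const, Finset.card_range, nsmul_eq_mul]
          push_cast
          ring
  have h3 : ‖A.mulVec y j‖ ≤ ‖∑ i ∈ Finset.range (m + 1), c i * a (j + i)‖ +
      (m + 1) * (‖v‖ * (c₀ * Y)) := by
    have h4 := norm_sub_norm_le (A.mulVec y j) (∑ i ∈ Finset.range (m + 1), c i * a (j + i))
    rw [norm_sub_rev] at h4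
    linarith
  have h5 : (m + 2) * (c₀ * Y * ‖v‖) ≤ ‖A.mulVec y j‖ := by
    have h6 : (m + 2 : ℝ) * (c₀ * Y * ‖v‖) = Y * ‖v‖ / (K1 * K2) := by
      rw [hc₀]; field_simp
    rw [h6, div_le_iff₀ (by positivity)]
    linarith
  have h7 : c₀ * Y * B ≤ c₀ * Y * ‖v‖ := mul_le_mul_of_nonneg_left hBv (by positivity)
  nlinarith

end Pool.Agent.H195.ML
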