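import Mathlib
import Pool.Graph.R_seed8.Helper772.MV.Kern

open MeasureTheory Metric Set
open scoped ENNReal Real

namespace Pool.Agent.H195.ML

open MeanVal

/-- kernel with a flat stretch of coefficients and decay of order `a + 1` -/
noncomputable def kernA (a L : ℕ) (z : ℂ) : ℂ :=
  DL L z ^ a * DL ((a + 1) * L) z / (L : ℂ) ^ (a + 1)

open Polynomial in
theorem kernA_coeff (a L : ℕ) (hL : 1 ≤ L) : ∃ κ : ℕ → ℂ,
    (∀ z : ℂ, kernA a L z = ∑ s ∈ Finset.range ((2 * a + 1) * L), κ s * z ^ s) ∧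
    ∀ s : ℕ, a * L ≤ s → s + 1 ≤ (a + 1) * L → κ s = 1 / (L : ℂ) := by
  obtain ⟨D, hD⟩ : ∃ D : ℕ → ℂ[X], ∀ n, D n = ∑ j ∈ Finset.range n, X ^ j := ⟨_, fun _ => rfl⟩
  have hDe : ∀ n z, (D n).eval z = DL n z := by
    intro n z
    rw [hD, eval_finsetSum, DL]
    simp
  have hDc : ∀ n i, i < n → (D n).coeff i = 1 := by
    intro n i hi
    rw [hD, finsetSum_coeff]
    simp only [coeff_X_pow]
    rw [Finset.sum_ite_eq, if_pos (Finset.mem_range.mpr hi)]
  have hDd : ∀ n, (D n).natDegree ≤ n - 1 := by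
    intro n
    rw [hD]
    refine natDegree_sum_le_of_forall_le _ _ fun i hi => ?_
    rw [Finset.mem_range] at hi
    exact (natDegree_X_pow_le _).trans (by omega)
  have hL0 : (L : ℂ) ≠ 0 := by exact_mod_cast (by omega : L ≠ 0)
  have hpd : ((D L) ^ a).natDegree ≤ a * (L - 1) :=
    (natDegree_pow_le (p := D L) (n := a)).trans (Nat.mul_le_mul_left _ (hDd L))
  have haL : a * (L - 1) + a = a * L := by
    obtain ⟨L', rfl⟩ : ∃ L', L = L' + 1 := ⟨L - 1, by omega⟩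
    simp
    ring
  refine ⟨fun s => ((D L) ^ a * D ((a + 1) * L)).coeff s / (L : ℂ) ^ (a + 1), ?_, ?_⟩
  · intro z
    have h1 : ((D L) ^ a * D ((a + 1) * L)).natDegree < (2 * a + 1) * L := by
      have e1 := natDegree_mul_le (p := (D L) ^ a) (q := D ((a + 1) * L))
      have e3 := hDd ((a + 1) * L)
      have e4 : 1 ≤ (a + 1) * L := Nat.mul_pos (by omega) hL
      have e5 : (2 * a + 1) * L = a * L + (a + 1) * L := by ring
      omega
    have h2 := eval_eq_sum_range' h1 z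
    rw [eval_mul, eval_pow, hDe, hDe] at h2
    rw [kernA, h2, Finset.sum_div]
    refine Finset.sum_congr rfl fun i _ => ?_
    ring
  · intro s hs1 hs2
    have h1 : ((D L) ^ a * D ((a + 1) * L)).coeff s = (L : ℂ) ^ a := by
      rw [coeff_mul, Finset.Nat.sum_antidiagonal_eq_sum_range_succ_mk]
      have h2 : ∀ k ∈ Finset.range s.succ, ((D L) ^ a).coeff k * (D ((a + 1) * L)).coeff (s - k) =
          ((D L) ^ a).coeff k * 1 ^ k := by
        intro k hk
        rw [Finset.mem_range] at hk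
        rw [hDc _ _ (by omega), one_pow]
      rw [Finset.sum_congr rfl h2]
      have h3 : ((D L) ^ a).natDegree < s.succ := by omega
      rw [← eval_eq_sum_range' h3, eval_pow, hDe]
      simp [DL]
    simp only [h1]
    rw [pow_succ]
    field_simp

theorem kernA_diff (a L : ℕ) : Differentiable ℂ (kernA a L) := by
  have h : ∀ N : ℕ, Differentiable ℂ (DL N) := by
    intro N
    unfold DL
    exact Differentiable.fun_sum fun j _ => differentiable_id.pow j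
  unfold kernA
  exact (((h L).pow a).mul (h ((a + 1) * L))).div_const _

theorem kernA_bound (a L : ℕ) (hL : 1 ≤ L) (z : ℂ) (hz : ‖z‖ ≤ 1) :
    ‖kernA a L z‖ ≤ a + 1 ∧ ‖kernA a L z‖ * ((L : ℝ) * ‖1 - z‖) ^ (a + 1) ≤ 2 ^ (a + 1) := by
  have hL0 : (0 : ℝ) < L := by exact_mod_cast hL
  have a1 := Kern.DL_le L z hz
  have a2 := Kern.DL_le ((a + 1) * L) z hz
  have b1 := Kern.DL_x L z hz
  have b2 := Kern.DL_x ((a + 1) * L) z hz
  push_cast at a2
  have e : ‖kernA a L z‖ = ‖DL L z‖ ^ a * ‖DL ((a + 1) * L) z‖ / (L : ℝ) ^ (a + 1) := by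
    rw [kernA, norm_div, norm_mul, norm_pow, norm_pow, Complex.norm_natCast]
  constructor
  · rw [e, div_le_iff₀ (by positivity)]
    calc ‖DL L z‖ ^ a * ‖DL ((a + 1) * L) z‖ ≤ (L : ℝ) ^ a * ((a + 1) * L) :=
          mul_le_mul (pow_le_pow_left₀ (norm_nonneg _) a1 a) a2 (norm_nonneg _) (by positivity)
      _ = (a + 1) * (L : ℝ) ^ (a + 1) := by ring
  · rw [e]
    calc ‖DL L z‖ ^ a * ‖DL ((a + 1) * L) z‖ / (L : ℝ) ^ (a + 1) *
          ((L : ℝ) * ‖1 - z‖) ^ (a + 1) =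
        (‖1 - z‖ * ‖DL L z‖) ^ a * (‖1 - z‖ * ‖DL ((a + 1) * L) z‖) := by
          rw [mul_pow, pow_succ ‖1 - z‖, mul_pow]
          field_simp
      _ ≤ 2 ^ a * 2 := mul_le_mul (pow_le_pow_left₀ (by positivity) b1 a) b2 (by positivity)
          (by positivity)
      _ = 2 ^ (a + 1) := by ring

lemma kernA_hasDeriv (a L : ℕ) (z : ℂ) : HasDerivAt (kernA a L)
    (((a : ℂ) * DL L z ^ (a - 1) * Kern.DD L z * DL ((a + 1) * L) z +
      DL L z ^ a * Kern.DD ((a + 1) * L) z) / (L : ℂ) ^ (a + 1)) z := by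
  have h := (((Kern.DL_hasDeriv L z).fun_pow a).fun_mul
    (Kern.DL_hasDeriv ((a + 1) * L) z)).div_const ((L : ℂ) ^ (a + 1))
  exact h

theorem kernA_deriv_bound (a L : ℕ) (hL : 1 ≤ L) (z : ℂ) (hz : ‖z‖ ≤ 1) :
    ‖deriv (kernA a L) z‖ ≤ (a + 1) * (2 * a + 1) * L ∧
      ‖deriv (kernA a L) z‖ * ((L : ℝ) * ‖1 - z‖) ^ (a + 1) ≤ 2 ^ (a + 1) * (2 * a + 1) * L := by
  have hL0 : (0 : ℝ) < L := by exact_mod_cast hL
  have a1 := Kern.DL_le L z hz
  have a2 := Kern.DL_le ((a + 1) * L) z hz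
  have b1 := Kern.DL_x L z hz
  have b2 := Kern.DL_x ((a + 1) * L) z hz
  have c1 := Kern.DD_le L z hz
  have c2 := Kern.DD_le ((a + 1) * L) z hz
  have d1 := Kern.DD_x L z hz
  have d2 := Kern.DD_x ((a + 1) * L) z hz
  push_cast at a2 c2 d2
  have e : ‖deriv (kernA a L) z‖ ≤ (a * ‖DL L z‖ ^ (a - 1) * ‖Kern.DD L z‖ *
      ‖DL ((a + 1) * L) z‖ + ‖DL L z‖ ^ a * ‖Kern.DD ((a + 1) * L) z‖) / (L : ℝ) ^ (a + 1) := by
    rw [(kernA_hasDeriv a L z).deriv, norm_div, norm_pow, Complex.norm_natCast]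
    refine div_le_div_of_nonneg_right ((norm_add_le _ _).trans ?_) (by positivity)
    simp only [norm_mul, norm_pow, Complex.norm_natCast]
    exact le_rfl
  have x0 : 0 ≤ ‖1 - z‖ := norm_nonneg _
  have p1 : 0 ≤ ‖DL L z‖ := norm_nonneg _
  have p2 : 0 ≤ ‖DL ((a + 1) * L) z‖ := norm_nonneg _
  have p3 : 0 ≤ ‖Kern.DD L z‖ := norm_nonneg _
  have p4 : 0 ≤ ‖Kern.DD ((a + 1) * L) z‖ := norm_nonneg _
  generalize ‖DL L z‖ = u1 at *
  generalize ‖DL ((a + 1) * L) z‖ = u2 at *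
  generalize ‖Kern.DD L z‖ = v1 at *
  generalize ‖Kern.DD ((a + 1) * L) z‖ = v2 at *
  generalize ‖1 - z‖ = x at *
  have ha0 : (0:ℝ) ≤ a := Nat.cast_nonneg a
  constructor
  · refine e.trans ?_
    rw [div_le_iff₀ (by positivity)]
    have t1 : a * u1 ^ (a - 1) * v1 * u2 ≤ a * (L : ℝ) ^ (a - 1) * (L : ℝ) ^ 2 * ((a + 1) * L) := by
      refine mul_le_mul (mul_le_mul (mul_le_mul_of_nonneg_left
        (pow_le_pow_left₀ p1 a1 _) ha0) c1 p3 (by positivity)) a2 p2 (by positivity)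
    have t2 : u1 ^ a * v2 ≤ (L : ℝ) ^ a * ((a + 1) * L) ^ 2 :=
      mul_le_mul (pow_le_pow_left₀ p1 a1 a) c2 p4 (by positivity)
    have t3 : a * (L : ℝ) ^ (a - 1) * (L : ℝ) ^ 2 * ((a + 1) * L) =
        a * (a + 1) * L * (L : ℝ) ^ (a + 1) := by
      rcases Nat.eq_zero_or_pos a with h | h
      · subst h; simp
      · obtain ⟨b, rfl⟩ : ∃ b, a = b + 1 := ⟨a - 1, by omega⟩
        rw [Nat.add_sub_cancel]
        push_cast
        ring
    calc _ ≤ a * (a + 1) * L * (L : ℝ) ^ (a + 1) + (L : ℝ) ^ a * ((a + 1) * L) ^ 2 := by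
          rw [← t3]; exact add_le_add t1 t2
      _ = _ := by ring
  · calc ‖deriv (kernA a L) z‖ * ((L : ℝ) * x) ^ (a + 1) ≤
        (a * u1 ^ (a - 1) * v1 * u2 + u1 ^ a * v2) / (L : ℝ) ^ (a + 1) * ((L : ℝ) * x) ^ (a + 1) :=
          mul_le_mul_of_nonneg_right e (by positivity)
      _ = a * (x * u1) ^ (a - 1) * (x * v1) * (x * u2) + (x * u1) ^ a * (x * v2) := by
          rw [mul_pow (L:ℝ) x]
          rcases Nat.eq_zero_or_pos a with h | h
          · subst h; simp; field_simp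
          · obtain ⟨b, rfl⟩ : ∃ b, a = b + 1 := ⟨a - 1, by omega⟩
            rw [Nat.add_sub_cancel]
            simp only [mul_pow, pow_succ]
            field_simp
      _ ≤ a * 2 ^ (a - 1) * (2 * L) * 2 + 2 ^ a * (2 * ((a + 1) * L)) := by
          refine add_le_add ?_ ?_
          · exact mul_le_mul (mul_le_mul (mul_le_mul_of_nonneg_left
              (pow_le_pow_left₀ (by positivity) b1 _) ha0) d1 (by positivity) (by positivity)) b2
              (by positivity) (by positivity)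
          · exact mul_le_mul (pow_le_pow_left₀ (by positivity) b1 a) d2 (by positivity)
              (by positivity)
      _ = 2 ^ (a + 1) * (2 * a + 1) * L := by
          rcases Nat.eq_zero_or_pos a with h | h
          · subst h; simp
          · obtain ⟨b, rfl⟩ : ∃ b, a = b + 1 := ⟨a - 1, by omega⟩
            rw [Nat.add_sub_cancel]
            push_cast
            ring

lemma pow_le_aux (a : ℕ) (y b c d : ℝ) (hy : 0 ≤ y) (hb : 0 ≤ b) (h1 : b ≤ c)
    (h2 : b * y ^ (a + 1) ≤ d) : b * (1 + y) ^ (a + 1) ≤ 2 ^ (a + 1) * (c + d) := by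
  have hd : 0 ≤ d := le_trans (by positivity) h2
  rcases le_total y 1 with h | h
  · have h3 : (1 + y) ^ (a + 1) ≤ 2 ^ (a + 1) := pow_le_pow_left₀ (by linarith) (by linarith) _
    calc b * (1 + y) ^ (a + 1) ≤ c * 2 ^ (a + 1) :=
          mul_le_mul h1 h3 (by positivity) (hb.trans h1)
      _ ≤ 2 ^ (a + 1) * (c + d) := by
          rw [mul_comm]
          exact mul_le_mul_of_nonneg_left (by linarith) (by positivity)
  · have h3 : (1 + y) ^ (a + 1) ≤ (2 * y) ^ (a + 1) :=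
      pow_le_pow_left₀ (by linarith) (by linarith) _
    calc b * (1 + y) ^ (a + 1) ≤ b * (2 * y) ^ (a + 1) := mul_le_mul_of_nonneg_left h3 hb
      _ = 2 ^ (a + 1) * (b * y ^ (a + 1)) := by rw [mul_pow]; ring
      _ ≤ 2 ^ (a + 1) * (c + d) :=
          mul_le_mul_of_nonneg_left (by linarith [hb.trans h1]) (by positivity)

/-- constant in the derivative bound -/
noncomputable def CG (a : ℕ) : ℝ :=
  2 ^ (a + 1) * ((a + 1) * (2 * a + 1) + 2 ^ (a + 1) * (2 * a + 1))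

lemma CG_pos (a : ℕ) : 0 < CG a := by unfold CG; positivity

lemma G_boundA (a L M : ℕ) (c z : ℂ) (hL : 1 ≤ L) (hM : 1 ≤ M) (hc : ‖c‖ = 1) (hz : ‖z‖ < 1) :
    ‖deriv (fun w : ℂ => w ^ M * kernA a L (c * w)) z‖ *
      (1 + (L : ℝ) * ‖1 - c * z‖) ^ (a + 1) ≤ CG a * (M + L) * ‖z‖ ^ (M - 1) := by
  have hL0 : (0 : ℝ) < L := by exact_mod_cast hL
  have hcz : ‖c * z‖ ≤ 1 := by rw [norm_mul, hc, one_mul]; exact hz.le
  have hd1 : HasDerivAt (fun w : ℂ => kernA a L (c * w)) (deriv (kernA a L) (c * z) * c) z := by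
    have h1 : HasDerivAt (kernA a L) (deriv (kernA a L) (c * z)) (c * z) :=
      (kernA_hasDeriv a L (c * z)).differentiableAt.hasDerivAt
    have h2 : HasDerivAt (fun w : ℂ => c * w) c z := by
      simpa using (hasDerivAt_id z).const_mul c
    exact h1.comp z h2
  have hd := ((hasDerivAt_pow M z).fun_mul hd1).deriv
  rw [hd]
  obtain ⟨k1, k2⟩ := kernA_bound a L hL (c * z) hcz
  obtain ⟨k3, k4⟩ := kernA_deriv_bound a L hL (c * z) hcz
  have y0 : 0 ≤ (L : ℝ) * ‖1 - c * z‖ := by positivity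
  have q1 := pow_le_aux a _ _ _ _ y0 (norm_nonneg _) k1 k2
  have q2 := pow_le_aux a _ _ _ _ y0 (norm_nonneg _) k3 k4
  have n1 : ‖(M : ℂ) * z ^ (M - 1) * kernA a L (c * z) + z ^ M * (deriv (kernA a L) (c * z) * c)‖ ≤
      ‖z‖ ^ (M - 1) * (M * ‖kernA a L (c * z)‖ + ‖deriv (kernA a L) (c * z)‖) := by
    refine (norm_add_le _ _).trans ?_
    simp only [norm_mul, norm_pow, Complex.norm_natCast, hc, mul_one]
    have : ‖z‖ ^ M ≤ ‖z‖ ^ (M - 1) := pow_le_pow_of_le_one (norm_nonneg _) hz.le (by omega)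
    have h5 : ‖z‖ ^ M * ‖deriv (kernA a L) (c * z)‖ ≤
        ‖z‖ ^ (M - 1) * ‖deriv (kernA a L) (c * z)‖ :=
      mul_le_mul_of_nonneg_right this (norm_nonneg _)
    nlinarith
  have hM0 : (0 : ℝ) ≤ M := Nat.cast_nonneg _
  have ha0 : (0:ℝ) ≤ a := Nat.cast_nonneg a
  set Y := (1 + (L : ℝ) * ‖1 - c * z‖) ^ (a + 1) with hY
  have hY0 : 0 ≤ Y := by positivity
  calc _ ≤ ‖z‖ ^ (M - 1) * (M * ‖kernA a L (c * z)‖ + ‖deriv (kernA a L) (c * z)‖) * Y :=
        mul_le_mul_of_nonneg_right n1 hY0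
    _ = ‖z‖ ^ (M - 1) * (M * (‖kernA a L (c * z)‖ * Y) + ‖deriv (kernA a L) (c * z)‖ * Y) := by ring
    _ ≤ ‖z‖ ^ (M - 1) * (M * (2 ^ (a + 1) * ((a + 1) + 2 ^ (a + 1))) +
          2 ^ (a + 1) * ((a + 1) * (2 * a + 1) * L + 2 ^ (a + 1) * (2 * a + 1) * L)) := by
        refine mul_le_mul_of_nonneg_left (add_le_add (mul_le_mul_of_nonneg_left q1 hM0) q2)
          (by positivity)
    _ ≤ ‖z‖ ^ (M - 1) * (CG a * (M + L)) := by
        refine mul_le_mul_of_nonneg_left ?_ (by positivity)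
        unfold CG
        have e1 : ((a:ℝ) + 1) + 2 ^ (a + 1) ≤ (a + 1) * (2 * a + 1) + 2 ^ (a + 1) * (2 * a + 1) := by
          have h6 : (0:ℝ) < 2 ^ (a + 1) := by positivity
          nlinarith [mul_nonneg ha0 ha0, mul_nonneg ha0 h6.le]
        have e2 : (M:ℝ) * (2 ^ (a + 1) * ((a + 1) + 2 ^ (a + 1))) ≤
            M * (2 ^ (a + 1) * ((a + 1) * (2 * a + 1) + 2 ^ (a + 1) * (2 * a + 1))) :=
          mul_le_mul_of_nonneg_left (mul_le_mul_of_nonneg_left e1 (by positivity)) hM0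
        linarith
    _ = CG a * (M + L) * ‖z‖ ^ (M - 1) := by ring

theorem kernA_energy (a : ℕ) (L M : ℕ) (c : ℂ) (Λ : ℝ) (hL : 1 ≤ L) (hM : 1 ≤ M) (hc : ‖c‖ = 1)
    (hΛ : 0 ≤ Λ) :
    ∫⁻ z in {z : ℂ | ‖z‖ < 1 ∧ Λ < (L : ℝ) * ‖1 - c * z‖},
      ENNReal.ofReal (‖deriv (fun w : ℂ => w ^ M * kernA a L (c * w)) z‖ ^ 2)
      ≤ ENNReal.ofReal (CG a ^ 2 * (π ^ 2 / 2) * ((M : ℝ) + L) ^ 2 / (M * L) *
        (1 / (1 + Λ) ^ (2 * a))) := by
  have hL0 : (0 : ℝ) < L := by exact_mod_cast hL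
  have hM0 : (0 : ℝ) < M := by exact_mod_cast hM
  have hCG := CG_pos a
  have hmeas : MeasurableSet {z : ℂ | ‖z‖ < 1 ∧ Λ < (L : ℝ) * ‖1 - c * z‖} := by
    apply IsOpen.measurableSet
    refine IsOpen.inter ?_ ?_
    · exact isOpen_lt continuous_norm continuous_const
    · exact isOpen_lt continuous_const
        (continuous_const.mul ((continuous_const.sub (continuous_const.mul continuous_id)).norm))
  set K : ℝ := CG a ^ 2 * ((M : ℝ) + L) ^ 2 * (1 / (1 + Λ) ^ (2 * a)) with hK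
  have hK0 : 0 ≤ K := by positivity
  calc _ ≤ ∫⁻ z in {z : ℂ | ‖z‖ < 1 ∧ Λ < (L : ℝ) * ‖1 - c * z‖},
        ENNReal.ofReal K * ENNReal.ofReal (Kern.wt L M (c * z)) := by
        refine setLIntegral_mono' hmeas fun z hz => ?_
        rw [← ENNReal.ofReal_mul hK0]
        refine ENNReal.ofReal_le_ofReal ?_
        obtain ⟨hz1, hz2⟩ := hz
        have g := G_boundA a L M c z hL hM hc hz1
        set y := (L : ℝ) * ‖1 - c * z‖ with hy
        set n := ‖deriv (fun w : ℂ => w ^ M * kernA a L (c * w)) z‖ with hn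
        have hn0 : 0 ≤ n := norm_nonneg _
        have hy0 : 0 ≤ y := by positivity
        have e1 : Kern.wt L M (c * z) = ‖z‖ ^ (2 * M - 2) * ((1 + y) ^ 2)⁻¹ := by
          unfold Kern.wt; rw [norm_mul, hc, one_mul]
        have e2 : ‖z‖ ^ (2 * M - 2) = (‖z‖ ^ (M - 1)) ^ 2 := by
          rw [← pow_mul]; congr 1; omega
        rw [e1, e2]
        have g2 : n ≤ CG a * (M + L) * ‖z‖ ^ (M - 1) / (1 + y) ^ (a + 1) := by
          rw [le_div_iff₀ (by positivity)]; exact g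
        calc n ^ 2 ≤ (CG a * (M + L) * ‖z‖ ^ (M - 1) / (1 + y) ^ (a + 1)) ^ 2 :=
              pow_le_pow_left₀ hn0 g2 2
          _ = CG a ^ 2 * (M + L) ^ 2 * (1 / (1 + y) ^ (2 * a)) * ((‖z‖ ^ (M - 1)) ^ 2 *
                ((1 + y) ^ 2)⁻¹) := by
              have e3 : ((1 + y) ^ (a + 1)) ^ 2 = (1 + y) ^ (2 * a) * (1 + y) ^ 2 := by
                rw [← pow_mul, ← pow_add]; congr 1; ring
              rw [div_pow, e3]
              field_simp
          _ ≤ K * ((‖z‖ ^ (M - 1)) ^ 2 * ((1 + y) ^ 2)⁻¹) := by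
              refine mul_le_mul_of_nonneg_right ?_ (by positivity)
              rw [hK]
              refine mul_le_mul_of_nonneg_left ?_ (by positivity)
              refine one_div_le_one_div_of_le (by positivity) ?_
              exact pow_le_pow_left₀ (by positivity) (by linarith) _
    _ = ENNReal.ofReal K * ∫⁻ z in {z : ℂ | ‖z‖ < 1 ∧ Λ < (L : ℝ) * ‖1 - c * z‖},
          ENNReal.ofReal (Kern.wt L M (c * z)) :=
        lintegral_const_mul' _ _ ENNReal.ofReal_ne_top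
    _ ≤ ENNReal.ofReal K * ∫⁻ z in ball (0 : ℂ) 1,
          ENNReal.ofReal (Kern.wt L M (c * z)) := by
        refine mul_le_mul_right (lintegral_mono_set ?_) _
        intro z hz
        rw [mem_ball_zero_iff]; exact hz.1
    _ ≤ ENNReal.ofReal K * ENNReal.ofReal (π ^ 2 / (2 * M * L)) :=
        mul_le_mul_right (Kern.wt_rot L M hL hM _ hc) _
    _ = _ := by
        rw [← ENNReal.ofReal_mul hK0]
        congr 1
        rw [hK]
        field_simp

end Pool.Agent.H195.ML
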