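import Mathlib
import Pool.Agent.H195.ML.KernA

open MeasureTheory Metric Set
open scoped ENNReal Real

namespace Pool.Agent.H195.ML

open MeanVal

/-- the oscillating term: pointwise and energy bounds relative to a carrier -/
theorem osc_termA (a : ℕ) (T : ℝ) (hT : 0 < T) (hTa : 2 * T ≤ a) : ∃ C : ℝ, 0 < C ∧
    ∀ (car : ℂ → ℂ) (L M : ℕ) (c A : ℂ) (Y E : ℝ),
    1 ≤ L → L ≤ M → ‖c‖ = 1 → ‖A‖ ≤ Y → 0 < E →
    (∀ z ∈ ball (0:ℂ) 1, E * (1 + (L : ℝ) * ‖1 - c * z‖) ^ (-(2 * T)) ≤ ‖car z‖) →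
    (∀ z ∈ ball (0:ℂ) 1, ‖A * z ^ M * kernA a L (c * z)‖ ≤ C * (Y / E) * ‖car z‖) ∧
    (∀ R : ℝ, 0 < R → ∫⁻ z in {z : ℂ | z ∈ ball (0:ℂ) 1 ∧ ‖car z‖ < R},
      ENNReal.ofReal (‖deriv (fun z => A * z ^ M * kernA a L (c * z)) z‖ ^ 2)
      ≤ ENNReal.ofReal (C * (Y ^ 2 * M / (L * E ^ 2)) * R ^ 2)) := by
  set C0 : ℝ := CG a ^ 2 * (π ^ 2 / 2) with hC0def
  have hCG := CG_pos a
  have hC0 : 0 < C0 := by positivity
  set K1 : ℝ := 2 ^ (a + 1) * ((a + 1) + 2 ^ (a + 1)) with hK1def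
  have hK1 : 0 < K1 := by positivity
  refine ⟨K1 + 4 * C0, by positivity, ?_⟩
  intro car L M c A Y E hL hLM hc hAY hE hcar
  have hLR : (1 : ℝ) ≤ L := by exact_mod_cast hL
  have hLMR : (L : ℝ) ≤ M := by exact_mod_cast hLM
  have hMR : (1 : ℝ) ≤ M := hLR.trans hLMR
  have hY0 : 0 ≤ Y := (norm_nonneg A).trans hAY
  constructor
  · intro z hz
    obtain ⟨x, hx⟩ : ∃ x : ℝ, x = (L : ℝ) * ‖1 - c * z‖ := ⟨_, rfl⟩
    have hx0 : 0 ≤ x := by rw [hx]; positivity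
    have hz1 : ‖z‖ < 1 := by simpa using hz
    have hzz : ‖c * z‖ ≤ 1 := by
      rw [norm_mul, hc, one_mul]
      exact hz1.le
    obtain ⟨k1, k2⟩ := kernA_bound a L hL _ hzz
    have h1 := hcar z hz
    rw [← hx] at h1 k2
    obtain ⟨κ, hκ⟩ : ∃ κ : ℝ, κ = ‖kernA a L (c * z)‖ := ⟨_, rfl⟩
    have hκ0 : 0 ≤ κ := by rw [hκ]; exact norm_nonneg _
    rw [← hκ] at k1 k2
    have h2 : κ * (1 + x) ^ (a + 1) ≤ K1 := pow_le_aux a _ _ _ _ hx0 hκ0 k1 k2
    have h4 : (1 + x) ^ (2 * T) ≤ (1 + x) ^ (a + 1) := by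
      rw [← Real.rpow_natCast]
      apply Real.rpow_le_rpow_of_exponent_le (by linarith)
      push_cast
      linarith
    have hpos : 0 < (1 + x) ^ (2 * T) := Real.rpow_pos_of_pos (by linarith) _
    have h5 : κ * (1 + x) ^ (2 * T) ≤ K1 := (mul_le_mul_of_nonneg_left h4 hκ0).trans h2
    have h6 : E ≤ ‖car z‖ * (1 + x) ^ (2 * T) := by
      rw [Real.rpow_neg (by linarith), ← div_eq_mul_inv, div_le_iff₀ hpos] at h1
      exact h1
    have h7 : κ * E ≤ K1 * ‖car z‖ := by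
      calc κ * E ≤ κ * (‖car z‖ * (1 + x) ^ (2 * T)) := mul_le_mul_of_nonneg_left h6 hκ0
        _ = (κ * (1 + x) ^ (2 * T)) * ‖car z‖ := by ring
        _ ≤ K1 * ‖car z‖ := mul_le_mul_of_nonneg_right h5 (norm_nonneg _)
    have h8 : ‖A * z ^ M * kernA a L (c * z)‖ ≤ Y * κ := by
      rw [norm_mul, norm_mul, ← hκ, norm_pow]
      have h9 : ‖z‖ ^ M ≤ 1 := pow_le_one₀ (norm_nonneg _) hz1.le
      have h10 : ‖A‖ * ‖z‖ ^ M ≤ Y * 1 := mul_le_mul hAY h9 (by positivity) hY0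
      rw [mul_one] at h10
      exact mul_le_mul_of_nonneg_right h10 hκ0
    refine h8.trans ?_
    have h11 : κ ≤ K1 * ‖car z‖ / E := by
      rw [le_div_iff₀ hE]; exact h7
    have h12 : 0 ≤ Y * (‖car z‖ / E) := by positivity
    calc Y * κ ≤ Y * (K1 * ‖car z‖ / E) := mul_le_mul_of_nonneg_left h11 hY0
      _ = K1 * (Y * (‖car z‖ / E)) := by ring
      _ ≤ (K1 + 4 * C0) * (Y * (‖car z‖ / E)) :=
          mul_le_mul_of_nonneg_right (by linarith) h12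
      _ = (K1 + 4 * C0) * (Y / E) * ‖car z‖ := by ring
  · intro R hR
    have hΛ : ∃ Λ : ℝ, 0 ≤ Λ ∧ (∀ z ∈ ball (0:ℂ) 1, ‖car z‖ < R →
        Λ < (L : ℝ) * ‖1 - c * z‖) ∧ 1 / (1 + Λ) ^ (2 * a) ≤ R ^ 2 / E ^ 2 := by
      rcases le_or_gt E R with h | h
      · refine ⟨0, le_rfl, ?_, ?_⟩
        · intro z hz _
          have hz1 : ‖z‖ < 1 := by simpa using hz
          have h1 : (1 : ℂ) - c * z ≠ 0 := by
            intro h0
            have h2 : c * z = 1 := (sub_eq_zero.1 h0).symm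
            have h3 : ‖c * z‖ = 1 := by rw [h2, norm_one]
            rw [norm_mul, hc, one_mul] at h3
            linarith
          have h2 : 0 < ‖(1 : ℂ) - c * z‖ := norm_pos_iff.2 h1
          positivity
        · rw [le_div_iff₀ (by positivity)]
          have h2 : E ^ 2 ≤ R ^ 2 := pow_le_pow_left₀ hE.le h 2
          norm_num
          exact h2
      · have hER : 1 < E / R := by rw [lt_div_iff₀ hR]; linarith
        have hY1 : 1 ≤ (E / R) ^ (1 / (2 * T)) :=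
          Real.one_le_rpow hER.le (by positivity)
        refine ⟨(E / R) ^ (1 / (2 * T)) - 1, by linarith, ?_, ?_⟩
        · intro z hz hzR
          obtain ⟨x, hx⟩ : ∃ x : ℝ, x = (L : ℝ) * ‖1 - c * z‖ := ⟨_, rfl⟩
          have hx0 : 0 ≤ x := by rw [hx]; positivity
          have h1 := hcar z hz
          rw [← hx] at h1 ⊢
          have hpos : 0 < (1 + x) ^ (2 * T) := Real.rpow_pos_of_pos (by linarith) _
          have h2 : E * (1 + x) ^ (-(2 * T)) < R := lt_of_le_of_lt h1 hzR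
          rw [Real.rpow_neg (by linarith), ← div_eq_mul_inv, div_lt_iff₀ hpos] at h2
          have h3 : E / R < (1 + x) ^ (2 * T) := by
            rw [div_lt_iff₀ hR]; linarith
          have h4 : (E / R) ^ (1 / (2 * T)) < ((1 + x) ^ (2 * T)) ^ (1 / (2 * T)) :=
            Real.rpow_lt_rpow (by positivity) h3 (by positivity)
          rw [← Real.rpow_mul (by linarith), mul_one_div_cancel (by positivity),
            Real.rpow_one] at h4
          linarith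
        · have h1 : 1 + ((E / R) ^ (1 / (2 * T)) - 1) = (E / R) ^ (1 / (2 * T)) := by ring
          rw [h1]
          have h2 : (E / R) ^ 2 ≤ ((E / R) ^ (1 / (2 * T))) ^ (2 * a) := by
            rw [← Real.rpow_natCast ((E / R) ^ (1 / (2 * T))) (2 * a),
              ← Real.rpow_mul (by positivity), ← Real.rpow_natCast (E / R) 2]
            apply Real.rpow_le_rpow_of_exponent_le hER.le
            push_cast
            rw [div_mul_eq_mul_div, le_div_iff₀ (by positivity)]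
            linarith
          have h3 : 0 < (E / R) ^ 2 := by positivity
          calc 1 / ((E / R) ^ (1 / (2 * T))) ^ (2 * a) ≤ 1 / (E / R) ^ 2 :=
                one_div_le_one_div_of_le h3 h2
            _ = R ^ 2 / E ^ 2 := by rw [div_pow, one_div_div]
    obtain ⟨Λ, hΛ0, hΛ1, hΛ2⟩ := hΛ
    have hder : ∀ z : ℂ, ‖deriv (fun z => A * z ^ M * kernA a L (c * z)) z‖ ^ 2 = (‖A‖ ^ 2) *
        ‖deriv (fun w : ℂ => w ^ M * kernA a L (c * w)) z‖ ^ 2 := by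
      intro z
      have e1 : (fun z : ℂ => A * z ^ M * kernA a L (c * z)) =
          fun z => A * (z ^ M * kernA a L (c * z)) := by
        funext w; ring
      rw [e1, deriv_const_mul_field, norm_mul, mul_pow]
    have hsub : {z : ℂ | z ∈ ball (0:ℂ) 1 ∧ ‖car z‖ < R} ⊆
        {z : ℂ | ‖z‖ < 1 ∧ Λ < (L : ℝ) * ‖1 - c * z‖} := by
      rintro z ⟨hz, hzR⟩
      exact ⟨by simpa using hz, hΛ1 z hz hzR⟩
    have hM0 : (0 : ℝ) < M := by linarith
    have hL0 : (0 : ℝ) < L := by linarith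
    calc ∫⁻ z in {z : ℂ | z ∈ ball (0:ℂ) 1 ∧ ‖car z‖ < R},
          ENNReal.ofReal (‖deriv (fun z => A * z ^ M * kernA a L (c * z)) z‖ ^ 2)
        ≤ ∫⁻ z in {z : ℂ | ‖z‖ < 1 ∧ Λ < (L : ℝ) * ‖1 - c * z‖},
          ENNReal.ofReal (‖deriv (fun z => A * z ^ M * kernA a L (c * z)) z‖ ^ 2) :=
            lintegral_mono_set hsub
      _ = ∫⁻ z in {z : ℂ | ‖z‖ < 1 ∧ Λ < (L : ℝ) * ‖1 - c * z‖},
          ENNReal.ofReal (‖A‖ ^ 2) * ENNReal.ofReal
            (‖deriv (fun w : ℂ => w ^ M * kernA a L (c * w)) z‖ ^ 2) := by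
          refine lintegral_congr fun z => ?_
          rw [hder, ENNReal.ofReal_mul (by positivity)]
      _ = ENNReal.ofReal (‖A‖ ^ 2) *
          ∫⁻ z in {z : ℂ | ‖z‖ < 1 ∧ Λ < (L : ℝ) * ‖1 - c * z‖},
            ENNReal.ofReal
            (‖deriv (fun w : ℂ => w ^ M * kernA a L (c * w)) z‖ ^ 2) :=
          lintegral_const_mul' _ _ ENNReal.ofReal_ne_top
      _ ≤ ENNReal.ofReal (‖A‖ ^ 2) *
          ENNReal.ofReal (C0 * ((M : ℝ) + L) ^ 2 / (M * L) * (1 / (1 + Λ) ^ (2 * a))) :=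
          mul_le_mul_right (kernA_energy a L M c Λ hL (hL.trans hLM) hc hΛ0) _
      _ = ENNReal.ofReal ((‖A‖ ^ 2) *
          (C0 * ((M : ℝ) + L) ^ 2 / (M * L) * (1 / (1 + Λ) ^ (2 * a)))) :=
          (ENNReal.ofReal_mul (by positivity)).symm
      _ ≤ ENNReal.ofReal ((K1 + 4 * C0) * (Y ^ 2 * M / (L * E ^ 2)) * R ^ 2) := by
          apply ENNReal.ofReal_le_ofReal
          have h1 : ((M : ℝ) + L) ^ 2 ≤ 4 * (M : ℝ) ^ 2 := by nlinarith
          have h2 : C0 * ((M : ℝ) + L) ^ 2 / (M * L) ≤ C0 * (4 * (M : ℝ) ^ 2) / (M * L) :=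
            div_le_div_of_nonneg_right (mul_le_mul_of_nonneg_left h1 hC0.le) (by positivity)
          have h3 : C0 * ((M : ℝ) + L) ^ 2 / (M * L) * (1 / (1 + Λ) ^ (2 * a)) ≤
              C0 * (4 * (M : ℝ) ^ 2) / (M * L) * (R ^ 2 / E ^ 2) :=
            mul_le_mul h2 hΛ2 (by positivity) (by positivity)
          have h6 : ‖A‖ ^ 2 ≤ Y ^ 2 := pow_le_pow_left₀ (norm_nonneg _) hAY 2
          have h4 : (Y ^ 2) * (C0 * (4 * (M : ℝ) ^ 2) / (M * L) * (R ^ 2 / E ^ 2)) =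
              (4 * C0) * (Y ^ 2 * M / (L * E ^ 2)) * R ^ 2 := by
            field_simp
          refine (mul_le_mul h6 h3 (by positivity) (by positivity)).trans ?_
          rw [h4]
          have h5 : 0 ≤ (Y ^ 2 * M / (L * E ^ 2)) * R ^ 2 := by positivity
          nlinarith

theorem summand_diff (a L M : ℕ) (c A : ℂ) : Differentiable ℂ
    (fun z : ℂ => A * z ^ M * kernA a L (c * z)) := by
  have h1 := kernA_diff a L
  have h2 : Differentiable ℂ (fun z : ℂ => c * z) := by fun_prop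
  have h3 : Differentiable ℂ (fun z : ℂ => kernA a L (c * z)) := h1.comp h2
  fun_prop

/-- sum of oscillating terms -/
theorem osc_totalA {ι : Type*} (s : Finset ι) (N : ℕ) (hN : 1 ≤ N) (hsN : s.card ≤ N) (a : ℕ)
    (C ω T : ℝ) (hω : 0 < ω)
    (hosc : ∀ (car : ℂ → ℂ) (L M : ℕ) (c A : ℂ) (Y E : ℝ),
      1 ≤ L → L ≤ M → ‖c‖ = 1 → ‖A‖ ≤ Y → 0 < E →
      (∀ z ∈ ball (0:ℂ) 1, E * (1 + (L : ℝ) * ‖1 - c * z‖) ^ (-(2 * T)) ≤ ‖car z‖) →
      (∀ z ∈ ball (0:ℂ) 1, ‖A * z ^ M * kernA a L (c * z)‖ ≤ C * (Y / E) * ‖car z‖) ∧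
      (∀ R : ℝ, 0 < R → ∫⁻ z in {z : ℂ | z ∈ ball (0:ℂ) 1 ∧ ‖car z‖ < R},
        ENNReal.ofReal (‖deriv (fun z => A * z ^ M * kernA a L (c * z)) z‖ ^ 2)
        ≤ ENNReal.ofReal (C * (Y ^ 2 * M / (L * E ^ 2)) * R ^ 2)))
    (car : ℂ → ℂ) (L M : ι → ℕ) (c A : ι → ℂ) (Y E : ι → ℝ)
    (hL : ∀ l ∈ s, 1 ≤ L l) (hM : ∀ l ∈ s, L l ≤ M l) (hc : ∀ l ∈ s, ‖c l‖ = 1)
    (hAY : ∀ l ∈ s, ‖A l‖ ≤ Y l) (hE : ∀ l ∈ s, 0 < E l)
    (hlow : ∀ l ∈ s, ∀ z ∈ ball (0:ℂ) 1,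
      E l * (1 + (L l : ℝ) * ‖1 - c l * z‖) ^ (-(2 * T)) ≤ ‖car z‖)
    (h1 : ∀ l ∈ s, C * (Y l / E l) ≤ ω / N)
    (h2 : ∀ l ∈ s, C * (Y l ^ 2 * M l / (L l * E l ^ 2)) ≤ ω / N ^ 2) :
    Differentiable ℂ (fun z : ℂ => ∑ l ∈ s, A l * z ^ M l * kernA a (L l) (c l * z)) ∧
    (∀ z ∈ ball (0:ℂ) 1, ‖∑ l ∈ s, A l * z ^ M l * kernA a (L l) (c l * z)‖ ≤ ω * ‖car z‖) ∧
    (∀ R : ℝ, 0 < R → ∫⁻ z in {z : ℂ | z ∈ ball (0:ℂ) 1 ∧ ‖car z‖ < R},
      ENNReal.ofReal (‖deriv (fun z : ℂ => ∑ l ∈ s,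
        A l * z ^ M l * kernA a (L l) (c l * z)) z‖ ^ 2)
        ≤ ENNReal.ofReal (ω * R ^ 2)) := by
  have hd : ∀ l : ι, Differentiable ℂ (fun z : ℂ => A l * z ^ M l * kernA a (L l) (c l * z)) :=
    fun l => summand_diff a (L l) (M l) (c l) (A l)
  have hm : (0 : ℝ) < N := by exact_mod_cast hN
  have hcard : ((s.card : ℕ) : ℝ) ≤ N := by exact_mod_cast hsN
  have key : ∀ l ∈ s, _ := fun l hl => hosc car (L l) (M l) (c l) (A l) (Y l) (E l) (hL l hl)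
    (hM l hl) (hc l hl) (hAY l hl) (hE l hl) (hlow l hl)
  refine ⟨?_, ?_, ?_⟩
  · exact Differentiable.fun_sum (fun l _ => hd l)
  · intro z hz
    calc ‖∑ l ∈ s, A l * z ^ M l * kernA a (L l) (c l * z)‖
        ≤ ∑ l ∈ s, ‖A l * z ^ M l * kernA a (L l) (c l * z)‖ := norm_sum_le _ _
      _ ≤ ∑ l ∈ s, ω / N * ‖car z‖ := by
          refine Finset.sum_le_sum (fun l hl => ?_)
          refine ((key l hl).1 z hz).trans ?_
          exact mul_le_mul_of_nonneg_right (h1 l hl) (norm_nonneg _)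
      _ = s.card * (ω / N * ‖car z‖) := by
          rw [Finset.sum_const, nsmul_eq_mul]
      _ ≤ N * (ω / N * ‖car z‖) := mul_le_mul_of_nonneg_right hcard (by positivity)
      _ = ω * ‖car z‖ := by field_simp
  · intro R hR
    have hder : ∀ z, deriv (fun z : ℂ => ∑ l ∈ s,
        A l * z ^ M l * kernA a (L l) (c l * z)) z =
        ∑ l ∈ s, deriv (fun z : ℂ => A l * z ^ M l * kernA a (L l) (c l * z)) z := by
      intro z
      exact deriv_fun_sum (fun l _ => (hd l) z)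
    have hmeas : ∀ l, Measurable (fun z => ENNReal.ofReal (‖deriv (fun z : ℂ =>
          A l * z ^ M l * kernA a (L l) (c l * z)) z‖ ^ 2)) := by
      intro l
      exact ((measurable_deriv _).norm.pow_const 2).ennreal_ofReal
    calc _ ≤ ∫⁻ z in {z : ℂ | z ∈ ball (0:ℂ) 1 ∧ ‖car z‖ < R},
          ENNReal.ofReal N * ∑ l ∈ s, ENNReal.ofReal (‖deriv (fun z : ℂ =>
          A l * z ^ M l * kernA a (L l) (c l * z)) z‖ ^ 2) := by
          refine lintegral_mono (fun z => ?_)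
          rw [hder z, ← ENNReal.ofReal_sum_of_nonneg (fun _ _ => by positivity),
            ← ENNReal.ofReal_mul hm.le]
          apply ENNReal.ofReal_le_ofReal
          calc _ ≤ (∑ l ∈ s, ‖deriv (fun z : ℂ =>
                A l * z ^ M l * kernA a (L l) (c l * z)) z‖) ^ 2 := by
                  gcongr
                  exact norm_sum_le _ _
            _ ≤ (s.card : ℝ) * ∑ l ∈ s, ‖deriv (fun z : ℂ =>
                A l * z ^ M l * kernA a (L l) (c l * z)) z‖ ^ 2 := by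
                  exact sq_sum_le_card_mul_sum_sq
            _ ≤ _ := mul_le_mul_of_nonneg_right hcard
                  (Finset.sum_nonneg fun _ _ => by positivity)
      _ = ENNReal.ofReal N * ∑ l ∈ s,
          ∫⁻ z in {z : ℂ | z ∈ ball (0:ℂ) 1 ∧ ‖car z‖ < R}, ENNReal.ofReal (‖deriv (fun z : ℂ =>
          A l * z ^ M l * kernA a (L l) (c l * z)) z‖ ^ 2) := by
          rw [lintegral_const_mul _ (Finset.measurable_sum _ (fun l _ => hmeas l)),
            lintegral_finsetSum _ (fun l _ => hmeas l)]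
      _ ≤ ENNReal.ofReal N * ∑ l ∈ s, ENNReal.ofReal (ω / N ^ 2 * R ^ 2) := by
          gcongr with l hl
          refine ((key l hl).2 R hR).trans ?_
          apply ENNReal.ofReal_le_ofReal
          exact mul_le_mul_of_nonneg_right (h2 l hl) (by positivity)
      _ = ENNReal.ofReal (N * (s.card * (ω / N ^ 2 * R ^ 2))) := by
          rw [Finset.sum_const, nsmul_eq_mul, ← ENNReal.ofReal_natCast (s.card),
            ← ENNReal.ofReal_mul (by positivity), ← ENNReal.ofReal_mul (by positivity)]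
      _ ≤ ENNReal.ofReal (ω * R ^ 2) := by
          apply ENNReal.ofReal_le_ofReal
          calc (N:ℝ) * (s.card * (ω / N ^ 2 * R ^ 2)) ≤ N * (N * (ω / N ^ 2 * R ^ 2)) := by
                gcongr
            _ = ω * R ^ 2 := by field_simp

/-- rotating the peak of a lower bound by a small angle -/
theorem low_rotate {car : ℂ → ℂ} {L : ℕ} {c c' : ℂ} {E T k : ℝ} (hE : 0 ≤ E) (hT : 0 ≤ T)
    (hk : 0 ≤ k) (hcc : (L:ℝ) * ‖c' - c‖ ≤ k)
    (h : ∀ z ∈ ball (0:ℂ) 1, E * (1 + (L : ℝ) * ‖1 - c * z‖) ^ (-(2 * T)) ≤ ‖car z‖) :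
    ∀ z ∈ ball (0:ℂ) 1,
      (E * (1 + k) ^ (-(2 * T))) * (1 + (L : ℝ) * ‖1 - c' * z‖) ^ (-(2 * T)) ≤ ‖car z‖ := by
  intro z hz
  refine le_trans ?_ (h z hz)
  have hz1 : ‖z‖ < 1 := by simpa using hz
  have hL0 : (0:ℝ) ≤ L := Nat.cast_nonneg L
  have h1 : ‖1 - c * z‖ ≤ ‖1 - c' * z‖ + ‖c' - c‖ := by
    have e1 : 1 - c * z = (1 - c' * z) + (c' - c) * z := by ring
    rw [e1]
    refine (norm_add_le _ _).trans ?_
    rw [norm_mul]
    have := mul_le_mul_of_nonneg_left hz1.le (norm_nonneg (c' - c))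
    linarith
  have h2 : 1 + (L:ℝ) * ‖1 - c * z‖ ≤ (1 + k) * (1 + (L:ℝ) * ‖1 - c' * z‖) := by
    have h3 := mul_le_mul_of_nonneg_left h1 hL0
    have h4 : 0 ≤ k * ((L:ℝ) * ‖1 - c' * z‖) := by positivity
    nlinarith
  rw [mul_assoc, ← Real.mul_rpow (by linarith) (by positivity)]
  apply mul_le_mul_of_nonneg_left _ hE
  apply Real.rpow_le_rpow_of_nonpos (by positivity) h2
  linarith

end Pool.Agent.H195.ML
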