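import Mathlib
import Pool.Graph.R_seed8.Helper772.MV.CarCoeff
import Pool.Agent.H195.ML.KernA

open MeasureTheory Metric Set Filter Topology
open scoped ENNReal Real

namespace Pool.Agent.H195.ML

open MeanVal

/-- small rotation -/
noncomputable def rt (L : ℕ) : ℂ := Complex.exp (Complex.I / L)

theorem rt_norm (L : ℕ) : ‖rt L‖ = 1 := by
  unfold rt
  rw [show Complex.I / (L:ℂ) = ((1 / (L:ℝ) : ℝ) : ℂ) * Complex.I by push_cast; ring]
  exact Complex.norm_exp_ofReal_mul_I _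

theorem rt_ne (L : ℕ) : rt L ≠ 0 := Complex.exp_ne_zero _

theorem tendsto_rt (s : ℕ) : Tendsto (fun L : ℕ => (L:ℂ) * (1 - rt L ^ s)) atTop
    (𝓝 (-(Complex.I * s))) := by
  have hd : HasDerivAt (fun t : ℂ => 1 - Complex.exp (s * (Complex.I * t))) (-(Complex.I * s)) 0 := by
    have h1 : HasDerivAt (fun t : ℂ => (s:ℂ) * (Complex.I * t)) ((s:ℂ) * Complex.I) 0 := by
      have h0 := ((hasDerivAt_id (0:ℂ)).const_mul Complex.I).const_mul (s:ℂ)
      simpa using h0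
    have h2 := (h1.cexp).const_sub 1
    have h3 : -(Complex.exp ((s:ℂ) * (Complex.I * 0)) * ((s:ℂ) * Complex.I)) =
        -(Complex.I * s) := by
      simp [mul_comm]
    rw [h3] at h2
    exact h2
  have h1 := hd.tendsto_slope_zero
  have h2 : Tendsto (fun L : ℕ => ((L:ℂ))⁻¹) atTop (𝓝[≠] 0) := by
    rw [tendsto_nhdsWithin_iff]
    refine ⟨tendsto_inv_atTop_nhds_zero_nat, ?_⟩
    filter_upwards [eventually_gt_atTop 0] with L hL
    have : (L:ℂ) ≠ 0 := by exact_mod_cast hL.ne'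
    exact inv_ne_zero this
  have h3 := h1.comp h2
  refine h3.congr ?_
  intro L
  simp only [Function.comp, zero_add, mul_zero, Complex.exp_zero, sub_self, sub_zero, inv_inv,
    smul_eq_mul]
  congr 2
  unfold rt
  rw [← Complex.exp_nat_mul]
  congr 1

theorem exists_L (m : ℕ) (δ : ℝ) (hδ : 0 < δ) : ∃ L₀ : ℕ, ∀ L, L₀ ≤ L → ∀ s ≤ 2 * m, ∀ k ≤ m,
    ‖((L:ℂ) * (1 - rt L ^ s)) ^ k - (-(Complex.I * s)) ^ k‖ ≤ δ := by
  have h : ∀ᶠ L : ℕ in atTop, ∀ s ∈ Finset.range (2 * m + 1), ∀ k ∈ Finset.range (m + 1),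
      ‖((L:ℂ) * (1 - rt L ^ s)) ^ k - (-(Complex.I * s)) ^ k‖ ≤ δ := by
    rw [Filter.eventually_all_finset]
    intro s _
    rw [Filter.eventually_all_finset]
    intro k _
    have h1 := ((tendsto_rt s).pow k).sub_const ((-(Complex.I * s)) ^ k)
    rw [sub_self] at h1
    have h2 := h1.norm
    rw [norm_zero] at h2
    filter_upwards [h2.eventually (gt_mem_nhds hδ)] with L hL
    exact hL.le
  obtain ⟨L₀, hL₀⟩ := h.exists_forall_of_atTop
  exact ⟨L₀, fun L hL s hs k hk => hL₀ L hL s (Finset.mem_range.2 (by omega)) k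
    (Finset.mem_range.2 (by omega))⟩

/-- amplitude of the `i`-th rotated term -/
noncomputable def amp (a L κ : ℕ) (X : ℝ) (i : ℕ) : ℂ :=
  X * (L:ℂ) ^ κ * ((-1) ^ i * ((κ - 1).choose i : ℂ)) * (rt L)⁻¹ ^ (i * (a * L))

theorem amp_norm (a L κ : ℕ) (X : ℝ) (hX : 0 ≤ X) (i : ℕ) :
    ‖amp a L κ X i‖ ≤ 2 ^ κ * X * (L:ℝ) ^ κ := by
  unfold amp
  rw [norm_mul, norm_mul, norm_mul, norm_mul, norm_pow, norm_pow, norm_pow, norm_inv, rt_norm,
    Complex.norm_real, Real.norm_of_nonneg hX, Complex.norm_natCast, Complex.norm_natCast]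
  simp only [norm_neg, norm_one, one_pow, inv_one, mul_one, one_mul]
  have h1 : (((κ - 1).choose i : ℕ) : ℝ) ≤ 2 ^ κ := by
    have h2 : (κ - 1).choose i ≤ 2 ^ (κ - 1) := Nat.choose_le_two_pow _ _
    have h3 : 2 ^ (κ - 1) ≤ 2 ^ κ := Nat.pow_le_pow_right (by norm_num) (by omega)
    exact_mod_cast h2.trans h3
  calc X * (L:ℝ) ^ κ * (((κ - 1).choose i : ℕ) : ℝ) ≤ X * (L:ℝ) ^ κ * 2 ^ κ :=
        mul_le_mul_of_nonneg_left h1 (by positivity)
    _ = _ := by ring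

theorem term_coeff (a L M n : ℕ) (hL : 1 ≤ L) (hn : M + a * L = n) (c A : ℂ) (s : ℕ)
    (hs : s + 1 ≤ L) :
    coeff (fun z : ℂ => A * z ^ M * kernA a L (c * z)) (n + s) = A * (1 / L) * c ^ (a * L + s) := by
  obtain ⟨κ, hκ1, hκ2⟩ := kernA_coeff a L hL
  set P : Polynomial ℂ := ∑ j ∈ Finset.range ((2 * a + 1) * L),
    Polynomial.monomial (M + j) (A * κ j * c ^ j) with hP
  have h1 : (fun z : ℂ => A * z ^ M * kernA a L (c * z)) = fun z => P.eval z := by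
    ext z
    rw [hκ1, hP, Polynomial.eval_finsetSum, Finset.mul_sum]
    refine Finset.sum_congr rfl fun j _ => ?_
    rw [Polynomial.eval_monomial, mul_pow, pow_add]
    ring
  have hb : a * L + s + 1 ≤ (a + 1) * L := by
    have : (a + 1) * L = a * L + L := by ring
    omega
  have hb2 : (a + 1) * L ≤ (2 * a + 1) * L := Nat.mul_le_mul_right _ (by omega)
  rw [h1, CarCoeff.coeff_poly, hP, Polynomial.finsetSum_coeff]
  rw [Finset.sum_eq_single (a * L + s)]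
  · rw [Polynomial.coeff_monomial, if_pos (by omega), hκ2 _ (by omega) hb]
  · intro j _ hj
    rw [Polynomial.coeff_monomial, if_neg (by omega)]
  · intro hj
    exfalso
    apply hj
    rw [Finset.mem_range]
    omega

theorem cluster_coeff (a L M n κ : ℕ) (hL : 1 ≤ L) (hκ : 1 ≤ κ) (hn : M + a * L = n) (μ : ℂ)
    (X : ℝ) (s : ℕ) (hs : s + 1 ≤ L) :
    ∑ i ∈ Finset.range κ, coeff (fun z : ℂ => amp a L κ X i * z ^ M *
      kernA a L (μ * rt L ^ i * z)) (n + s) =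
      (X * μ ^ (a * L)) * ((L:ℂ) * (1 - rt L ^ s)) ^ (κ - 1) * μ ^ s := by
  have hL0 : (L:ℂ) ≠ 0 := by exact_mod_cast (by omega : L ≠ 0)
  have h1 : ∀ i ∈ Finset.range κ, coeff (fun z : ℂ => amp a L κ X i * z ^ M *
      kernA a L (μ * rt L ^ i * z)) (n + s) =
      X * (L:ℂ) ^ (κ - 1) * μ ^ (a * L + s) *
        ((-(rt L ^ s)) ^ i * 1 ^ (κ - 1 - i) * ((κ - 1).choose i : ℂ)) := by
    intro i _
    rw [term_coeff a L M n hL hn (μ * rt L ^ i) (amp a L κ X i) s hs]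
    unfold amp
    have h2 : (L:ℂ) ^ κ = (L:ℂ) ^ (κ - 1) * L := by
      rw [← pow_succ, Nat.sub_add_cancel hκ]
    have h3 : (rt L)⁻¹ ^ (i * (a * L)) * (rt L ^ i) ^ (a * L + s) = (rt L ^ s) ^ i := by
      rw [← pow_mul, mul_add, pow_add, ← mul_assoc, ← mul_pow, inv_mul_cancel₀ (rt_ne L), one_pow,
        one_mul, ← pow_mul, mul_comm i s]
    rw [h2, mul_pow μ, one_pow, mul_one, neg_pow (rt L ^ s) i]
    calc _ = X * ((L:ℂ) ^ (κ - 1) * (L * (1 / L))) * μ ^ (a * L + s) *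
          ((-1) ^ i * ((rt L)⁻¹ ^ (i * (a * L)) * (rt L ^ i) ^ (a * L + s)) *
            ((κ - 1).choose i : ℂ)) := by ring
      _ = _ := by
        rw [h3, mul_one_div_cancel hL0]
        ring
  rw [Finset.sum_congr rfl h1, ← Finset.mul_sum]
  have h4 : ∑ i ∈ Finset.range κ, ((-(rt L ^ s)) ^ i * 1 ^ (κ - 1 - i) *
      ((κ - 1).choose i : ℂ)) = (1 - rt L ^ s) ^ (κ - 1) := by
    rw [show 1 - rt L ^ s = -(rt L ^ s) + 1 by ring, add_pow, Nat.sub_add_cancel hκ]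
  rw [h4, mul_pow, pow_add]
  ring

theorem rt_close (L i : ℕ) (hL : 1 ≤ L) (μ : ℂ) (hμ : ‖μ‖ = 1) :
    (L:ℝ) * ‖μ * rt L ^ i - μ‖ ≤ i := by
  have hL0 : (0:ℝ) < L := by exact_mod_cast hL
  have h1 : μ * rt L ^ i - μ = μ * (rt L ^ i - 1) := by ring
  rw [h1, norm_mul, hμ, one_mul]
  have h2 : rt L ^ i = Complex.exp (Complex.I * ((i / L : ℝ) : ℂ)) := by
    unfold rt
    rw [← Complex.exp_nat_mul]
    congr 1
    push_cast
    ring
  have h3 : ‖rt L ^ i - 1‖ ≤ i / L := by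
    rw [h2]
    have := Real.norm_exp_I_mul_ofReal_sub_one_le (x := (i / L : ℝ))
    refine this.trans ?_
    rw [Real.norm_of_nonneg (by positivity)]
  calc (L:ℝ) * ‖rt L ^ i - 1‖ ≤ L * (i / L) := mul_le_mul_of_nonneg_left h3 hL0.le
    _ = i := by field_simp

end Pool.Agent.H195.ML
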