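import Mathlib
import Pool.Graph.R_seed8.Helper772.MV.Basic

open Metric Set

namespace Pool.Agent.H195.ML

open MeanVal

theorem coeff_add_of {a b : ℂ → ℂ} {ρ : ℝ} (hρ : 0 < ρ) (ha : DifferentiableOn ℂ a (ball 0 ρ))
    (hb : DifferentiableOn ℂ b (ball 0 ρ)) (n : ℕ) :
    coeff (fun z => a z + b z) n = coeff a n + coeff b n := by
  have h0 : (0:ℂ) ∈ ball (0:ℂ) ρ := mem_ball_self hρ
  have ha' : ContDiffAt ℂ n a 0 :=
    ((ha.analyticOnNhd isOpen_ball) 0 h0).contDiffAt
  have hb' : ContDiffAt ℂ n b 0 :=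
    ((hb.analyticOnNhd isOpen_ball) 0 h0).contDiffAt
  unfold coeff
  have h1 : iteratedDeriv n (fun z => a z + b z) 0 = iteratedDeriv n a 0 + iteratedDeriv n b 0 := by
    have := iteratedDeriv_add ha' hb'
    exact this
  rw [h1, add_div]

theorem coeff_sum_of {ι : Type*} (s : Finset ι) {a : ι → ℂ → ℂ}
    (ha : ∀ i ∈ s, Differentiable ℂ (a i)) (n : ℕ) :
    coeff (fun z => ∑ i ∈ s, a i z) n = ∑ i ∈ s, coeff (a i) n := by
  classical
  induction s using Finset.induction_on with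
  | empty =>
    simp only [Finset.sum_empty]
    unfold coeff
    simp
  | insert i s hi ih =>
    simp only [Finset.sum_insert hi]
    rw [coeff_add_of (ρ := 1) one_pos (ha i (Finset.mem_insert_self _ _)).differentiableOn
      (Differentiable.differentiableOn (Differentiable.fun_sum fun j hj =>
        ha j (Finset.mem_insert_of_mem hj))),
      ih fun j hj => ha j (Finset.mem_insert_of_mem hj)]

theorem finite_eps {m : ℕ} {P : ℕ → ℝ → Prop}
    (h : ∀ l ≤ m, ∀ᶠ x in nhdsWithin (0:ℝ) (Ioi 0), P l x) :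
    ∀ᶠ x in nhdsWithin (0:ℝ) (Ioi 0), ∀ l ≤ m, P l x := by
  have h1 : ∀ᶠ x in nhdsWithin (0:ℝ) (Ioi 0), ∀ l ∈ Finset.range (m + 1), P l x := by
    rw [Filter.eventually_all_finset]
    intro l hl
    exact h l (by have := Finset.mem_range.1 hl; omega)
  filter_upwards [h1] with x hx l hl
  exact hx l (Finset.mem_range.2 (by omega))

/-- a small positive number with given eventual property -/
theorem exists_small {P : ℝ → Prop} (h : ∀ᶠ x in nhdsWithin (0:ℝ) (Ioi 0), P x) :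
    ∃ x : ℝ, 0 < x ∧ P x := by
  obtain ⟨x, hx1, hx2⟩ := (h.and self_mem_nhdsWithin).exists
  exact ⟨x, hx2, hx1⟩

theorem ev_lt {g : ℝ → ℝ} (hg : ContinuousAt g 0) {b : ℝ} (h : g 0 < b) :
    ∀ᶠ x in nhdsWithin (0:ℝ) (Ioi 0), g x < b :=
  (hg.eventually (gt_mem_nhds h)).filter_mono nhdsWithin_le_nhds

theorem sum_modify (J : ℕ) (hJ : 1 ≤ J) (h : ℕ → ℝ) (e : ℝ) :
    ∑ i ∈ Finset.range J, (if i + 1 = J then h i - e else h i) = ∑ i ∈ Finset.range J, h i - e := by
  obtain ⟨J', rfl⟩ : ∃ J', J = J' + 1 := ⟨J - 1, by omega⟩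
  rw [Finset.sum_range_succ, Finset.sum_range_succ]
  have h1 : ∑ i ∈ Finset.range J', (if i + 1 = J' + 1 then h i - e else h i) =
      ∑ i ∈ Finset.range J', h i := by
    apply Finset.sum_congr rfl
    intro i hi
    have := Finset.mem_range.1 hi
    rw [if_neg (by omega)]
  rw [h1, if_pos rfl]
  ring

end Pool.Agent.H195.ML
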