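import Mathlib
import Pool.Graph.R_seed8.Helper772.MV.Step1
import Pool.Graph.R_seed8.Helper772.MV.NumTotal
import Pool.Graph.R_seed8.Helper772.MV.CarCoeff
import Pool.Graph.R_seed8.Helper772.MV.AreaFin
import Pool.Agent.H195.ML.Small
import Pool.Agent.H195.ML.PackT
import Pool.Agent.H195.ML.OscA
import Pool.Agent.H195.ML.OscCoefA
import Pool.Agent.H195.ML.EvA
import Pool.Agent.H195.ML.HankC

open MeasureTheory Metric Set
open scoped ENNReal Real

namespace Pool.Agent.H195.ML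

open MeanVal

theorem aux_le_mul {a b c : ℝ} (ha : 0 ≤ a) (h : a ≤ b) (h1 : 1 ≤ c) : a ≤ b * c := by
  nlinarith

theorem aux_one_le_mul {a b : ℝ} (h : 1 ≤ a) (h1 : 1 ≤ b) : 1 ≤ a * b := by
  nlinarith

theorem aux_false {ω c x : ℝ} (hω : ω ≤ 1 / 2) (hc : 0 < c) (h1 : x ≤ ω * x) (h2 : c ≤ x) :
    False := by
  nlinarith

theorem aux_mul_le {M c : ℝ} (hM : 0 ≤ M) (hc : c ≤ 1) : M * c ≤ M := by
  nlinarith

set_option maxHeartbeats 8000000 in
theorem step_of_cluster (P m : ℕ) (κ : ℕ → ℕ) (hκ1 : ∀ l ≤ P, 1 ≤ κ l)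
    (hκm : ∑ l ∈ Finset.range (P + 1), κ l = m + 1) (J : ℕ → ℕ) (h : ℕ → ℝ) (θ : ℕ → ℕ → ℝ)
    (q V T : ℝ) (hq : 0 ≤ q) (hT1 : 1 ≤ T)
    (hJ : ∀ l ≤ P, 1 ≤ J l) (hh : ∀ j, 0 < h j)
    (hθ : ∀ l ≤ P, ∀ j < J l, 0 < θ l j ∧ θ l j ≤ T)
    (hmono : ∀ l ≤ P, ∀ j, j + 1 < J l → θ l j ≤ θ l (j + 1))
    (hsum : ∀ j, ∑ l ∈ Finset.range (P + 1), (if j < J l then θ l j else 0) ≤ q)
    (hτ : ∀ l ≤ P, ∑ j ∈ Finset.range (J l), h j / (2 * θ l j) < 1)
    (hV : ∀ l ≤ P, V < ∑ j ∈ Finset.range (J l), h j -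
      ((κ l : ℝ) - 1 / 2) * (∑ j ∈ Finset.range (J l), h j / (2 * θ l j)))
    (f : ℂ → ℂ) (p₁ p₂ : ℝ) (hqp : q < p₁) (hp12 : p₁ < p₂) (hnice : Nice p₁ f)
    (r ε : ℝ) (n₀ : ℕ) (hr0 : 0 < r) (hr1 : r < 1) (hε : 0 < ε) :
    ∃ (g : ℂ → ℂ) (n : ℕ), Nice p₂ g ∧ n₀ ≤ n ∧ (∀ z : ℂ, ‖z‖ ≤ r → ‖g z - f z‖ ≤ ε) ∧
      HankelLB m n g ((n : ℝ) ^ (-1 / 2 + V)) := by
  obtain ⟨⟨ρf, hρf, hfd⟩, hf0, hfab⟩ := hnice
  have hpi := Real.pi_pos
  have hmR : (0:ℝ) < (P:ℝ) + 1 := by positivity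
  have hT0 : (0:ℝ) < T := by linarith
  have hp₁ : 0 < p₁ := lt_of_le_of_lt hq hqp
  -- bounds of f
  have hcb : IsCompact (closedBall (0:ℂ) 1) := isCompact_closedBall _ _
  have hfc : ContinuousOn f (closedBall (0:ℂ) 1) :=
    hfd.continuousOn.mono (closedBall_subset_ball hρf)
  obtain ⟨M₀, hM₀, hfM⟩ : ∃ M₀ : ℝ, 0 < M₀ ∧ ∀ z : ℂ, ‖z‖ ≤ 1 → ‖f z‖ < M₀ := by
    obtain ⟨M, hM⟩ := hcb.exists_bound_of_continuousOn hfc
    refine ⟨|M| + 1, by positivity, fun z hz => ?_⟩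
    have := hM z (by simpa using hz)
    have := le_abs_self M
    linarith
  obtain ⟨cf, hcf, hfcf⟩ : ∃ cf : ℝ, 0 < cf ∧ ∀ z : ℂ, ‖z‖ ≤ 1 → cf ≤ ‖f z‖ := by
    obtain ⟨z₀, hz₀, hmin⟩ := hcb.exists_isMinOn ⟨0, by simp⟩ hfc.norm
    refine ⟨‖f z₀‖, norm_pos_iff.2 (hf0 z₀ (by simpa using hz₀)), fun z hz => ?_⟩
    exact hmin (by simpa using hz)
  -- epsilon_1
  obtain ⟨ε₁, hε₁, hε₁1, hε₁p⟩ : ∃ ε₁ : ℝ, 0 < ε₁ ∧ ε₁ < 1 ∧
      (1 + ε₁) ^ 4 * (p₁ + (P + 1) * ε₁) + ε₁ / π < p₂ := by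
    apply exists_small
    apply (ev_lt (g := fun x => x) continuousAt_id (by norm_num)).and
    apply ev_lt (g := fun x : ℝ => (1 + x) ^ 4 * (p₁ + (P + 1) * x) + x / π)
    · fun_prop
    · simpa using hp12
  obtain ⟨δ, hδ, hδε, hδθ⟩ : ∃ δ : ℝ, 0 < δ ∧ δ < ε₁ ∧ ∀ l ≤ P, δ < θ l 0 := by
    apply exists_small
    apply (ev_lt (g := fun x => x) continuousAt_id hε₁).and
    apply finite_eps
    intro l hl
    exact ev_lt (g := fun x => x) continuousAt_id (hθ l hl 0 (hJ l hl)).1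
  have hδ1 : δ ≤ 1 := by linarith
  have hδT : δ ≤ T := by linarith
  set Jm : ℕ := ∑ l ∈ Finset.range (P + 1), J l with hJm
  have hJle : ∀ l ≤ P, J l ≤ Jm := by
    intro l hl
    exact Finset.single_le_sum (f := J) (fun _ _ => Nat.zero_le _) (Finset.mem_range.2 (by omega))
  obtain ⟨c, hc0, hc4, hpack⟩ := profile_packageT T δ ε₁ hT0.le hδ hδT hε₁ (Jm + 1)
  set Cs : ℝ := M₀ / c ^ 2 with hCs
  have hCs0 : 0 < Cs := by positivity
  -- points
  set ζ : ℕ → ℂ := fun l => Complex.exp (2 * π * Complex.I * l / (P + 1)) with hζdef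
  have hζ : ∀ l ≤ P, ‖ζ l‖ = 1 := by
    intro l _
    simp only [hζdef]
    rw [show (2 * π * Complex.I * l / (P + 1) : ℂ) = ((2 * π * l / (P + 1) : ℝ) : ℂ) * Complex.I by
      push_cast; ring]
    exact Complex.norm_exp_ofReal_mul_I _
  have hζ' : ∀ l ≤ P, ∀ l' ≤ P, l ≠ l' → ζ l ≠ ζ l' := by
    intro l hl l' hl' hne heq
    simp only [hζdef] at heq
    rw [Complex.exp_eq_exp_iff_exists_int] at heq
    obtain ⟨k, hk⟩ := heq
    have h1 : (l:ℂ) = l' + k * (P + 1) := by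
      have h2 : (2 * π * Complex.I : ℂ) ≠ 0 := Complex.two_pi_I_ne_zero
      have h3 : ((P:ℂ) + 1) ≠ 0 := by
        have : ((P + 1 : ℕ) : ℂ) ≠ 0 := Nat.cast_ne_zero.2 (by omega)
        push_cast at this; exact this
      have h4 : (2 * π * Complex.I) * ((l:ℂ) / (P + 1)) =
          (2 * π * Complex.I) * ((l':ℂ) / (P + 1) + k) := by
        linear_combination hk
      have h5 := mul_left_cancel₀ h2 h4
      field_simp at h5
      linear_combination h5
    have h2 : (l:ℤ) = l' + k * (P + 1) := by exact_mod_cast h1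
    have h3 : k = 0 := by
      by_contra hk0
      rcases lt_or_gt_of_ne hk0 with h | h
      · have : k ≤ -1 := by omega
        nlinarith
      · have : 1 ≤ k := by omega
        nlinarith
    rw [h3] at h2
    omega
  obtain ⟨κ₀, ω₀, hκ₀, hω₀, hasm⟩ := AreaAsm.area_assembly P f ⟨ρf, hρf, hfd⟩ hf0 ζ hζ hζ' ε₁ hε₁
  set ω : ℝ := min ω₀ (1 / 2) with hω
  have hω0 : 0 < ω := lt_min hω₀ (by norm_num)
  have hωω : ω ≤ ω₀ := min_le_left _ _
  have hω2 : ω ≤ 1 / 2 := min_le_right _ _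
  -- d
  obtain ⟨d, hd, hd1, hd2, hd3, hd4, hd5, hd6⟩ : ∃ d : ℝ, 0 < d ∧ d < 1 ∧ 4 * T * d / κ₀ < ω₀ ∧
      6 * T * d / κ₀ ^ 2 < ω₀ ∧ 2 * T * d < κ₀ ∧ 2 * T * d < 1 - r ∧
      M₀ * (Real.exp ((P + 1) * (4 * T * d / (1 - r))) - 1) < ε / 2 := by
    apply exists_small
    refine (ev_lt (g := fun x => x) continuousAt_id (by norm_num)).and
      ((ev_lt (g := fun x => 4 * T * x / κ₀) (by fun_prop) (by simpa using hω₀)).and
      ((ev_lt (g := fun x => 6 * T * x / κ₀ ^ 2) (by fun_prop) (by simpa using hω₀)).and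
      ((ev_lt (g := fun x => 2 * T * x) (by fun_prop) (by simpa using hκ₀)).and
      ((ev_lt (g := fun x => 2 * T * x) (by fun_prop) (by simpa using hr1)).and
      (ev_lt (g := fun x => M₀ * (Real.exp ((P + 1) * (4 * T * x / (1 - r))) - 1)) (by fun_prop)
        (by simpa using hε))))))
  have hJ' : ∀ l ≤ P, ∃ j, J l = j + 1 := fun l hl => ⟨J l - 1, by have := hJ l hl; omega⟩
  -- ε'
  obtain ⟨ε', hε', hε'h⟩ : ∃ ε' : ℝ, 0 < ε' ∧ ∀ l ≤ P, ε' < h (J l - 1) ∧
      ε' < (∑ j ∈ Finset.range (J l), h j) -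
        ((κ l : ℝ) - 1 / 2) * (∑ j ∈ Finset.range (J l), h j / (2 * θ l j)) - V := by
    apply exists_small
    apply finite_eps
    intro l hl
    apply (ev_lt (g := fun x => x) continuousAt_id (hh _)).and
    apply ev_lt (g := fun x => x) continuousAt_id
    have := hV l hl
    linarith
  set h' : ℕ → ℕ → ℝ := fun l i => if i + 1 = J l then h i - ε' else h i with hh'def
  have hh'pos : ∀ l ≤ P, ∀ i, 0 < h' l i := by
    intro l hl i
    simp only [hh'def]
    split_ifs with hi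
    · have := (hε'h l hl).1
      have h2 : J l - 1 = i := by omega
      rw [h2] at this
      linarith
    · exact hh i
  have hh'le : ∀ l, ∀ i, h' l i ≤ h i := by
    intro l i
    simp only [hh'def]
    split_ifs <;> linarith
  set x : ℕ → ℕ → ℝ := fun l i => h' l i / (2 * θ l i) with hxdef
  have hxpos : ∀ l ≤ P, ∀ i < J l, 0 < x l i := by
    intro l hl i hi
    have h1 := hh'pos l hl i
    have h2 := (hθ l hl i hi).1
    simp only [hxdef]
    positivity
  have hx2 : ∀ l ≤ P, ∀ i < J l, 2 * θ l i * x l i = h' l i := by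
    intro l hl i hi
    have h2 := (hθ l hl i hi).1
    simp only [hxdef]
    field_simp
  set T' : ℕ → ℝ := fun l => ∑ i ∈ Finset.range (J l), x l i with hT'def
  have hT'le : ∀ l ≤ P, T' l ≤ ∑ j ∈ Finset.range (J l), h j / (2 * θ l j) := by
    intro l hl
    apply Finset.sum_le_sum
    intro i hi
    have h2 := (hθ l hl i (Finset.mem_range.1 hi)).1
    simp only [hxdef]
    gcongr
    exact hh'le l i
  have hT' : ∀ l ≤ P, 0 < T' l ∧ T' l < 1 := by
    intro l hl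
    refine ⟨?_, (hT'le l hl).trans_lt (hτ l hl)⟩
    apply Finset.sum_pos
    · intro i hi
      exact hxpos l hl i (Finset.mem_range.1 hi)
    · exact ⟨0, Finset.mem_range.2 (hJ l hl)⟩
  set Hl : ℕ → ℝ := fun l => ∑ j ∈ Finset.range (J l), h j - ε' with hHl
  have hh'sum : ∀ l ≤ P, ∑ i ∈ Finset.range (J l), h' l i = Hl l := by
    intro l hl
    exact sum_modify (J l) (hJ l hl) h ε'
  have hκR : ∀ l ≤ P, (1:ℝ) ≤ κ l := fun l hl => by exact_mod_cast hκ1 l hl
  have hVl : ∀ l ≤ P, V < Hl l - ((κ l : ℝ) - 1 / 2) * T' l := by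
    intro l hl
    have h1 := (hε'h l hl).2
    have h2 := mul_le_mul_of_nonneg_left (hT'le l hl)
      (by have := hκR l hl; linarith : 0 ≤ (κ l : ℝ) - 1 / 2)
    simp only [hHl]
    linarith
  -- a, W
  set W : ℕ → ℝ := fun l => ‖f (ζ l)‖ with hWdef
  have hW0 : ∀ l ≤ P, 0 < W l := fun l hl => norm_pos_iff.2 (hf0 _ (hζ l hl).le)
  have hWM : ∀ l ≤ P, W l ≤ M₀ := fun l hl => (hfM _ (hζ l hl).le).le
  set a : ℕ → ℝ := fun l => (W l / Cs) ^ (1 / (2 * δ)) with hadef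
  have ha0 : ∀ l ≤ P, 0 < a l := fun l hl => Real.rpow_pos_of_pos (div_pos (hW0 l hl) hCs0) _
  have hc1 : c < 1 := by linarith
  have hac : ∀ l ≤ P, a l ≤ c := by
    intro l hl
    have h1 : W l / Cs ≤ c ^ 2 := by
      rw [hCs, div_le_iff₀ (by positivity)]
      have : c ^ 2 * (M₀ / c ^ 2) = M₀ := by field_simp
      rw [this]
      exact hWM l hl
    have h2 : a l ≤ (c ^ 2) ^ (1 / (2 * δ)) :=
      Real.rpow_le_rpow (div_pos (hW0 l hl) hCs0).le h1 (by positivity)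
    have h3 : (c ^ 2) ^ (1 / (2 * δ)) = c ^ (1 / δ) := by
      rw [← Real.rpow_natCast, ← Real.rpow_mul hc0.le]
      congr 1
      push_cast
      field_simp
    have h4 : c ^ (1 / δ) ≤ c ^ (1:ℝ) := by
      apply Real.rpow_le_rpow_of_exponent_ge hc0 hc1.le
      rw [le_div_iff₀ hδ]
      linarith
    rw [Real.rpow_one] at h4
    linarith
  have ha1 : ∀ l ≤ P, a l ≤ 1 := fun l hl => (hac l hl).trans hc1.le
  have hainv : ∀ l ≤ P, (1 / a l) ^ (2 * δ) = Cs / W l := by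
    intro l hl
    have h1 : a l ^ (2 * δ) = W l / Cs := by
      simp only [hadef]
      rw [← Real.rpow_mul (div_pos (hW0 l hl) hCs0).le]
      have : 1 / (2 * δ) * (2 * δ) = 1 := by field_simp
      rw [this, Real.rpow_one]
    rw [Real.div_rpow zero_le_one (ha0 l hl).le, Real.one_rpow, h1, one_div_div]
  -- constants K₀, T₀
  set K : ℕ → ℝ := fun l => 1 / (d * a l) with hKdef
  have hK : ∀ l ≤ P, 0 < K l := fun l hl => by
    have := ha0 l hl
    simp only [hKdef]; positivity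
  set kE : ℕ → ℝ := fun l => cf * Cs / W l with hkEdef
  have hkE : ∀ l ≤ P, 0 < kE l := fun l hl => by
    have := hW0 l hl
    simp only [hkEdef]; positivity
  set kE' : ℕ → ℝ := fun l => kE l * (1 + (κ l : ℝ)) ^ (-(2 * T)) with hkE'def
  have hkE' : ∀ l ≤ P, 0 < kE' l := fun l hl => by
    have h1 := hkE l hl
    have h2 : 0 < (1 + (κ l : ℝ)) ^ (-(2 * T)) := Real.rpow_pos_of_pos (by positivity) _
    simp only [hkE'def]; positivity
  obtain ⟨K₀, hK₀1, hK₀ρ, hK₀K⟩ : ∃ K₀ : ℝ, 1 ≤ K₀ ∧ 2 / (ρf - 1) ≤ K₀ ∧ ∀ l ≤ P, K l ≤ K₀ := by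
    refine ⟨1 + 2 / (ρf - 1) + ∑ l ∈ Finset.range (P + 1), K l, ?_, ?_, ?_⟩
    · have h1 : 0 ≤ 2 / (ρf - 1) := by
        have : 0 < ρf - 1 := by linarith
        positivity
      have h2 : 0 ≤ ∑ l ∈ Finset.range (P + 1), K l :=
        Finset.sum_nonneg fun l hl => (hK l (by have := Finset.mem_range.1 hl; omega)).le
      linarith
    · have h2 : 0 ≤ ∑ l ∈ Finset.range (P + 1), K l :=
        Finset.sum_nonneg fun l hl => (hK l (by have := Finset.mem_range.1 hl; omega)).le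
      linarith
    · intro l hl
      have h1 : 0 ≤ 2 / (ρf - 1) := by
        have : 0 < ρf - 1 := by linarith
        positivity
      have h2 : K l ≤ ∑ l ∈ Finset.range (P + 1), K l :=
        Finset.single_le_sum (f := K)
          (fun l hl => (hK l (by have := Finset.mem_range.1 hl; omega)).le)
          (Finset.mem_range.2 (by omega))
      linarith
  have hK₀0 : 0 < K₀ := by linarith
  obtain ⟨T₀, hT₀1, hT₀0, hT₀T⟩ : ∃ T₀ : ℝ, T₀ < 1 ∧ 0 ≤ T₀ ∧ ∀ l ≤ P, T' l ≤ T₀ := by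
    obtain ⟨e, he0, he⟩ : ∃ e : ℝ, 0 < e ∧ (e < 1 ∧ ∀ l ≤ P, e < 1 - T' l) := by
      apply exists_small
      apply (ev_lt (g := fun x => x) continuousAt_id (by norm_num)).and
      apply finite_eps
      intro l hl
      apply ev_lt (g := fun x => x) continuousAt_id
      have := (hT' l hl).2
      linarith
    refine ⟨1 - e, by linarith, by linarith [he.1], fun l hl => ?_⟩
    have := he.2 l hl
    linarith
  obtain ⟨A, hA, hcar⟩ := CarCoeff.car_coeff P f ρf hρf hfd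
  set a0 : ℕ := ⌈2 * T⌉₊ with ha0def
  have ha0T : 2 * T ≤ a0 := Nat.le_ceil _
  obtain ⟨Cosc, hCosc, hosc⟩ := osc_termA a0 T hT0 ha0T
  set D : ℝ := 2 * (T * ((Jm : ℝ) + 1)) with hD
  have hD0 : 0 ≤ D := by positivity
  -- Hankel constant
  set μ : ℕ → ℂ := fun l => (starRingEnd ℂ) (ζ l) with hμdef
  have hμn : ∀ l ≤ P, ‖μ l‖ = 1 := fun l hl => by
    simp only [hμdef]; rw [RCLike.norm_conj, hζ l hl]
  have hμ0 : ∀ l ≤ P, μ l ≠ 0 := fun l hl h0 => by
    have := hμn l hl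
    rw [h0, norm_zero] at this
    exact zero_ne_one this
  have hμμ : ∀ l ≤ P, ∀ l' ≤ P, l ≠ l' → μ l ≠ μ l' := fun l hl l' hl' hne heq =>
    hζ' l hl l' hl' hne ((starRingEnd ℂ).injective heq)
  obtain ⟨c₀, hc₀, hhank⟩ := hankel_cluster P m κ hκm μ hμ0 hμμ
  set δ' : ℝ := c₀ / (2 * (P + 1)) with hδ'def
  have hδ' : 0 < δ' := by positivity
  obtain ⟨L₀', hL₀'⟩ := exists_L m δ' hδ'
  set L₀ : ℕ := max (2 * m + 1) L₀' with hL₀def
  have hevn := eventual_paramsA P a0 L₀ (m + 1) κ T' K kE' Hl V ε' Cosc A ω c r (ε / 2) K₀ T₀ D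
    (1 / c₀) (c₀ / 2) hκ1 (by omega) hT' hK hkE'
    hVl hε' hCosc hω0 hc0 hr0 hr1 (by positivity) hK₀0 hT₀1 (by positivity) (by positivity)
  obtain ⟨n, hn1, hn⟩ := ((Filter.eventually_ge_atTop (max n₀ 1)).and hevn).exists
  have hnn₀ : n₀ ≤ n := (le_max_left _ _).trans hn1
  have hn1' : 1 ≤ n := (le_max_right _ _).trans hn1
  have hnR : (1:ℝ) ≤ (n:ℝ) := by exact_mod_cast hn1'
  have hnR0 : (0:ℝ) < (n:ℝ) := by linarith
  obtain ⟨hnl, hnε', hncar⟩ := hn
  set X : ℝ := 1 / c₀ * (n:ℝ) ^ (-1 / 2 + V) with hX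
  have hX0 : 0 < X := by
    have := Real.rpow_pos_of_pos hnR0 (-1 / 2 + V)
    positivity
  set L : ℕ → ℕ := fun l => ⌈K l * (n:ℝ) ^ (T' l)⌉₊ with hL
  set M : ℕ → ℕ := fun l => n - a0 * L l with hM
  have hLm : ∀ l ≤ P, 2 * m + 1 ≤ L l := fun l hl => (le_max_left _ _).trans (hnl l hl).1
  have hLL : ∀ l ≤ P, L₀' ≤ L l := fun l hl => (le_max_right _ _).trans (hnl l hl).1
  have hL1 : ∀ l ≤ P, 1 ≤ L l := fun l hl => by have := hLm l hl; omega
  have hL4 : ∀ l ≤ P, 2 * (a0 * L l) + 2 * L l ≤ n := fun l hl => by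
    have h1 := (hnl l hl).2.1
    have h2 : 2 * (a0 * L l) + 2 * L l = (2 * a0 + 2) * L l := by ring
    rw [h2]; exact h1
  have hMn : ∀ l ≤ P, M l + a0 * L l = n := fun l hl => by
    have := hL4 l hl
    simp only [hM]; omega
  have hLM : ∀ l ≤ P, L l ≤ M l := fun l hl => by
    have := hL4 l hl
    have := hMn l hl
    omega
  have hMhalf : ∀ l ≤ P, n / 2 ≤ M l := fun l hl => by
    have := hL4 l hl
    have := hMn l hl
    omega
  -- scales
  set e : ℕ → ℕ → ℝ := fun l => scl d (a l) (x l) n with hedef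
  have he : ∀ l ≤ P, ∀ k ≤ J l + 1, 0 < e l k := fun l hl k _ => scl_pos hd (ha0 l hl) hnR k
  have hdec : ∀ l ≤ P, ∀ k < J l + 1, e l (k + 1) ≤ e l k := fun l hl k hk =>
    scl_dec hd (ha0 l hl) (ha1 l hl) hnR k (fun i hi => (hxpos l hl i (by omega)).le)
  have hθnn : ∀ l ≤ P, ∀ k < J l + 1, 0 ≤ rat δ (θ l) k := by
    intro l hl k hk
    cases k with
    | zero => exact hδ.le
    | succ k => exact (hθ l hl k (by omega)).1.le
  have hθ1 : ∀ l ≤ P, ∀ k < J l + 1, rat δ (θ l) k ≤ T := by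
    intro l hl k hk
    cases k with
    | zero => exact hδT
    | succ k => exact (hθ l hl k (by omega)).2
  have hθmono : ∀ l ≤ P, ∀ k, k + 1 < J l + 1 → rat δ (θ l) k ≤ rat δ (θ l) (k + 1) := by
    intro l hl k hk
    cases k with
    | zero => exact (hδθ l hl).le
    | succ k => exact hmono l hl k (by omega)
  have hlevk : ∀ l ≤ P, ∀ k ≤ J l, lev (e l) (rat δ (θ l)) (k + 1) =
      Cs / W l * (n:ℝ) ^ (∑ i ∈ Finset.range k, h' l i) := by
    intro l hl k hk
    rw [← hainv l hl]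
    exact lev_scl hd (ha0 l hl) hnR k (fun i hi => hx2 l hl i (by omega))
  have hlevJ : ∀ l ≤ P, lev (e l) (rat δ (θ l)) (J l + 1) = Cs / W l * (n:ℝ) ^ (Hl l) := by
    intro l hl
    rw [hlevk l hl (J l) le_rfl, hh'sum l hl]
  have heJ : ∀ l ≤ P, e l (J l + 1) = 1 / (K l * (n:ℝ) ^ (T' l)) := by
    intro l hl
    have := ha0 l hl
    simp only [hedef, scl, hKdef, hT'def]
    rw [Real.rpow_neg hnR0.le]
    field_simp
  have he0 : ∀ l, e l 0 = d := fun l => rfl
  set H : ℕ → ℂ → ℂ := fun l => prof (J l + 1) (e l) (rat δ (θ l)) with hH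
  set car : ℂ → ℂ := fun z => f z * ∏ l ∈ Finset.range (P + 1), H l (1 - (starRingEnd ℂ) (ζ l) * z)
    with hcardef
  set IX : Finset (Σ _ : ℕ, ℕ) := (Finset.range (P + 1)).sigma (fun l => Finset.range (κ l)) with hIX
  have hIXc : IX.card = m + 1 := by
    rw [hIX, Finset.card_sigma]
    simp only [Finset.card_range]
    exact hκm
  have hIXm : ∀ x ∈ IX, x.1 ≤ P ∧ x.2 < κ x.1 := by
    intro x hx
    rw [hIX, Finset.mem_sigma] at hx
    have h1 := Finset.mem_range.1 hx.1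
    exact ⟨by omega, Finset.mem_range.1 hx.2⟩
  set O : ℂ → ℂ := fun z => ∑ x ∈ IX, amp a0 (L x.1) (κ x.1) X x.2 * z ^ M x.1 *
    kernA a0 (L x.1) (μ x.1 * rt (L x.1) ^ x.2 * z) with hO
  have hre : ∀ l ≤ P, ∀ z : ℂ, 1 - ‖z‖ ≤ (1 - (starRingEnd ℂ) (ζ l) * z).re := by
    intro l hl z
    have h1 : ‖(starRingEnd ℂ) (ζ l) * z‖ = ‖z‖ := by
      rw [norm_mul, RCLike.norm_conj, hζ l hl, one_mul]
    have h2 := Complex.re_le_norm ((starRingEnd ℂ) (ζ l) * z)
    rw [Complex.sub_re, Complex.one_re]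
    linarith
  have hnq : ∀ l ≤ P, ∀ z : ℂ, 1 - ‖z‖ ≤ ‖1 - (starRingEnd ℂ) (ζ l) * z‖ := by
    intro l hl z
    exact (hre l hl z).trans (Complex.re_le_norm _)
  have hnq3 : ∀ l ≤ P, ∀ z : ℂ, ‖1 - (starRingEnd ℂ) (ζ l) * z‖ ≤ 1 + ‖z‖ := by
    intro l hl z
    have h1 : ‖(starRingEnd ℂ) (ζ l) * z‖ = ‖z‖ := by
      rw [norm_mul, RCLike.norm_conj, hζ l hl, one_mul]
    calc _ ≤ ‖(1:ℂ)‖ + ‖(starRingEnd ℂ) (ζ l) * z‖ := norm_sub_le _ _
      _ = _ := by rw [h1, norm_one]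
  have hHge : ∀ l ≤ P, ∀ q : ℂ, 0 ≤ q.re → 1 ≤ ‖H l q‖ := fun l hl q hq =>
    (ProfBasic.prof_bounds (J l + 1) (e l) (rat δ (θ l)) (he l hl) (hθnn l hl) (hdec l hl) q hq).1
  have hHdiff : ∀ l ≤ P, ∀ q : ℂ, -(e l (J l + 1)) < q.re → DifferentiableAt ℂ (H l) q :=
    fun l hl q hq => (ProfBasic.prof_hasDerivAt (J l + 1) (e l) (rat δ (θ l)) (he l hl)
      (hdec l hl) q hq).differentiableAt
  have heJ0 : ∀ l ≤ P, 0 < e l (J l + 1) := fun l hl => he l hl _ le_rfl
  have hHge' : ∀ z : ℂ, ‖z‖ ≤ 1 → ∀ l ∈ Finset.range (P + 1),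
      1 ≤ ‖H l (1 - (starRingEnd ℂ) (ζ l) * z)‖ := by
    intro z hz l hl
    have hl' : l ≤ P := by have := Finset.mem_range.1 hl; omega
    exact hHge l hl' _ (le_trans (by linarith) (hre l hl' z))
  -- carrier lower bound
  have hcarlow : ∀ z : ℂ, ‖z‖ ≤ 1 → cf ≤ ‖car z‖ := by
    intro z hz
    simp only [hcardef]
    rw [norm_mul, norm_prod]
    have h1 : 1 ≤ ∏ l ∈ Finset.range (P + 1), ‖H l (1 - (starRingEnd ℂ) (ζ l) * z)‖ :=
      ProfBasic.one_le_prod_real _ _ (hHge' z hz)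
    have h2 := hfcf z hz
    exact aux_le_mul hcf.le h2 h1
  have hlow : ∀ l ≤ P, ∀ z ∈ ball (0:ℂ) 1,
      kE l * (n:ℝ) ^ (Hl l) * (1 + (L l : ℝ) * ‖1 - (starRingEnd ℂ) (ζ l) * z‖) ^ (-(2 * T))
        ≤ ‖car z‖ := by
    intro l hl z hz
    have hz' : ‖z‖ < 1 := by simpa using hz
    set qq : ℂ := 1 - (starRingEnd ℂ) (ζ l) * z with hqq
    have hqre : 0 ≤ qq.re := le_trans (by linarith) (hre l hl z)
    have h1 := ProfGrowth.prof_growth (J l + 1) (e l) (rat δ (θ l)) (he l hl) (hθnn l hl)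
      (hdec l hl) T hT0.le (hθ1 l hl) qq hqre
    rw [hlevJ l hl] at h1
    have h2 : ‖qq‖ / e l (J l + 1) ≤ (L l : ℝ) * ‖qq‖ := by
      rw [heJ l hl]
      have h3 : K l * (n:ℝ) ^ (T' l) ≤ L l := Nat.le_ceil _
      have h4 : ‖qq‖ / (1 / (K l * (n:ℝ) ^ (T' l))) = K l * (n:ℝ) ^ (T' l) * ‖qq‖ := by
        rw [div_div_eq_mul_div, div_one, mul_comm]
      rw [h4]
      gcongr
    have h5 : (1 + (L l : ℝ) * ‖qq‖) ^ (-(2 * T)) ≤ (1 + ‖qq‖ / e l (J l + 1)) ^ (-(2 * T)) := by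
      apply Real.rpow_le_rpow_of_nonpos
      · have := heJ0 l hl
        positivity
      · linarith
      · linarith
    have hWl := hW0 l hl
    have hnH : 0 < (n:ℝ) ^ (Hl l) := Real.rpow_pos_of_pos hnR0 _
    have h6 : Cs / W l * (n:ℝ) ^ (Hl l) * (1 + (L l : ℝ) * ‖qq‖) ^ (-(2 * T)) ≤ ‖H l qq‖ := by
      refine le_trans ?_ h1
      gcongr
    have h7 : ‖H l qq‖ ≤ ∏ l ∈ Finset.range (P + 1), ‖H l (1 - (starRingEnd ℂ) (ζ l) * z)‖ := by
      have hmem : l ∈ Finset.range (P + 1) := Finset.mem_range.2 (by omega)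
      rw [← Finset.mul_prod_erase _ _ hmem]
      have h8 : 1 ≤ ∏ x ∈ (Finset.range (P + 1)).erase l, ‖H x (1 - (starRingEnd ℂ) (ζ x) * z)‖ :=
        ProfBasic.one_le_prod_real _ _ (fun i hi => hHge' z hz'.le i (Finset.mem_of_mem_erase hi))
      calc ‖H l qq‖ = ‖H l qq‖ * 1 := (mul_one _).symm
        _ ≤ _ := mul_le_mul_of_nonneg_left h8 (norm_nonneg _)
    simp only [hcardef]
    rw [norm_mul, norm_prod]
    calc kE l * (n:ℝ) ^ (Hl l) * (1 + (L l : ℝ) * ‖qq‖) ^ (-(2 * T))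
        = cf * (Cs / W l * (n:ℝ) ^ (Hl l) * (1 + (L l : ℝ) * ‖qq‖) ^ (-(2 * T))) := by
          simp only [hkEdef]; ring
      _ ≤ ‖f z‖ * ‖H l qq‖ := by
          apply mul_le_mul (hfcf z hz'.le) h6 (by positivity) (norm_nonneg _)
      _ ≤ _ := mul_le_mul_of_nonneg_left h7 (norm_nonneg _)
  obtain ⟨hOd, hO1, hO2⟩ := osc_totalA IX (m + 1) (by omega) hIXc.le a0 Cosc ω T hω0 hosc car
    (fun x => L x.1) (fun x => M x.1) (fun x => μ x.1 * rt (L x.1) ^ x.2)
    (fun x => amp a0 (L x.1) (κ x.1) X x.2) (fun x => 2 ^ (κ x.1) * X * (L x.1 : ℝ) ^ (κ x.1))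
    (fun x => kE' x.1 * (n:ℝ) ^ (Hl x.1))
    (fun x hx => hL1 _ (hIXm x hx).1) (fun x hx => hLM _ (hIXm x hx).1)
    (fun x hx => by rw [norm_mul, norm_pow, rt_norm, one_pow, mul_one, hμn _ (hIXm x hx).1])
    (fun x hx => amp_norm a0 (L x.1) (κ x.1) X hX0.le x.2)
    (fun x hx => mul_pos (hkE' _ (hIXm x hx).1) (Real.rpow_pos_of_pos hnR0 _))
    (fun x hx => by
      have h1 := low_rotate (car := car) (L := L x.1) (c := μ x.1)
        (c' := μ x.1 * rt (L x.1) ^ x.2) (E := kE x.1 * (n:ℝ) ^ (Hl x.1)) (T := T) (k := κ x.1)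
        (mul_pos (hkE _ (hIXm x hx).1) (Real.rpow_pos_of_pos hnR0 _)).le hT0.le
        (Nat.cast_nonneg _) (by
          refine (rt_close (L x.1) x.2 (hL1 _ (hIXm x hx).1) (μ x.1) (hμn _ (hIXm x hx).1)).trans ?_
          exact_mod_cast (hIXm x hx).2.le) (hlow _ (hIXm x hx).1)
      intro z hz
      have h2 := h1 z hz
      have h3 : kE' x.1 * (n:ℝ) ^ (Hl x.1) =
          kE x.1 * (n:ℝ) ^ (Hl x.1) * (1 + (κ x.1 : ℝ)) ^ (-(2 * T)) := by
        simp only [hkE'def]; ring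
      simp only [h3]
      exact h2)
    (fun x hx => (hnl _ (hIXm x hx).1).2.2.1)
    (fun x hx => by
      refine le_trans ?_ (hnl _ (hIXm x hx).1).2.2.2.1
      have hxP := (hIXm x hx).1
      have h1 : (M x.1 : ℝ) ≤ n := by
        have := hMn _ hxP
        exact_mod_cast (by omega : M x.1 ≤ n)
      have h2 := mul_pos (hkE' _ hxP) (Real.rpow_pos_of_pos hnR0 (Hl x.1))
      have h3 : (0:ℝ) < L x.1 := by exact_mod_cast (hL1 _ hxP)
      have h4 : (2 ^ (κ x.1) * X * (L x.1 : ℝ) ^ (κ x.1)) ^ 2 * (M x.1 : ℝ) /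
          ((L x.1 : ℝ) * (kE' x.1 * (n:ℝ) ^ (Hl x.1)) ^ 2) ≤
          (2 ^ (κ x.1) * X * (L x.1 : ℝ) ^ (κ x.1)) ^ 2 * (n : ℝ) /
          ((L x.1 : ℝ) * (kE' x.1 * (n:ℝ) ^ (Hl x.1)) ^ 2) := by
        gcongr
      exact mul_le_mul_of_nonneg_left h4 hCosc.le)
  set g : ℂ → ℂ := fun z => car z + O z with hg
  -- η
  set η : ℝ := 1 / (K₀ * (n:ℝ) ^ T₀) with hη
  have hnT₀ : 1 ≤ (n:ℝ) ^ T₀ := Real.one_le_rpow hnR hT₀0
  have hη0 : 0 < η := by positivity
  have hη1 : η ≤ 1 := by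
    rw [hη, div_le_one (by positivity)]
    exact aux_one_le_mul hK₀1 hnT₀
  have hηρ : η ≤ (ρf - 1) / 2 := by
    have h1 : 0 < ρf - 1 := by linarith
    rw [hη, div_le_iff₀ (by positivity)]
    have h2 : 1 ≤ (ρf - 1) / 2 * K₀ := by
      rw [div_le_iff₀ h1] at hK₀ρ
      linarith
    have h3 : (ρf - 1) / 2 * (K₀ * (n:ℝ) ^ T₀) = (ρf - 1) / 2 * K₀ * (n:ℝ) ^ T₀ := by ring
    rw [h3]
    exact aux_one_le_mul h2 hnT₀
  have hηe : ∀ l ≤ P, η ≤ e l (J l + 1) := by
    intro l hl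
    rw [heJ l hl, hη]
    have h1 := hK l hl
    have h2 := Real.rpow_pos_of_pos hnR0 (T' l)
    apply one_div_le_one_div_of_le (by positivity)
    apply mul_le_mul (hK₀K l hl) _ h2.le hK₀0.le
    exact Real.rpow_le_rpow_of_exponent_le hnR (hT₀T l hl)
  -- analyticity
  have hρ' : 1 < min ρf (1 + η) := lt_min hρf (by linarith)
  have hcard : DifferentiableOn ℂ car (ball 0 (min ρf (1 + η))) := by
    apply DifferentiableOn.mul (hfd.mono (ball_subset_ball (min_le_left _ _)))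
    apply DifferentiableOn.fun_finsetProd
    intro l hl z hz
    have hl' : l ≤ P := by have := Finset.mem_range.1 hl; omega
    have hz' : ‖z‖ < 1 + η := by
      have : ‖z‖ < min ρf (1 + η) := by simpa using hz
      exact this.trans_le (min_le_right _ _)
    apply DifferentiableAt.differentiableWithinAt
    have h1 := hHdiff l hl' (1 - (starRingEnd ℂ) (ζ l) * z) (by
      have := hre l hl' z
      have := hηe l hl'
      linarith)
    have h2 : DifferentiableAt ℂ (fun z : ℂ => 1 - (starRingEnd ℂ) (ζ l) * z) z := by fun_prop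
    exact DifferentiableAt.fun_comp' z h1 h2
  have hgd : DifferentiableOn ℂ g (ball 0 (min ρf (1 + η))) := hcard.add hOd.differentiableOn
  have hsub1 : closedBall (0:ℂ) 1 ⊆ ball 0 (min ρf (1 + η)) := closedBall_subset_ball hρ'
  have hsub2 : ball (0:ℂ) 1 ⊆ ball 0 (min ρf (1 + η)) := ball_subset_ball hρ'.le
  -- zero free
  have hO1' : ∀ z : ℂ, ‖z‖ ≤ 1 → ‖O z‖ ≤ ω * ‖car z‖ := by
    intro z hz
    have hcl : z ∈ closure (ball (0:ℂ) 1) := by
      rw [closure_ball _ one_ne_zero]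
      simpa using hz
    have hzb : z ∈ ball (0:ℂ) (min ρf (1 + η)) := hsub1 (by simpa using hz)
    have hcc : ContinuousWithinAt (fun z => ω * ‖car z‖) (ball (0:ℂ) 1) z :=
      (continuousWithinAt_const.mul (((hcard z hzb).continuousWithinAt).norm)).mono hsub2
    exact ContinuousWithinAt.closure_le hcl (hOd.continuous.norm.continuousWithinAt) hcc
      (fun y hy => hO1 y hy)
  have hg0 : ∀ z : ℂ, ‖z‖ ≤ 1 → g z ≠ 0 := by
    intro z hz h0
    have h1 := hO1' z hz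
    have h2 := hcarlow z hz
    have h3 : car z = -O z := by
      have : car z + O z = 0 := h0
      linear_combination this
    rw [h3, norm_neg] at h1 h2
    exact aux_false hω2 hcf h1 h2
  -- area
  have harea : AreaBound p₂ g := by
    refine area_final P Jm J θ q p₁ p₂ δ ε₁ M₀ (c * Cs) n h f g W hJle hq hqp.le hδ.le hδε.le hε₁ hh
      hnR (fun l hl j hj => (hθ l hl j hj).1.le) hsum hM₀ ?_ hW0 hWM hε₁p.le
      (fun z hz => hfM z hz.le) hfab (hgd.mono hsub2) ?_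
    · rw [hCs]
      have : c * (M₀ / c ^ 2) = M₀ / c := by field_simp
      rw [this, le_div_iff₀ hc0]
      exact aux_mul_le hM₀.le hc1.le
    · intro R hR
      refine hasm H O (fun l R => ENNReal.ofReal (π * (1 + ε₁) *
        ∑ k ∈ Finset.range (J l + 1), rat δ (θ l) k *
                (min R (bet (c * Cs / W l) h n (k + 1)) ^ 2 -
                  min R (bet (c * Cs / W l) h n k) ^ 2))) ?_ ?_ ?_ hOd.differentiableOn ?_ ?_ R hR
      · intro l hl q hq
        exact ⟨hHdiff l hl q (by have := heJ0 l hl; linarith), hHge l hl q hq.le⟩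
      · intro l hl q hq hκq
        have hq0 : q ≠ 0 := by
          rintro rfl
          simp at hq
        have hsmall : 2 * T * e l 0 ≤ ‖q‖ := by
          rw [he0]
          linarith
        have h1 := ProfBasic.prof_far (J l + 1) (e l) (rat δ (θ l)) (he l hl) (hθnn l hl)
          (hdec l hl) T (hθ1 l hl) hT0.le q hq.le hq0 hsmall
        rw [he0] at h1
        have hq' : 0 < ‖q‖ := norm_pos_iff.2 hq0
        constructor
        · refine h1.1.trans ?_
          have : 4 * T * d / ‖q‖ ≤ 4 * T * d / κ₀ := by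
            gcongr
          linarith
        · refine h1.2.trans ?_
          have : 6 * T * d / ‖q‖ ^ 2 ≤ 6 * T * d / κ₀ ^ 2 := by
            gcongr
          linarith
      · intro l hl R
        have hWl := hW0 l hl
        refine hpack (J l + 1) (e l) (rat δ (θ l)) (bet (c * Cs / W l) h n) (by omega)
          (by have := hJle l hl; omega) (he l hl) (hdec l hl) rfl (hθmono l hl) (hθ1 l hl) ?_ rfl
          ?_ ?_ ?_ R
        · rw [he0]
          simp only [hedef, scl_one]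
          have := hac l hl
          rw [mul_comm c d]
          exact mul_le_mul_of_nonneg_left this hd.le
        · intro k _
          apply bet_mono _ hnR hh k
          rw [le_div_iff₀ hWl, one_mul]
          have h1 := hWM l hl
          have h2 : M₀ ≤ c * Cs := by
            rw [hCs]
            have : c * (M₀ / c ^ 2) = M₀ / c := by field_simp
            rw [this, le_div_iff₀ hc0]
            exact aux_mul_le hM₀.le hc1.le
          linarith
        · intro k hk1 hk2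
          obtain ⟨k', rfl⟩ : ∃ k', k = k' + 1 := ⟨k - 1, by omega⟩
          rw [hlevk l hl k' (by omega)]
          have : ∑ i ∈ Finset.range k', h' l i = ∑ i ∈ Finset.range k', h i := by
            apply Finset.sum_congr rfl
            intro i hi
            have := Finset.mem_range.1 hi
            simp only [hh'def]
            rw [if_neg (by omega)]
          rw [this]
          simp only [bet]
          apply le_of_eq
          ring
        · rw [hlevJ l hl]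
          simp only [bet, hHl]
          rw [sub_eq_add_neg, Real.rpow_add hnR0]
          have h1 := Real.rpow_pos_of_pos hnR0 (∑ j ∈ Finset.range (J l), h j)
          calc Cs / W l * ((n:ℝ) ^ (∑ j ∈ Finset.range (J l), h j) * (n:ℝ) ^ (-ε')) ≤
              Cs / W l * ((n:ℝ) ^ (∑ j ∈ Finset.range (J l), h j) * c) := by gcongr
            _ = _ := by ring
      · intro z hz
        refine (hO1 z hz).trans ?_
        gcongr
      · intro R hR
        refine (hO2 R hR).trans ?_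
        apply ENNReal.ofReal_le_ofReal
        gcongr
  -- closeness
  have hOsmall : ∀ z : ℂ, ‖z‖ ≤ r → ‖O z‖ ≤ ε / 2 := by
    intro z hz
    have hz1 : ‖z‖ ≤ 1 := by linarith
    have h1 : ∀ x ∈ IX, ‖amp a0 (L x.1) (κ x.1) X x.2 * z ^ M x.1 *
        kernA a0 (L x.1) (μ x.1 * rt (L x.1) ^ x.2 * z)‖ ≤ (ε / 2) / ((m + 1 : ℕ) : ℝ) := by
      intro x hx
      have hl' := (hIXm x hx).1
      refine le_trans ?_ (hnl _ hl').2.2.2.2
      rw [norm_mul, norm_mul, norm_pow]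
      have hk := (kernA_bound a0 (L x.1) (hL1 _ hl') (μ x.1 * rt (L x.1) ^ x.2 * z) (by
        rw [norm_mul, norm_mul, norm_pow, rt_norm, one_pow, mul_one, hμn _ hl', one_mul]
        exact hz1)).1
      have hp1 : ‖z‖ ^ M x.1 ≤ r ^ (n / 2) :=
        calc ‖z‖ ^ M x.1 ≤ r ^ M x.1 := pow_le_pow_left₀ (norm_nonneg _) hz _
          _ ≤ r ^ (n / 2) := pow_le_pow_of_le_one hr0.le hr1.le (hMhalf _ hl')
      have hamp := amp_norm a0 (L x.1) (κ x.1) X hX0.le x.2
      calc ‖amp a0 (L x.1) (κ x.1) X x.2‖ * ‖z‖ ^ M x.1 *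
          ‖kernA a0 (L x.1) (μ x.1 * rt (L x.1) ^ x.2 * z)‖ ≤
          (2 ^ (κ x.1) * X * (L x.1 : ℝ) ^ (κ x.1)) * r ^ (n / 2) * (a0 + 1) := by gcongr
        _ = _ := by
          simp only [hX, hL]
          ring
    calc ‖O z‖ ≤ ∑ x ∈ IX, (ε / 2) / ((m + 1 : ℕ) : ℝ) :=
          (norm_sum_le _ _).trans (Finset.sum_le_sum h1)
      _ = ε / 2 := by
          rw [Finset.sum_const, hIXc, nsmul_eq_mul]
          have : ((m + 1 : ℕ) : ℝ) ≠ 0 := by positivity
          field_simp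
  have hclose : ∀ z : ℂ, ‖z‖ ≤ r → ‖g z - f z‖ ≤ ε := by
    intro z hz
    have hz1 : ‖z‖ ≤ 1 := by linarith
    have h1r : 0 < 1 - r := by linarith
    have hprod : ‖∏ l ∈ Finset.range (P + 1), (1 + (H l (1 - (starRingEnd ℂ) (ζ l) * z) - 1)) - 1‖ ≤
        Real.exp ((P + 1) * (4 * T * d / (1 - r))) - 1 := by
      refine (Finset.norm_prod_one_add_sub_one_le _ _).trans ?_
      apply sub_le_sub_right
      apply Real.exp_le_exp.2
      calc ∑ l ∈ Finset.range (P + 1), ‖H l (1 - (starRingEnd ℂ) (ζ l) * z) - 1‖ ≤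
          ∑ l ∈ Finset.range (P + 1), 4 * T * d / (1 - r) := by
            apply Finset.sum_le_sum
            intro l hl
            have hl' : l ≤ P := by have := Finset.mem_range.1 hl; omega
            set qq : ℂ := 1 - (starRingEnd ℂ) (ζ l) * z with hqq
            have hqre : 0 ≤ qq.re := le_trans (by linarith) (hre l hl' z)
            have hqn : 1 - r ≤ ‖qq‖ := le_trans (by linarith) (hnq l hl' z)
            have hq0 : qq ≠ 0 := by
              rw [← norm_pos_iff]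
              linarith
            have h1 := (ProfBasic.prof_far (J l + 1) (e l) (rat δ (θ l)) (he l hl') (hθnn l hl')
              (hdec l hl') T (hθ1 l hl') hT0.le qq hqre hq0 (by rw [he0]; linarith)).1
            rw [he0] at h1
            refine h1.trans ?_
            gcongr
        _ = (P + 1) * (4 * T * d / (1 - r)) := by
            rw [Finset.sum_const, Finset.card_range, nsmul_eq_mul]
            push_cast
            ring
    have hprod' : ‖∏ l ∈ Finset.range (P + 1), H l (1 - (starRingEnd ℂ) (ζ l) * z) - 1‖ ≤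
        Real.exp ((P + 1) * (4 * T * d / (1 - r))) - 1 := by
      refine le_trans (le_of_eq ?_) hprod
      congr 2
      apply Finset.prod_congr rfl
      intro l _
      ring
    have h2 : g z - f z = f z * (∏ l ∈ Finset.range (P + 1), H l (1 - (starRingEnd ℂ) (ζ l) * z) - 1)
        + O z := by
      simp only [hg, hcardef]
      ring
    rw [h2]
    calc _ ≤ ‖f z * (∏ l ∈ Finset.range (P + 1), H l (1 - (starRingEnd ℂ) (ζ l) * z) - 1)‖ + ‖O z‖ :=
          norm_add_le _ _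
      _ ≤ M₀ * (Real.exp ((P + 1) * (4 * T * d / (1 - r))) - 1) + ε / 2 := by
          rw [norm_mul]
          apply add_le_add _ (hOsmall z hz)
          exact mul_le_mul (hfM z hz1).le hprod' (norm_nonneg _) hM₀.le
      _ ≤ ε := by linarith
  -- Hankel
  set x' : ℕ → ℂ := fun l => ((X : ℂ) * μ l ^ (a0 * L l)) * (-Complex.I) ^ (κ l - 1) with hx'
  have hx'n : ∀ l ≤ P, X ≤ ‖x' l‖ := by
    intro l hl
    simp only [hx']
    rw [norm_mul, norm_mul, norm_pow, hμn l hl, one_pow, mul_one, Complex.norm_real,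
      Real.norm_of_nonneg hX0.le, norm_pow, norm_neg, Complex.norm_I, one_pow, mul_one]
  have hκle : ∀ l ≤ P, κ l ≤ m + 1 := by
    intro l hl
    rw [← hκm]
    exact Finset.single_le_sum (f := κ) (fun _ _ => Nat.zero_le _) (Finset.mem_range.2 (by omega))
  have hOco : ∀ s ≤ 2 * m, coeff O (n + s) = ∑ l ∈ Finset.range (P + 1),
      ((X : ℂ) * μ l ^ (a0 * L l)) * ((L l : ℂ) * (1 - rt (L l) ^ s)) ^ (κ l - 1) * μ l ^ s := by
    intro s hs
    have h1 : coeff O (n + s) = ∑ x ∈ IX, coeff (fun z : ℂ => amp a0 (L x.1) (κ x.1) X x.2 *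
        z ^ M x.1 * kernA a0 (L x.1) (μ x.1 * rt (L x.1) ^ x.2 * z)) (n + s) := by
      apply coeff_sum_of
      intro x hx
      exact summand_diff a0 (L x.1) (M x.1) (μ x.1 * rt (L x.1) ^ x.2) _
    rw [h1, hIX, Finset.sum_sigma]
    apply Finset.sum_congr rfl
    intro l hl
    have hl' : l ≤ P := by have := Finset.mem_range.1 hl; omega
    exact cluster_coeff a0 (L l) (M l) n (κ l) (hL1 l hl') (hκ1 l hl') (hMn l hl') (μ l) X s
      (by have := hLm l hl'; omega)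
  have hgO : ∀ s ≤ 2 * m, ‖coeff g (n + s) - ∑ l ∈ Finset.range (P + 1),
      x' l * (s:ℂ) ^ (κ l - 1) * μ l ^ s‖ ≤ ‖coeff car (n + s)‖ + c₀ / 2 * X := by
    intro s hs
    have h1 : coeff g (n + s) = coeff car (n + s) + coeff O (n + s) :=
      coeff_add_of (ρ := 1) one_pos (hcard.mono hsub2) hOd.differentiableOn _
    have h2 : coeff g (n + s) - ∑ l ∈ Finset.range (P + 1), x' l * (s:ℂ) ^ (κ l - 1) * μ l ^ s =
        coeff car (n + s) + ∑ l ∈ Finset.range (P + 1), ((X : ℂ) * μ l ^ (a0 * L l)) *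
          (((L l : ℂ) * (1 - rt (L l) ^ s)) ^ (κ l - 1) - (-(Complex.I * s)) ^ (κ l - 1)) *
            μ l ^ s := by
      rw [h1, hOco s hs, add_sub_assoc, ← Finset.sum_sub_distrib]
      congr 1
      apply Finset.sum_congr rfl
      intro l _
      simp only [hx']
      rw [← neg_mul, mul_pow]
      ring
    rw [h2]
    refine (norm_add_le _ _).trans (add_le_add le_rfl ?_)
    calc _ ≤ ∑ l ∈ Finset.range (P + 1), ‖((X : ℂ) * μ l ^ (a0 * L l)) *
          (((L l : ℂ) * (1 - rt (L l) ^ s)) ^ (κ l - 1) - (-(Complex.I * s)) ^ (κ l - 1)) *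
            μ l ^ s‖ := norm_sum_le _ _
      _ ≤ ∑ l ∈ Finset.range (P + 1), X * δ' := by
          apply Finset.sum_le_sum
          intro l hl
          have hl' : l ≤ P := by have := Finset.mem_range.1 hl; omega
          rw [norm_mul, norm_mul, norm_mul, norm_pow, norm_pow, hμn l hl', one_pow, one_pow,
            mul_one, mul_one, Complex.norm_real, Real.norm_of_nonneg hX0.le]
          exact mul_le_mul_of_nonneg_left (hL₀' (L l) (hLL l hl') s hs (κ l - 1)
            (by have := hκle l hl'; omega)) hX0.le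
      _ = c₀ / 2 * X := by
          rw [Finset.sum_const, Finset.card_range, nsmul_eq_mul, hδ'def]
          push_cast
          field_simp
  have hcarn : ∀ s ≤ 2 * m, ‖coeff car (n + s)‖ ≤ c₀ / 2 * X := by
    intro s _
    have hG1 : (1:ℝ) ≤ (8 * (K₀ * (n:ℝ) ^ T₀)) ^ D := by
      apply Real.one_le_rpow _ hD0
      have := aux_one_le_mul hK₀1 hnT₀
      linarith
    have h1 := hcar H ζ η ((8 * (K₀ * (n:ℝ) ^ T₀)) ^ D) hη0 hη1 hηρ hG1 hζ
      (fun l hl q hq => hHdiff l hl q (by have := hηe l hl; linarith))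
      (fun l hl q hq hq3 => by
        have h2 := ProfGrowth.prof_big (J l + 1) (e l) (rat δ (θ l)) (he l hl)
          (by rw [he0]; linarith) (hθnn l hl) (hdec l hl) q
          (by have := hηe l hl; linarith) hq3
        refine h2.trans ?_
        have h3 : 8 / e l (J l + 1) ≤ 8 * (K₀ * (n:ℝ) ^ T₀) := by
          have h4 := hηe l hl
          have h5 : 8 * (K₀ * (n:ℝ) ^ T₀) = 8 / η := by
            rw [hη, div_div_eq_mul_div, div_one]
          rw [h5]
          gcongr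
        have h8 : 1 ≤ 8 * (K₀ * (n:ℝ) ^ T₀) := by
          have := aux_one_le_mul hK₀1 hnT₀
          linarith
        have h6 : ∑ k ∈ Finset.range (J l + 1), rat δ (θ l) k ≤ T * ((Jm : ℝ) + 1) := by
          calc _ ≤ ∑ k ∈ Finset.range (J l + 1), T :=
                Finset.sum_le_sum fun k hk => hθ1 l hl k (Finset.mem_range.1 hk)
            _ = T * ((J l : ℝ) + 1) := by
              rw [Finset.sum_const, Finset.card_range, nsmul_eq_mul]; push_cast; ring
            _ ≤ _ := by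
              have := hJle l hl
              have : (J l : ℝ) ≤ Jm := by exact_mod_cast this
              apply mul_le_mul_of_nonneg_left _ hT0.le
              linarith
        have h7 : 0 ≤ ∑ k ∈ Finset.range (J l + 1), rat δ (θ l) k :=
          Finset.sum_nonneg fun k hk => hθnn l hl k (Finset.mem_range.1 hk)
        have h9 : 0 ≤ 8 / e l (J l + 1) := by
          have := heJ0 l hl
          positivity
        calc (8 / e l (J l + 1)) ^ (2 * ∑ k ∈ Finset.range (J l + 1), rat δ (θ l) k) ≤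
            (8 * (K₀ * (n:ℝ) ^ T₀)) ^ (2 * ∑ k ∈ Finset.range (J l + 1), rat δ (θ l) k) :=
              Real.rpow_le_rpow h9 h3 (by positivity)
          _ ≤ (8 * (K₀ * (n:ℝ) ^ T₀)) ^ D := by
              apply Real.rpow_le_rpow_of_exponent_le h8
              rw [hD]
              linarith) (n + s)
    refine h1.trans (le_trans ?_ hncar)
    apply mul_le_mul_of_nonneg_left _ (by positivity)
    apply Real.exp_le_exp.2
    have h10 : (n:ℝ) * η ≤ ((n + s : ℕ) : ℝ) * η := by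
      apply mul_le_mul_of_nonneg_right _ hη0.le
      push_cast
      have : (0:ℝ) ≤ s := Nat.cast_nonneg _
      linarith
    have h11 : (n:ℝ) * (1 / (K₀ * (n:ℝ) ^ T₀)) = n * η := rfl
    rw [h11]
    linarith
  have hcX : c₀ * X = (n:ℝ) ^ (-1 / 2 + V) := by
    rw [hX]; field_simp
  have hH' : HankelLB m n g ((n:ℝ) ^ (-1 / 2 + V)) := by
    intro c B hcB
    obtain ⟨j, hj, hjX⟩ := hhank (fun t => coeff g (n + t)) X x' hX0 hx'n (by
      intro s hs
      refine (hgO s hs).trans ?_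
      have := hcarn s hs
      linarith) hκ1 c B hcB
    refine ⟨j, hj, ?_⟩
    rw [← hcX]
    simpa only [Nat.add_assoc] using hjX
  exact ⟨g, n, ⟨⟨_, hρ', hgd⟩, hg0, harea⟩, hnn₀, hclose, hH'⟩

end Pool.Agent.H195.ML
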