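import Mathlib
import Pool.Graph.R_seed8.Helper772.MV.Upper
import Pool.Graph.R_seed8.Helper772.MV.Glue
import Pool.Agent.H195.ML.StepA

open MeasureTheory Metric Set
open scoped ENNReal Real

namespace Pool.Agent.H195.ML

open MeanVal

/-- lower bound theorem: a strict schedule of total rate `≤ q < p` excludes exponents -/
theorem not_admissible_of_cluster (P m : ℕ) (κ : ℕ → ℕ) (hκ1 : ∀ l ≤ P, 1 ≤ κ l)
    (hκm : ∑ l ∈ Finset.range (P + 1), κ l = m + 1) (J : ℕ → ℕ) (h : ℕ → ℝ) (θ : ℕ → ℕ → ℝ)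
    (p q V α T : ℝ) (hT1 : 1 ≤ T)
    (hq : 0 < q) (hqp : q < p)
    (hJ : ∀ l ≤ P, 1 ≤ J l) (hh : ∀ j, 0 < h j)
    (hθ : ∀ l ≤ P, ∀ j < J l, 0 < θ l j ∧ θ l j ≤ T)
    (hmono : ∀ l ≤ P, ∀ j, j + 1 < J l → θ l j ≤ θ l (j + 1))
    (hsum : ∀ j, ∑ l ∈ Finset.range (P + 1), (if j < J l then θ l j else 0) ≤ q)
    (hτ : ∀ l ≤ P, ∑ j ∈ Finset.range (J l), h j / (2 * θ l j) < 1)
    (hV : ∀ l ≤ P, V < ∑ j ∈ Finset.range (J l), h j -
      ((κ l : ℝ) - 1 / 2) * (∑ j ∈ Finset.range (J l), h j / (2 * θ l j)))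
    (hα : α < -1 / 2 + V) : ¬ Admissible m p α := by
  intro hadm
  obtain ⟨f, hf, hfH⟩ := Glue.glue m p q (-1 / 2 + V) hq hqp (by
    intro f p₁ p₂ hq1 hp12 _ hnice r ε n₀ hr0 hr1 hε
    exact step_of_cluster P m κ hκ1 hκm J h θ q V T hq.le hT1 hJ hh hθ hmono hsum hτ hV f p₁ p₂
      hq1 hp12 hnice r ε n₀ hr0 hr1 hε)
  obtain ⟨K, hK⟩ := hadm f (areaBound_meanValent hf) (m + 1) (Nat.succ_pos m)
  -- large n
  have hlim : Filter.Tendsto (fun n : ℕ => (n:ℝ) ^ (-1 / 2 + V - α)) Filter.atTop Filter.atTop :=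
    (tendsto_rpow_atTop (by linarith)).comp tendsto_natCast_atTop_atTop
  obtain ⟨n₁, hn₁⟩ := (hlim.eventually_gt_atTop (2 * K)).exists_forall_of_atTop
  obtain ⟨n, hn, hH⟩ := hfH (max n₁ 1)
  have hn1 : n₁ ≤ n := (le_max_left _ _).trans hn
  have hn2 : 1 ≤ n := (le_max_right _ _).trans hn
  have hn0 : (0:ℝ) < n := by exact_mod_cast hn2
  obtain ⟨c, hc0, _, hcK⟩ := hK n (by omega)
  obtain ⟨j, hj, hjX⟩ := hH c 1 ⟨0, by omega, by rw [hc0]; simp⟩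
  have h1 := hcK j (by omega)
  have h2 : (n:ℝ) ^ (-1 / 2 + V) / 2 ≤ K * (n:ℝ) ^ α := by
    have := hjX.trans h1
    simpa using this
  have h3 : (n:ℝ) ^ (-1 / 2 + V) = (n:ℝ) ^ (-1 / 2 + V - α) * (n:ℝ) ^ α := by
    rw [← Real.rpow_add hn0]
    congr 1
    ring
  have h4 := hn₁ n hn1
  have h5 : 0 < (n:ℝ) ^ α := Real.rpow_pos_of_pos hn0 _
  rw [h3] at h2
  nlinarith

/-- non-strict version -/
theorem not_admissible_of_cluster' (P m : ℕ) (κ : ℕ → ℕ) (hκ1 : ∀ l ≤ P, 1 ≤ κ l)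
    (hκm : ∑ l ∈ Finset.range (P + 1), κ l = m + 1) (J : ℕ → ℕ) (h : ℕ → ℝ) (θ : ℕ → ℕ → ℝ)
    (p V α T : ℝ) (hT1 : 1 ≤ T)
    (hp : 0 < p)
    (hJ : ∀ l ≤ P, 1 ≤ J l) (hh : ∀ j, 0 < h j)
    (hθ : ∀ l ≤ P, ∀ j < J l, 0 < θ l j ∧ θ l j ≤ T)
    (hmono : ∀ l ≤ P, ∀ j, j + 1 < J l → θ l j ≤ θ l (j + 1))
    (hsum : ∀ j, ∑ l ∈ Finset.range (P + 1), (if j < J l then θ l j else 0) ≤ p)
    (hτ : ∀ l ≤ P, ∑ j ∈ Finset.range (J l), h j / (2 * θ l j) ≤ 1)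
    (hV : ∀ l ≤ P, V ≤ ∑ j ∈ Finset.range (J l), h j -
      ((κ l : ℝ) - 1 / 2) * (∑ j ∈ Finset.range (J l), h j / (2 * θ l j)))
    (hα : α < -1 / 2 + V) : ¬ Admissible m p α := by
  set V' : ℝ := (V + (α + 1 / 2)) / 2 with hV'
  have hV'V : V' < V := by rw [hV']; linarith
  have hαV' : α < -1 / 2 + V' := by rw [hV']; linarith
  obtain ⟨s, hs0, hs1, hs⟩ : ∃ s : ℝ, 0 < s ∧ s < 1 ∧ ∀ l ≤ P,
      V' < (1 - s) ^ 2 * (∑ j ∈ Finset.range (J l), h j) -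
        ((κ l : ℝ) - 1 / 2) * ((1 - s) * (∑ j ∈ Finset.range (J l), h j / (2 * θ l j))) := by
    apply exists_small
    apply (ev_lt (g := fun x => x) continuousAt_id (by norm_num)).and
    apply finite_eps
    intro l hl
    have h1 := ev_lt (g := fun s : ℝ => -((1 - s) ^ 2 * (∑ j ∈ Finset.range (J l), h j) -
        ((κ l : ℝ) - 1 / 2) * ((1 - s) * (∑ j ∈ Finset.range (J l), h j / (2 * θ l j))))) (b := -V')
          (by fun_prop) (by
        have := hV l hl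
        simp only [sub_zero, one_pow, one_mul]
        linarith)
    filter_upwards [h1] with s hs
    linarith
  have h1s : 0 < 1 - s := by linarith
  have hT : ∀ l ≤ P, ∑ j ∈ Finset.range (J l), (1 - s) ^ 2 * h j / (2 * ((1 - s) * θ l j)) =
      (1 - s) * ∑ j ∈ Finset.range (J l), h j / (2 * θ l j) := by
    intro l hl
    rw [Finset.mul_sum]
    apply Finset.sum_congr rfl
    intro j hj
    have := (hθ l hl j (Finset.mem_range.1 hj)).1
    field_simp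
  refine not_admissible_of_cluster P m κ hκ1 hκm J (fun j => (1 - s) ^ 2 * h j)
    (fun l j => (1 - s) * θ l j) p
    ((1 - s) * p) V' α T hT1 (by positivity) (by nlinarith) hJ (fun j => by have := hh j; positivity)
    ?_ ?_ ?_ ?_ ?_ hαV'
  · intro l hl j hj
    have h1 := hθ l hl j hj
    refine ⟨mul_pos h1s h1.1, ?_⟩
    nlinarith
  · intro l hl j hj
    exact mul_le_mul_of_nonneg_left (hmono l hl j hj) h1s.le
  · intro j
    refine le_trans (le_of_eq ?_) (mul_le_mul_of_nonneg_left (hsum j) h1s.le)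
    rw [Finset.mul_sum]
    apply Finset.sum_congr rfl
    intro l _
    split_ifs <;> ring
  · intro l hl
    rw [hT l hl]
    have h1 := hτ l hl
    have h2 : 0 ≤ ∑ j ∈ Finset.range (J l), h j / (2 * θ l j) := by
      apply Finset.sum_nonneg
      intro j hj
      have h1 := (hθ l hl j (Finset.mem_range.1 hj)).1
      have h2 := hh j
      positivity
    nlinarith
  · intro l hl
    rw [hT l hl, ← Finset.mul_sum]
    exact hs l hl

end Pool.Agent.H195.ML
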