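import Mathlib
import Pool.Agent.H195.ML.LowerA

open MeasureTheory Metric Set
open scoped ENNReal Real

namespace Pool.Agent.H195.ML

open MeanVal

/-- geometric rates -/
theorem geo_rates' (p ρ a : ℝ) (ha : a = p * (1 - ρ)) (j k : ℕ) (hjk : j ≤ k) :
    ∑ l ∈ Finset.Ico j k, a * ρ ^ (l - j) = p * (1 - ρ ^ (k - j)) := by
  induction k, hjk using Nat.le_induction with
  | base => simp
  | succ k hjk ih =>
    rw [Finset.sum_Ico_succ_top hjk, ih, ha]
    have : k + 1 - j = (k - j) + 1 := by omega
    rw [this, pow_succ]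
    ring

/-- level increments: geometric part -/
noncomputable def hgeo (h₀ g : ℝ) (j : ℕ) : ℝ :=
  if j = 0 then h₀ else (g - 1) * g ^ (2 * j - 1) * h₀

theorem hgeo_sum (h₀ g : ℝ) (hg : 0 < g) (l : ℕ) :
    ∑ j ∈ Finset.range (l + 1), hgeo h₀ g j = h₀ * (1 + g / (g + 1) * (g ^ (2 * l) - 1)) := by
  induction l with
  | zero => simp [hgeo]
  | succ l ih =>
    rw [Finset.sum_range_succ, ih]
    have h1 : hgeo h₀ g (l + 1) = (g - 1) * g ^ (2 * l + 1) * h₀ := by
      unfold hgeo
      rw [if_neg (by omega)]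
      congr 2
    rw [h1]
    have h2 : g ^ (2 * (l + 1)) = g ^ (2 * l) * g ^ 2 := by rw [← pow_add]; ring_nf
    have h3 : g ^ (2 * l + 1) = g ^ (2 * l) * g := pow_succ _ _
    rw [h2, h3]
    field_simp
    ring

theorem hgeo_sum_geo (h₀ g : ℝ) (l : ℕ) :
    ∑ j ∈ Finset.range (l + 1), hgeo h₀ g j * g ^ (l - j) = g ^ (2 * l) * h₀ := by
  induction l with
  | zero => simp [hgeo]
  | succ l ih =>
    rw [Finset.sum_range_succ]
    have h0 : ∑ j ∈ Finset.range (l + 1), hgeo h₀ g j * g ^ (l + 1 - j) =
        g * ∑ j ∈ Finset.range (l + 1), hgeo h₀ g j * g ^ (l - j) := by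
      rw [Finset.mul_sum]
      apply Finset.sum_congr rfl
      intro j hj
      have hj' := Finset.mem_range.1 hj
      have : l + 1 - j = (l - j) + 1 := by omega
      rw [this, pow_succ]
      ring
    rw [h0, ih]
    have h1 : hgeo h₀ g (l + 1) = (g - 1) * g ^ (2 * l + 1) * h₀ := by
      unfold hgeo
      rw [if_neg (by omega)]
      congr 2
    rw [h1]
    have h2 : g ^ (2 * (l + 1)) = g ^ (2 * l) * g ^ 2 := by rw [← pow_add]; ring_nf
    have h3 : g ^ (2 * l + 1) = g ^ (2 * l) * g := pow_succ _ _
    rw [h2, h3]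
    simp
    ring

theorem hgeo_pos (h₀ g : ℝ) (hh : 0 < h₀) (hg : 1 < g) (j : ℕ) : 0 < hgeo h₀ g j := by
  unfold hgeo
  split_ifs
  · exact hh
  · have : 0 < g - 1 := by linarith
    positivity

/-- level increments -/
noncomputable def hfam (E : ℕ) (h₀ g hE hc : ℝ) (j : ℕ) : ℝ :=
  if j < E then hgeo h₀ g j else if j = E then hE else hc

theorem hfam_facts (E : ℕ) (V W g hc : ℝ) (hg : 1 < g) (hV : W = g ^ (2 * E) * V) :
    let h := hfam E ((g + 1) * V) g (if E = 0 then W + 1 / 2 else 1 / 2 - W / g) hc
    (∀ l < E, ∑ j ∈ Finset.range (l + 1), h j = V * (1 + g ^ (2 * l + 1))) ∧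
    (∀ l < E, ∑ j ∈ Finset.range (l + 1), h j * g ^ (l - j) = g ^ (2 * l) * ((g + 1) * V)) ∧
    (∑ j ∈ Finset.range (E + 1), h j = V + 1 / 2) ∧
    (∑ j ∈ Finset.range (E + 1), h j * g ^ (E - j) = W + 1 / 2) := by
  intro h
  have hg0 : 0 < g := by linarith
  have f1 : ∀ l < E, ∑ j ∈ Finset.range (l + 1), h j = V * (1 + g ^ (2 * l + 1)) := by
    intro l hl
    have e1 : ∑ j ∈ Finset.range (l + 1), h j =
        ∑ j ∈ Finset.range (l + 1), hgeo ((g + 1) * V) g j := by
      apply Finset.sum_congr rfl
      intro j hj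
      have := Finset.mem_range.1 hj
      show hfam E _ g _ hc j = _
      unfold hfam
      rw [if_pos (by omega)]
    rw [e1, hgeo_sum _ _ hg0, pow_succ]
    field_simp
    ring
  have f2 : ∀ l < E, ∑ j ∈ Finset.range (l + 1), h j * g ^ (l - j) =
      g ^ (2 * l) * ((g + 1) * V) := by
    intro l hl
    rw [← hgeo_sum_geo]
    apply Finset.sum_congr rfl
    intro j hj
    have := Finset.mem_range.1 hj
    congr 1
    show hfam E _ g _ hc j = _
    unfold hfam
    rw [if_pos (by omega)]
  have hEv : h E = if E = 0 then W + 1 / 2 else 1 / 2 - W / g := by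
    show hfam E _ g _ hc E = _
    unfold hfam
    rw [if_neg (lt_irrefl _), if_pos rfl]
  refine ⟨f1, f2, ?_, ?_⟩
  · rcases Nat.eq_zero_or_pos E with h0 | h0
    · rw [Finset.sum_range_succ, hEv]
      subst h0
      simp only [Finset.range_zero, Finset.sum_empty, zero_add, if_true]
      simp at hV
      rw [hV]
    · obtain ⟨E', rfl⟩ : ∃ E', E = E' + 1 := ⟨E - 1, by omega⟩
      rw [Finset.sum_range_succ, f1 E' (by omega), hEv, if_neg (by omega), hV]
      have h3 : g ^ (2 * (E' + 1)) = g ^ (2 * E' + 1) * g := by rw [← pow_succ]; ring_nf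
      rw [h3]
      field_simp
      ring
  · rcases Nat.eq_zero_or_pos E with h0 | h0
    · rw [Finset.sum_range_succ, hEv]
      subst h0
      simp
    · obtain ⟨E', rfl⟩ : ∃ E', E = E' + 1 := ⟨E - 1, by omega⟩
      rw [Finset.sum_range_succ, hEv, if_neg (by omega), Nat.sub_self, pow_zero, mul_one]
      have e1 : ∑ j ∈ Finset.range (E' + 1), h j * g ^ (E' + 1 - j) =
          g * ∑ j ∈ Finset.range (E' + 1), h j * g ^ (E' - j) := by
        rw [Finset.mul_sum]
        apply Finset.sum_congr rfl
        intro j hj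
        have := Finset.mem_range.1 hj
        have : E' + 1 - j = (E' - j) + 1 := by omega
        rw [this, pow_succ]
        ring
      rw [e1, f2 E' (by omega), hV]
      have h3 : g ^ (2 * (E' + 1)) = g ^ (2 * E') * g ^ 2 := by rw [← pow_add]; ring_nf
      rw [h3]
      field_simp
      ring

theorem lower_family (E k m N : ℕ) (hN1 : 1 ≤ N) (hm : m = E + k + N) (p D g W : ℝ)
    (hp : 2 * p = D + N) (hD : 0 < D) (hp14 : 1 < 4 * p) (hg : g * (4 * p - 1) = 4 * p + 1)
    (hW : 0 < W) (hWD : (W + 1 / 2) * (2 * p + k * D) ≤ 2 * p * D) (hWE : 1 ≤ E → 2 * W < g)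
    (α : ℝ) (hα : α < -1 / 2 + W / g ^ (2 * E)) : ¬ Admissible m p α := by
  have hNR : (1:ℝ) ≤ N := by exact_mod_cast hN1
  have hp0 : 0 < p := by linarith
  have hkR : (0:ℝ) ≤ k := Nat.cast_nonneg k
  have hg1 : 1 < g := by
    by_contra h
    push Not at h
    have : g * (4 * p - 1) ≤ 1 * (4 * p - 1) := mul_le_mul_of_nonneg_right h (by linarith)
    linarith
  have hg0 : 0 < g := by linarith
  set ρ : ℝ := g⁻¹ with hρ
  have hρ0 : 0 < ρ := inv_pos.2 hg0
  have hρ1 : ρ < 1 := inv_lt_one_of_one_lt₀ hg1
  have hρg : ρ * g = 1 := inv_mul_cancel₀ hg0.ne'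
  set V : ℝ := W / g ^ (2 * E) with hVdef
  have hgE : 0 < g ^ (2 * E) := pow_pos hg0 _
  have hWV : W = g ^ (2 * E) * V := by rw [hVdef]; field_simp
  have hV0 : 0 < V := by rw [hVdef]; positivity
  have hkD : 0 < 2 * p + k * D := by positivity
  set β : ℝ := D / (2 * p + k * D) with hβ
  set γ : ℝ := 2 * p / (2 * p + k * D) with hγ
  have hβ0 : 0 < β := by positivity
  have hγ0 : 0 < γ := by positivity
  have hβγ : k * β + γ = 1 := by rw [hβ, hγ]; field_simp; ring
  have hγ1 : γ ≤ 1 := by
    have : 0 ≤ k * β := by positivity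
    linarith
  have hβ1 : 1 ≤ k → β ≤ 1 := by
    intro hk
    have h1 : (1:ℝ) ≤ k := by exact_mod_cast hk
    have h2 : β * 1 ≤ β * k := mul_le_mul_of_nonneg_left h1 hβ0.le
    linarith
  set a : ℝ := p * (1 - ρ) with ha
  have ha0 : 0 < a := mul_pos hp0 (by linarith)
  have hap : a ≤ p := by rw [ha]; nlinarith
  -- 2 a = (g+1)/(2g)
  have h2a : 4 * a * g = g + 1 := by
    rw [ha, hρ]
    field_simp
    linear_combination hg
  set hE : ℝ := if E = 0 then W + 1 / 2 else 1 / 2 - W / g with hhE
  have hE0 : 0 < hE := by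
    rw [hhE]
    split_ifs with h0
    · linarith
    · have h1 := hWE (by omega)
      have h2 : W / g < 1 / 2 := by rw [div_lt_iff₀ hg0]; linarith
      linarith
  set h : ℕ → ℝ := hfam E ((g + 1) * V) g hE N with hh
  have hhpos : ∀ j, 0 < h j := by
    intro j
    rw [hh]
    unfold hfam
    split_ifs
    · exact hgeo_pos _ _ (by positivity) hg1 j
    · exact hE0
    · linarith
  obtain ⟨f1, f2, f3, f4⟩ := hfam_facts E V W g N hg1 hWV
  rw [← hhE] at f1 f2 f3 f4
  rw [← hh] at f1 f2 f3 f4
  have hhc : h (E + 1) = N := by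
    rw [hh]; unfold hfam; rw [if_neg (by omega), if_neg (by omega)]
  set κ : ℕ → ℕ := fun l => if l = E + k then N + 1 else 1 with hκ
  set J : ℕ → ℕ := fun l => if l < E then l + 1 else if l < E + k then E + 1 else E + 2 with hJ
  set θ : ℕ → ℕ → ℝ := fun l j => if l < E then a * ρ ^ (l - j)
    else if l < E + k then p * β * ρ ^ (E - j) else if j ≤ E then p * γ * ρ ^ (E - j) else p with hθ
  have hρpow : ∀ i : ℕ, 0 < ρ ^ i := fun i => pow_pos hρ0 i
  have hρpow1 : ∀ i : ℕ, ρ ^ i ≤ 1 := fun i => pow_le_one₀ hρ0.le hρ1.le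
  have hinv : ∀ i : ℕ, (ρ ^ i)⁻¹ = g ^ i := fun i => by rw [hρ, inv_pow, inv_inv]
  -- times
  have t1 : ∀ l < E, ∑ j ∈ Finset.range (J l), h j / (2 * θ l j) = 2 * (g ^ (2 * l + 1) * V) := by
    intro l hl
    have e1 : J l = l + 1 := by simp only [hJ]; rw [if_pos hl]
    rw [e1]
    have e2 : ∀ j ∈ Finset.range (l + 1), h j / (2 * θ l j) = h j * g ^ (l - j) / (2 * a) := by
      intro j _
      simp only [hθ]
      rw [if_pos hl, ← hinv]
      field_simp
    rw [Finset.sum_congr rfl e2, ← Finset.sum_div, f2 l hl]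
    rw [div_eq_iff (by positivity), pow_succ]
    linear_combination (-(g ^ (2 * l) * V)) * h2a
  have t2 : ∀ l, E ≤ l → l < E + k → ∑ j ∈ Finset.range (J l), h j / (2 * θ l j) =
      (W + 1 / 2) / (2 * p * β) := by
    intro l hl hl'
    have e1 : J l = E + 1 := by simp only [hJ]; rw [if_neg (by omega), if_pos hl']
    rw [e1, ← f4, Finset.sum_div]
    apply Finset.sum_congr rfl
    intro j _
    simp only [hθ]
    rw [if_neg (by omega), if_pos hl', ← hinv]
    field_simp
  have t3 : ∑ j ∈ Finset.range (J (E + k)), h j / (2 * θ (E + k) j) =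
      (W + 1 / 2) / (2 * p * γ) + N / (2 * p) := by
    have e1 : J (E + k) = E + 1 + 1 := by
      simp only [hJ]; rw [if_neg (by omega), if_neg (by omega)]
    rw [e1, Finset.sum_range_succ, ← f4, Finset.sum_div, hhc]
    congr 1
    · apply Finset.sum_congr rfl
      intro j hj
      have := Finset.mem_range.1 hj
      simp only [hθ]
      rw [if_neg (by omega), if_neg (by omega), if_pos (by omega), ← hinv]
      field_simp
    · simp only [hθ]
      rw [if_neg (by omega), if_neg (by omega), if_neg (by omega)]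
  have b2 : (W + 1 / 2) / (2 * p * β) ≤ 1 := by
    rw [div_le_one (by positivity), hβ]
    have e1 : 2 * p * (D / (2 * p + k * D)) = 2 * p * D / (2 * p + k * D) := by ring
    rw [e1, le_div_iff₀ hkD]
    exact hWD
  have b3 : (W + 1 / 2) / (2 * p * γ) + N / (2 * p) ≤ 1 := by
    have e1 : (W + 1 / 2) / (2 * p * γ) ≤ D / (2 * p) := by
      rw [div_le_div_iff₀ (by positivity) (by positivity)]
      have e2 : D * (2 * p * γ) = 2 * p * (2 * p * D / (2 * p + k * D)) := by rw [hγ]; ring
      have e3 : (W + 1 / 2) ≤ 2 * p * D / (2 * p + k * D) := by rw [le_div_iff₀ hkD]; exact hWD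
      rw [e2, mul_comm]
      exact mul_le_mul_of_nonneg_left e3 (by linarith)
    have e2 : D / (2 * p) + N / (2 * p) = 1 := by
      rw [← add_div, ← hp, div_self (by positivity)]
    linarith
  -- heights
  have s1 : ∀ l < E, ∑ j ∈ Finset.range (J l), h j = V * (1 + g ^ (2 * l + 1)) := by
    intro l hl
    have e1 : J l = l + 1 := by simp only [hJ]; rw [if_pos hl]
    rw [e1, f1 l hl]
  have s2 : ∀ l, E ≤ l → l < E + k → ∑ j ∈ Finset.range (J l), h j = V + 1 / 2 := by
    intro l hl hl'
    have e1 : J l = E + 1 := by simp only [hJ]; rw [if_neg (by omega), if_pos hl']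
    rw [e1, f3]
  have s3 : ∑ j ∈ Finset.range (J (E + k)), h j = V + 1 / 2 + N := by
    have e1 : J (E + k) = E + 1 + 1 := by
      simp only [hJ]; rw [if_neg (by omega), if_neg (by omega)]
    rw [e1, Finset.sum_range_succ, f3, hhc]
  have hκm : ∑ l ∈ Finset.range (E + k + 1), κ l = m + 1 := by
    rw [Finset.sum_range_succ]
    have e1 : ∑ l ∈ Finset.range (E + k), κ l = E + k := by
      rw [Finset.sum_congr rfl (g := fun _ => 1)]
      · simp
      · intro l hl
        have := Finset.mem_range.1 hl
        simp only [hκ]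
        rw [if_neg (by omega)]
    rw [e1]
    simp only [hκ]
    rw [if_pos trivial, hm]
    omega
  refine not_admissible_of_cluster' (E + k) m κ ?_ hκm J h θ p V α (max 1 p) (le_max_left _ _) hp0
    ?_ hhpos ?_ ?_ ?_ ?_ ?_ hα
  · intro l _
    simp only [hκ]
    split_ifs <;> omega
  · intro l _
    simp only [hJ]
    split_ifs <;> omega
  · intro l hl j hj
    have hpT : p ≤ max 1 p := le_max_right _ _
    simp only [hθ]
    split_ifs with h1 h2 h3
    · refine ⟨mul_pos ha0 (hρpow _), ?_⟩
      calc a * ρ ^ (l - j) ≤ a * 1 := mul_le_mul_of_nonneg_left (hρpow1 _) ha0.le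
        _ ≤ _ := by linarith
    · refine ⟨by have := hρpow (E - j); positivity, ?_⟩
      calc p * β * ρ ^ (E - j) ≤ p * β * 1 :=
            mul_le_mul_of_nonneg_left (hρpow1 _) (by positivity)
        _ ≤ p * 1 * 1 := by
            have := hβ1 (by omega)
            gcongr
        _ ≤ _ := by linarith
    · refine ⟨by have := hρpow (E - j); positivity, ?_⟩
      calc p * γ * ρ ^ (E - j) ≤ p * γ * 1 :=
            mul_le_mul_of_nonneg_left (hρpow1 _) (by positivity)
        _ ≤ p * 1 * 1 := by gcongr
        _ ≤ _ := by linarith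
    · exact ⟨hp0, hpT⟩
  · intro l hl j hj
    have hstep : ∀ i : ℕ, ρ ^ (i + 1) ≤ ρ ^ i := fun i => by
      rw [pow_succ]
      calc ρ ^ i * ρ ≤ ρ ^ i * 1 := mul_le_mul_of_nonneg_left hρ1.le (hρpow i).le
        _ = _ := mul_one _
    simp only [hθ]
    by_cases h1 : l < E
    · have e1 : J l = l + 1 := by simp only [hJ]; rw [if_pos h1]
      rw [if_pos h1, if_pos h1]
      have e2 : l - j = (l - (j + 1)) + 1 := by omega
      rw [e2]
      exact mul_le_mul_of_nonneg_left (hstep _) ha0.le
    · rw [if_neg h1, if_neg h1]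
      by_cases h2 : l < E + k
      · have e1 : J l = E + 1 := by simp only [hJ]; rw [if_neg h1, if_pos h2]
        rw [if_pos h2, if_pos h2]
        have e2 : E - j = (E - (j + 1)) + 1 := by omega
        rw [e2]
        exact mul_le_mul_of_nonneg_left (hstep _) (by positivity)
      · rw [if_neg h2, if_neg h2]
        have e1 : J l = E + 2 := by simp only [hJ]; rw [if_neg h1, if_neg h2]
        rw [if_pos (by omega)]
        by_cases h3 : j + 1 ≤ E
        · rw [if_pos h3]
          have e2 : E - j = (E - (j + 1)) + 1 := by omega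
          rw [e2]
          exact mul_le_mul_of_nonneg_left (hstep _) (by positivity)
        · rw [if_neg h3]
          calc p * γ * ρ ^ (E - j) ≤ p * 1 * 1 := by
                have := hρpow1 (E - j)
                have := (hρpow (E - j)).le
                gcongr
            _ = p := by ring
  · intro j
    have hcj : (if j < J (E + k) then θ (E + k) j else 0) =
        if j ≤ E then p * γ * ρ ^ (E - j) else if j = E + 1 then p else 0 := by
      have e1 : J (E + k) = E + 2 := by
        simp only [hJ]; rw [if_neg (by omega), if_neg (by omega)]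
      rw [e1]
      simp only [hθ]
      rw [if_neg (by omega : ¬ E + k < E), if_neg (by omega : ¬ E + k < E + k)]
      by_cases h1 : j ≤ E
      · rw [if_pos (by omega), if_pos h1, if_pos h1]
      · rw [if_neg h1, if_neg h1]
        by_cases h2 : j = E + 1
        · rw [if_pos (by omega), if_pos h2]
        · rw [if_neg (by omega), if_neg h2]
    have hbj : ∑ l ∈ Finset.Ico E (E + k), (if j < J l then θ l j else 0) =
        if j ≤ E then k * (p * β * ρ ^ (E - j)) else 0 := by
      have e1 : ∀ l ∈ Finset.Ico E (E + k), (if j < J l then θ l j else 0) =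
          if j ≤ E then p * β * ρ ^ (E - j) else 0 := by
        intro l hl
        have hl' := Finset.mem_Ico.1 hl
        have e2 : J l = E + 1 := by
          simp only [hJ]; rw [if_neg (by omega), if_pos hl'.2]
        rw [e2]
        simp only [hθ]
        rw [if_neg (by omega : ¬ l < E), if_pos hl'.2]
        by_cases h1 : j ≤ E
        · rw [if_pos (by omega), if_pos h1]
        · rw [if_neg (by omega), if_neg h1]
      rw [Finset.sum_congr rfl e1, Finset.sum_const, Nat.card_Ico, nsmul_eq_mul,
        Nat.add_sub_cancel_left]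
      split_ifs <;> simp
    have haj : ∑ l ∈ Finset.range E, (if j < J l then θ l j else 0) =
        if j ≤ E then p * (1 - ρ ^ (E - j)) else 0 := by
      by_cases h1 : j ≤ E
      · rw [if_pos h1, ← geo_rates' p ρ a ha j E h1, Finset.range_eq_Ico,
          ← Finset.sum_Ico_consecutive _ (Nat.zero_le j) h1]
        have e1 : ∑ l ∈ Finset.Ico 0 j, (if j < J l then θ l j else 0) = 0 := by
          apply Finset.sum_eq_zero
          intro l hl
          have hl' := Finset.mem_Ico.1 hl
          have e2 : J l = l + 1 := by simp only [hJ]; rw [if_pos (by omega)]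
          rw [e2, if_neg (by omega)]
        rw [e1, zero_add]
        apply Finset.sum_congr rfl
        intro l hl
        have hl' := Finset.mem_Ico.1 hl
        have e2 : J l = l + 1 := by simp only [hJ]; rw [if_pos (by omega)]
        rw [e2, if_pos (by omega)]
        simp only [hθ]
        rw [if_pos (by omega)]
      · rw [if_neg h1]
        apply Finset.sum_eq_zero
        intro l hl
        have hl' := Finset.mem_range.1 hl
        have e2 : J l = l + 1 := by simp only [hJ]; rw [if_pos (by omega)]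
        rw [e2, if_neg (by omega)]
    rw [Finset.sum_range_succ, hcj, Finset.range_eq_Ico,
      ← Finset.sum_Ico_consecutive _ (Nat.zero_le E) (Nat.le_add_right E k),
      ← Finset.range_eq_Ico, haj, hbj]
    by_cases h1 : j ≤ E
    · rw [if_pos h1, if_pos h1, if_pos h1]
      apply le_of_eq
      linear_combination (p * ρ ^ (E - j)) * hβγ
    · rw [if_neg h1, if_neg h1, if_neg h1]
      split_ifs <;> linarith
  · intro l hl
    by_cases h1 : l < E
    · rw [t1 l h1]
      have h2 := hWE (by omega)
      have h3 : g ^ (2 * l + 1) * g ≤ g ^ (2 * E) := by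
        rw [← pow_succ]
        exact pow_le_pow_right₀ hg1.le (by omega)
      have h4 : g ^ (2 * l + 1) * g * V ≤ g ^ (2 * E) * V := mul_le_mul_of_nonneg_right h3 hV0.le
      rw [← hWV] at h4
      have h5 : 2 * (g ^ (2 * l + 1) * V) * g < 1 * g := by linarith
      exact (lt_of_mul_lt_mul_right h5 hg0.le).le
    · by_cases h2 : l < E + k
      · rw [t2 l (by omega) h2]; exact b2
      · have : l = E + k := by omega
        rw [this, t3]; exact b3
  · intro l hl
    by_cases h1 : l < E
    · rw [t1 l h1, s1 l h1]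
      simp only [hκ]
      rw [if_neg (by omega)]
      push_cast
      linarith
    · by_cases h2 : l < E + k
      · rw [t2 l (by omega) h2, s2 l (by omega) h2]
        simp only [hκ]
        rw [if_neg (by omega)]
        push_cast
        linarith
      · have h3 : l = E + k := by omega
        rw [h3, t3, s3]
        simp only [hκ]
        rw [if_pos trivial]
        push_cast
        nlinarith

end Pool.Agent.H195.ML
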