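import Mathlib
import Pool.Graph.R_seed8.Helper772.MV.Upper
import Pool.Agent.H195.MV.CertH
import Pool.Agent.H195.MV.XOK
import Pool.Agent.H195.MV.P2
import Pool.Agent.H195.ML.FamL
import Pool.Agent.H195.ML.Rec

open MeasureTheory Metric Set
open scoped ENNReal Real

namespace Pool.Agent.H195

open MeanVal

theorem upper_core (E k m N : ℕ) (hN1 : 1 ≤ N) (hm : m = E + k + N) (p ν D κ : ℝ)
    (hν : ν ^ 2 = N) (hν0 : 0 ≤ ν) (hp : 2 * p = D + N) (hp1 : 1 ≤ p) (hDν : ν ≤ D)
    (hD : (N:ℝ) - 1 ≤ 2 * D) (hκ : 0 ≤ κ) (hκ' : κ ≤ 2 * N * ν * (D - ν))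
    (hk : 1 ≤ k → 4 * p ≤ D * (4 * p + 1 - 2 * k))
    (hE : 1 ≤ E → D * (4 * p - 1 - 2 * k) ≤ 4 * p)
    (hX : ∀ x : ℝ, (D + N) * x = D * (N + ν) → 1 ≤ k → MV.XOK N ν D κ x (N + ν))
    (hk2 : ∀ x : ℝ, (D + N) * x = D * (N + ν) → 2 ≤ k → (p - 1) * D ≤ 2 * p ∧
      0 ≤ x * (2 * (N + ν) + 3 * x) + 1 - 2 * D * (N + ν) ∧
      0 ≤ x * (2 * (N + ν) + 3 * x) + (2 * N * ν + N) - 2 * D * (N + ν) * ν)
    (α : ℝ) (hα : -1 / 2 + ((4 * p - 1) / (4 * p + 1)) ^ (2 * E) *
      (2 * p * D / (2 * p + k * D) - 1 / 2) < α) : Admissible m p α := by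
  have hNR : (1:ℝ) ≤ N := by exact_mod_cast hN1
  have hν1 : 1 ≤ ν := by nlinarith
  have hD1 : 1 ≤ D := hν1.trans hDν
  have hkR : (0:ℝ) ≤ k := Nat.cast_nonneg k
  set x : ℝ := D * (N + ν) / (2 * p) with hx
  have hp0 : 0 < p := by linarith
  have hx2 : 2 * p * x = D * (N + ν) := by rw [hx]; field_simp
  have hx3 : (D + N) * x = D * (N + ν) := by rw [← hp]; exact hx2
  have h4p : 0 < 4 * p - 1 := by linarith
  refine MV.upper_family E k m N hN1 hm p ν D κ (N + ν) x ((4 * p + 1) / (4 * p - 1)) rfl hν hν0 hp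
    hx2 (by field_simp) (by linarith) hDν hD hκ hκ' hk hE (hX x hx3) (hk2 x hx3)
    (((4 * p - 1) / (4 * p + 1)) ^ (2 * E) * (2 * p * D / (2 * p + k * D) - 1 / 2)) ?_ α hα
  have hB : 0 < 2 * p + k * D := by positivity
  have hGk : (N + ν) + k * x = (N + ν) * (2 * p + k * D) / (2 * p) := by
    rw [hx]; field_simp
  have e1 : ((4 * p - 1) / (4 * p + 1)) ^ (2 * E) * (((4 * p + 1) / (4 * p - 1)) ^ E) ^ 2 = 1 := by
    rw [← pow_mul, mul_comm E 2, ← mul_pow]
    have : (4 * p - 1) / (4 * p + 1) * ((4 * p + 1) / (4 * p - 1)) = 1 := by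
      have : 4 * p + 1 ≠ 0 := by positivity
      field_simp
    rw [this, one_pow]
  have e2 : ((4 * p - 1) / (4 * p + 1)) ^ (2 * E) * (2 * p * D / (2 * p + k * D) - 1 / 2) *
      (((N + ν) + k * x) * ((4 * p + 1) / (4 * p - 1)) ^ E) ^ 2 =
      (2 * p * D / (2 * p + k * D) - 1 / 2) * ((N + ν) + k * x) ^ 2 := by
    rw [mul_pow]
    linear_combination ((2 * p * D / (2 * p + k * D) - 1 / 2) * ((N + ν) + k * x) ^ 2) * e1
  rw [e2]
  have e3 : 2 * p * D / (2 * p + k * D) * ((N + ν) + k * x) = D * (N + ν) := by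
    rw [hGk]; field_simp
  have e4 : (2 * p * D / (2 * p + k * D) - 1 / 2) * ((N + ν) + k * x) ^ 2 =
      D * (N + ν) * ((N + ν) + k * x) - ((N + ν) + k * x) ^ 2 / 2 := by
    linear_combination ((N + ν) + k * x) * e3
  rw [e4]
  linear_combination (k * x) * hx2

/-- upper bound on the region -/
theorem upper_region (m : ℕ) (p : ℝ) (hm : 1 ≤ m) (hp : 1 ≤ p)
    (h : p ≤ 2 + √2 ∨ m ≤ 5 ∨ ((m:ℝ) + √m ≤ 2 * p ∧ 3 * (m:ℝ) - 1 ≤ 4 * p)) (α : ℝ)
    (hα : -1 / 2 + Vrec p m < α) : Admissible m p α := by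
  have h4p : 0 < 4 * p - 1 := by linarith
  -- single cluster
  have single : ∀ (m : ℕ) (D : ℝ), 1 ≤ m → 2 * p = D + m → √m ≤ D → (m:ℝ) - 1 ≤ 2 * D →
      -1 / 2 + (D - 1 / 2) < α → Admissible m p α := by
    intro m D hm hpD hDm hD hα
    refine upper_core 0 0 m m hm (by omega) p (√m) D 0 (Real.sq_sqrt (Nat.cast_nonneg m))
      (Real.sqrt_nonneg _) hpD hp hDm hD le_rfl ?_ (by omega) (by omega) (by omega) (by omega) α ?_
    · have := Real.sqrt_nonneg (m:ℝ)
      have h2 : 0 ≤ D - √m := by linarith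
      positivity
    · push_cast
      have : 2 * p * D / (2 * p + 0 * D) = D := by
        have : 0 < p := by linarith
        field_simp; ring
      rw [this]
      simpa using hα
  rcases h with h | h | ⟨h1, h2⟩
  rotate_left 2
  · -- single cluster
    refine single m (2 * p - m) hm (by ring) (by linarith) (by linarith) ?_
    obtain ⟨m', rfl⟩ : ∃ m', m = m' + 1 := ⟨m - 1, by omega⟩
    have h3 : 2 * p - ((m':ℝ) + 1) - 1 / 2 ≤ Vrec p (m' + 1) := le_max_left _ _
    push_cast
    linarith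
  all_goals
    obtain ⟨E, k, N, D, hN1, hmE, hpN, hD1, hND, hw, hk, hE, hA0, hV⟩ := Vrec_struct p hp m hm
    rw [hV] at hα
    have hD0 : 0 < D := by linarith
    have hνD : √N ≤ D := by
      rw [Real.sqrt_le_left hD0.le]; exact hND
    have hsq : √(N:ℝ) ^ 2 = N := Real.sq_sqrt (Nat.cast_nonneg N)
    have hNR : (1:ℝ) ≤ N := by exact_mod_cast hN1
  · -- `p ≤ 2 + √2`
    have hs2 : √2 ^ 2 = 2 := Real.sq_sqrt (by norm_num)
    have hs0 : 0 ≤ √2 := Real.sqrt_nonneg _
    have hs1 : √2 < 1.415 := by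
      rw [Real.sqrt_lt' (by norm_num)]; norm_num
    have hN4 : N ≤ 4 := by
      by_contra hcon
      push Not at hcon
      have h5 : (5:ℝ) ≤ N := by exact_mod_cast hcon
      have h6 : D ≤ 1.83 := by linarith
      nlinarith
    have hD8 : N = 4 → D ^ 2 ≤ 8 := by
      intro h4
      rw [h4] at hpN
      push_cast at hpN
      have h6 : D ≤ 2 * √2 := by linarith
      nlinarith
    have h2D : (N:ℝ) - 1 ≤ 2 * D := by
      have h7 : (N:ℝ) ≤ 4 := by exact_mod_cast hN4
      by_contra hcon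
      push Not at hcon
      nlinarith
    rcases Nat.eq_zero_or_pos (E + k) with h0 | h0
    · have hE0 : E = 0 := by omega
      have hk0 : k = 0 := by omega
      subst hE0 hk0
      refine upper_core 0 0 m N hN1 hmE p (√N) D 0 hsq (Real.sqrt_nonneg _) hpN hp hνD h2D le_rfl
        ?_ hk hE (by omega) (by omega) α hα
      have := Real.sqrt_nonneg (N:ℝ)
      have h2 : 0 ≤ D - √N := by linarith
      positivity
    · have hwin := hw h0
      clear hw
      interval_cases N
      · refine upper_core E k m 1 hN1 hmE p (√((1:ℕ):ℝ)) D (D - 1) hsq (Real.sqrt_nonneg _) hpN hp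
          hνD h2D (by linarith) ?_ hk hE ?_ ?_ α hα
        · push_cast
          rw [Real.sqrt_one]
          linarith
        · intro x hx _
          push_cast at hx hsq hwin hνD ⊢
          exact MV.XOK1 _ D x _ rfl hsq (Real.sqrt_nonneg _) hνD (by linarith) hx
        · intro x hx _
          push_cast at hx hsq hwin hνD hpN ⊢
          exact MV.P2_1 _ D x _ p rfl hsq (Real.sqrt_nonneg _) hνD (by linarith) hx hpN
      · refine upper_core E k m 2 hN1 hmE p (√((2:ℕ):ℝ)) D 0 hsq (Real.sqrt_nonneg _) hpN hp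
          hνD h2D le_rfl ?_ hk hE ?_ ?_ α hα
        · have := Real.sqrt_nonneg (((2:ℕ):ℝ))
          have h2 : 0 ≤ D - √((2:ℕ):ℝ) := by linarith
          positivity
        · intro x hx _
          push_cast at hx hsq hwin hνD ⊢
          exact MV.XOK2 _ D x _ rfl hsq (Real.sqrt_nonneg _) hνD (by linarith) hx
        · intro x hx _
          push_cast at hx hsq hwin hνD hpN ⊢
          exact MV.P2_2 _ D x _ p rfl hsq (Real.sqrt_nonneg _) hνD (by linarith) hx hpN
      · refine upper_core E k m 3 hN1 hmE p (√((3:ℕ):ℝ)) D 0 hsq (Real.sqrt_nonneg _) hpN hp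
          hνD h2D le_rfl ?_ hk hE ?_ ?_ α hα
        · have := Real.sqrt_nonneg (((3:ℕ):ℝ))
          have h2 : 0 ≤ D - √((3:ℕ):ℝ) := by linarith
          positivity
        · intro x hx _
          push_cast at hx hsq hwin hνD ⊢
          exact MV.XOK3 _ D x _ rfl hsq (Real.sqrt_nonneg _) hνD (by linarith) hx
        · intro x hx _
          push_cast at hx hsq hwin hνD hpN ⊢
          exact MV.P2_3 _ D x _ p rfl hsq (Real.sqrt_nonneg _) hνD (by linarith) hx hpN
      · refine upper_core E k m 4 hN1 hmE p (√((4:ℕ):ℝ)) D 0 hsq (Real.sqrt_nonneg _) hpN hp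
          hνD h2D le_rfl ?_ hk hE ?_ ?_ α hα
        · have := Real.sqrt_nonneg (((4:ℕ):ℝ))
          have h2 : 0 ≤ D - √((4:ℕ):ℝ) := by linarith
          positivity
        · intro x hx _
          push_cast at hx hsq hwin hνD ⊢
          exact MV.XOK4 _ D x _ rfl hsq (Real.sqrt_nonneg _) hνD (by linarith) hx
        · intro x hx _
          push_cast at hx hsq hwin hνD hpN ⊢
          exact MV.P2_4 _ D x _ p rfl hsq (Real.sqrt_nonneg _) hνD (hD8 rfl) hx hpN
  · -- `m ≤ 5`
    rcases Nat.eq_zero_or_pos (E + k) with h0 | h0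
    · have hE0 : E = 0 := by omega
      have hk0 : k = 0 := by omega
      subst hE0 hk0
      have h2D : (N:ℝ) - 1 ≤ 2 * D := by
        have h7 : (N:ℝ) ≤ 5 := by exact_mod_cast (by omega : N ≤ 5)
        by_contra hcon
        push Not at hcon
        nlinarith
      refine upper_core 0 0 m N hN1 hmE p (√N) D 0 hsq (Real.sqrt_nonneg _) hpN hp hνD h2D le_rfl
        ?_ hk hE (by omega) (by omega) α hα
      have := Real.sqrt_nonneg (N:ℝ)
      have h2 : 0 ≤ D - √N := by linarith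
      positivity
    · have hwin := hw h0
      have hN4 : N ≤ 4 := by omega
      have hk24 : 2 ≤ k → N ≤ 3 := by omega
      have h2D : (N:ℝ) - 1 ≤ 2 * D := by
        have h7 : (N:ℝ) ≤ 4 := by exact_mod_cast hN4
        by_contra hcon
        push Not at hcon
        nlinarith
      clear hw
      interval_cases N
      · refine upper_core E k m 1 hN1 hmE p (√((1:ℕ):ℝ)) D (D - 1) hsq (Real.sqrt_nonneg _) hpN hp
          hνD h2D (by linarith) ?_ hk hE ?_ ?_ α hα
        · push_cast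
          rw [Real.sqrt_one]
          linarith
        · intro x hx _
          push_cast at hx hsq hwin hνD ⊢
          exact MV.XOK1 _ D x _ rfl hsq (Real.sqrt_nonneg _) hνD (by linarith) hx
        · intro x hx _
          push_cast at hx hsq hwin hνD hpN ⊢
          exact MV.P2_1 _ D x _ p rfl hsq (Real.sqrt_nonneg _) hνD (by linarith) hx hpN
      · refine upper_core E k m 2 hN1 hmE p (√((2:ℕ):ℝ)) D 0 hsq (Real.sqrt_nonneg _) hpN hp
          hνD h2D le_rfl ?_ hk hE ?_ ?_ α hα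
        · have := Real.sqrt_nonneg (((2:ℕ):ℝ))
          have h2 : 0 ≤ D - √((2:ℕ):ℝ) := by linarith
          positivity
        · intro x hx _
          push_cast at hx hsq hwin hνD ⊢
          exact MV.XOK2 _ D x _ rfl hsq (Real.sqrt_nonneg _) hνD (by linarith) hx
        · intro x hx _
          push_cast at hx hsq hwin hνD hpN ⊢
          exact MV.P2_2 _ D x _ p rfl hsq (Real.sqrt_nonneg _) hνD (by linarith) hx hpN
      · refine upper_core E k m 3 hN1 hmE p (√((3:ℕ):ℝ)) D 0 hsq (Real.sqrt_nonneg _) hpN hp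
          hνD h2D le_rfl ?_ hk hE ?_ ?_ α hα
        · have := Real.sqrt_nonneg (((3:ℕ):ℝ))
          have h2 : 0 ≤ D - √((3:ℕ):ℝ) := by linarith
          positivity
        · intro x hx _
          push_cast at hx hsq hwin hνD ⊢
          exact MV.XOK3 _ D x _ rfl hsq (Real.sqrt_nonneg _) hνD (by linarith) hx
        · intro x hx _
          push_cast at hx hsq hwin hνD hpN ⊢
          exact MV.P2_3 _ D x _ p rfl hsq (Real.sqrt_nonneg _) hνD (by linarith) hx hpN
      · refine upper_core E k m 4 hN1 hmE p (√((4:ℕ):ℝ)) D 0 hsq (Real.sqrt_nonneg _) hpN hp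
          hνD h2D le_rfl ?_ hk hE ?_ ?_ α hα
        · have := Real.sqrt_nonneg (((4:ℕ):ℝ))
          have h2 : 0 ≤ D - √((4:ℕ):ℝ) := by linarith
          positivity
        · intro x hx _
          push_cast at hx hsq hwin hνD ⊢
          exact MV.XOK4 _ D x _ rfl hsq (Real.sqrt_nonneg _) hνD (by linarith) hx
        · intro x hx hk2'
          exact absurd (hk24 hk2') (by norm_num)

/-- lower bound for all parameters -/
theorem lower_all (m : ℕ) (p : ℝ) (hm : 1 ≤ m) (hp : 1 ≤ p) (α : ℝ)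
    (hα : α < -1 / 2 + Vrec p m) : ¬ Admissible m p α := by
  obtain ⟨E, k, N, D, hN1, hmE, hpN, hD1, hND, hw, hk, hE, hA0, hV⟩ := Vrec_struct p hp m hm
  have hkR : (0:ℝ) ≤ k := Nat.cast_nonneg k
  have hB : 0 < 2 * p + k * D := by positivity
  set W : ℝ := 2 * p * D / (2 * p + k * D) - 1 / 2 with hW
  have hW0 : 0 < W := by linarith
  have h4p : 0 < 4 * p - 1 := by linarith
  set g : ℝ := (4 * p + 1) / (4 * p - 1) with hg
  have hg0 : 0 < g := by rw [hg]; positivity
  have hgE : 0 < g ^ (2 * E) := pow_pos hg0 _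
  have hgρ : ((4 * p - 1) / (4 * p + 1)) ^ (2 * E) = 1 / g ^ (2 * E) := by
    rw [hg, ← one_div_pow, one_div_div]
  have hα' : (α + 1 / 2) * g ^ (2 * E) < W := by
    rw [hV, hgρ] at hα
    have h1 : α + 1 / 2 < 1 / g ^ (2 * E) * W := by linarith
    have h2 : 1 / g ^ (2 * E) * W = W / g ^ (2 * E) := by ring
    rw [h2, lt_div_iff₀ hgE] at h1
    exact h1
  set t : ℝ := (α + 1 / 2) * g ^ (2 * E) with ht
  set W' : ℝ := (max t 0 + W) / 2 with hW'
  have hmax : max t 0 < W := max_lt hα' hW0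
  have hmt : t ≤ max t 0 := le_max_left _ _
  have hm0 : 0 ≤ max t 0 := le_max_right _ _
  have hW'0 : 0 < W' := by rw [hW']; linarith
  have hW'W : W' < W := by rw [hW']; linarith
  have htW' : t < W' := by rw [hW']; linarith
  refine ML.lower_family E k m N hN1 hmE p D g W' hpN (by linarith) (by linarith) ?_ hW'0 ?_ ?_ α ?_
  · rw [hg]; field_simp
  · have h1 : W' + 1 / 2 ≤ 2 * p * D / (2 * p + k * D) := by linarith
    rw [le_div_iff₀ hB] at h1
    exact h1
  · intro hE1
    have h1 := hE hE1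
    have h2 : W ≤ g / 2 := by
      rw [hW, hg, div_sub' hB.ne', div_div, div_le_div_iff₀ (by positivity) (by positivity)]
      nlinarith
    linarith
  · have h1 : t / g ^ (2 * E) < W' / g ^ (2 * E) := div_lt_div_of_pos_right htW' hgE
    have h2 : t / g ^ (2 * E) = α + 1 / 2 := by rw [ht]; field_simp
    linarith

end Pool.Agent.H195
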